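import Pool.Agent.K3h78.HS.OneD

/-! # The bi-Laplacian of a nonnegative function at a zero with vanishing Laplacian -/

set_option autoImplicit false

open Filter Topology
open scoped ContDiff

namespace Pool.Agent.K3h78.HS

section

variable {E F : Type*} [NormedAddCommGroup E] [NormedSpace ℝ E] [NormedAddCommGroup F]
  [NormedSpace ℝ F]

theorem pd_add {u v : E → F} {z : E} (e : E) (hu : DifferentiableAt ℝ u z)
    (hv : DifferentiableAt ℝ v z) : pd e (fun y => u y + v y) z = pd e u z + pd e v z := by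
  unfold pd
  rw [fderiv_fun_add hu hv]
  rfl

theorem pd_sub {u v : E → F} {z : E} (e : E) (hu : DifferentiableAt ℝ u z)
    (hv : DifferentiableAt ℝ v z) : pd e (fun y => u y - v y) z = pd e u z - pd e v z := by
  unfold pd
  rw [fderiv_fun_sub hu hv]
  rfl

theorem pd_smul {u : E → F} {z : E} (e : E) (c : ℝ) (hu : DifferentiableAt ℝ u z) :
    pd e (fun y => c • u y) z = c • pd e u z := by
  unfold pd
  rw [fderiv_fun_const_smul hu]
  rfl

theorem pd_pd_add {w : E → F} {z : E} (a b : E) (h : ContDiffAt ℝ 2 w z) :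
    pd (a + b) (pd (a + b) w) z =
      pd a (pd a w) z + (2 : ℝ) • pd a (pd b w) z + pd b (pd b w) z := by
  have e1 : pd (a + b) w = fun y => pd a w y + pd b w y := by
    funext y; exact pd_add_dir w y a b
  have da : DifferentiableAt ℝ (pd a w) z :=
    (pd_contDiffAt (n := 1) a h).differentiableAt (by norm_num)
  have db : DifferentiableAt ℝ (pd b w) z :=
    (pd_contDiffAt (n := 1) b h).differentiableAt (by norm_num)
  rw [e1, pd_add_dir, pd_add a da db, pd_add b da db, pd_comm b a h, two_smul]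
  abel

theorem pd_pd_sub {w : E → F} {z : E} (a b : E) (h : ContDiffAt ℝ 2 w z) :
    pd (a + -b) (pd (a + -b) w) z =
      pd a (pd a w) z - (2 : ℝ) • pd a (pd b w) z + pd b (pd b w) z := by
  have db : DifferentiableAt ℝ (pd b w) z :=
    (pd_contDiffAt (n := 1) b h).differentiableAt (by norm_num)
  have e2 : pd (-b) w = fun y => -pd b w y := by funext y; exact pd_neg_dir w y b
  have e3 : ∀ c : E, pd c (fun y => -pd b w y) z = -pd c (pd b w) z := by
    intro c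
    unfold pd
    rw [fderiv_fun_neg]
    rfl
  rw [pd_pd_add a (-b) h, e2, e3, e3, pd_neg_dir, neg_neg, smul_neg, sub_eq_add_neg]

end

/-- the Laplacian on `ℂ = ℝ²` -/
noncomputable def lap (u : ℂ → ℝ) (t : ℂ) : ℝ := pd 1 (pd 1 u) t + pd Complex.I (pd Complex.I u) t

theorem lap_contDiffAt {u : ℂ → ℝ} {z : ℂ} {n : ℕ} (h : ContDiffAt ℝ (n + 2 : ℕ) u z) :
    ContDiffAt ℝ n (lap u) z :=
  (pd_contDiffAt 1 (pd_contDiffAt (n := n + 1) 1 h)).add
    (pd_contDiffAt Complex.I (pd_contDiffAt (n := n + 1) Complex.I h))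

theorem bilap_nonneg {D : ℂ → ℝ} (hD : ContDiffAt ℝ 4 D 0) (hpos : ∀ᶠ t in 𝓝 (0 : ℂ), 0 ≤ D t)
    (h0 : D 0 = 0) (hL : lap D 0 = 0) : 0 ≤ lap (lap D) 0 := by
  set I := Complex.I with hI
  have D2 : ContDiffAt ℝ 2 D 0 := hD.of_le (by norm_cast)
  -- second derivatives in all directions vanish
  have a1 := second_dir_nonneg D2 hpos h0 1
  have aI := second_dir_nonneg D2 hpos h0 I
  have hLs : pd 1 (pd 1 D) 0 + pd I (pd I D) 0 = 0 := hL
  have z1 : pd 1 (pd 1 D) 0 = 0 := by linarith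
  have zI : pd I (pd I D) 0 = 0 := by linarith
  have ap := second_dir_nonneg D2 hpos h0 (1 + I)
  have am := second_dir_nonneg D2 hpos h0 (1 + -I)
  rw [pd_pd_add 1 I D2, z1, zI] at ap
  rw [pd_pd_sub 1 I D2, z1, zI] at am
  simp only [smul_eq_mul] at ap am
  have zc : pd 1 (pd I D) 0 = 0 := by linarith
  have zp : pd (1 + I) (pd (1 + I) D) 0 = 0 := by
    rw [pd_pd_add 1 I D2, z1, zI, zc]; simp
  have zm : pd (1 + -I) (pd (1 + -I) D) 0 = 0 := by
    rw [pd_pd_sub 1 I D2, z1, zI, zc]; simp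
  have f1 := fourth_dir_nonneg hD hpos h0 1 z1
  have fI := fourth_dir_nonneg hD hpos h0 I zI
  have fp := fourth_dir_nonneg hD hpos h0 (1 + I) zp
  have fm := fourth_dir_nonneg hD hpos h0 (1 + -I) zm
  -- regularity
  have ev4 : ∀ᶠ t in 𝓝 (0 : ℂ), ContDiffAt ℝ 4 D t := hD.eventually (by simp)
  have cP : ContDiffAt ℝ 3 (pd 1 D) 0 := pd_contDiffAt (n := 3) 1 hD
  have cQ : ContDiffAt ℝ 3 (pd I D) 0 := pd_contDiffAt (n := 3) I hD
  have cPP : ContDiffAt ℝ 2 (pd 1 (pd 1 D)) 0 := pd_contDiffAt (n := 2) 1 cP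
  have cPQ : ContDiffAt ℝ 2 (pd 1 (pd I D)) 0 := pd_contDiffAt (n := 2) 1 cQ
  have cQQ : ContDiffAt ℝ 2 (pd I (pd I D)) 0 := pd_contDiffAt (n := 2) I cQ
  have cL : ContDiffAt ℝ 2 (lap D) 0 := lap_contDiffAt (n := 2) hD
  -- `W± = lap D ± 2 PQ`
  have eWp : pd (1 + I) (pd (1 + I) D) =ᶠ[𝓝 0] fun t => lap D t + (2 : ℝ) * pd 1 (pd I D) t := by
    filter_upwards [ev4] with t ht
    rw [pd_pd_add 1 I (ht.of_le (by norm_cast)), lap, smul_eq_mul]
    ring
  have eWm : pd (1 + -I) (pd (1 + -I) D) =ᶠ[𝓝 0]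
      fun t => lap D t - (2 : ℝ) * pd 1 (pd I D) t := by
    filter_upwards [ev4] with t ht
    rw [pd_pd_sub 1 I (ht.of_le (by norm_cast)), lap, smul_eq_mul]
    ring
  have c2PQ : ContDiffAt ℝ 2 (fun t => (2 : ℝ) * pd 1 (pd I D) t) 0 := contDiffAt_const.mul cPQ
  have cWp : ContDiffAt ℝ 2 (fun t => lap D t + (2 : ℝ) * pd 1 (pd I D) t) 0 := cL.add c2PQ
  have cWm : ContDiffAt ℝ 2 (fun t => lap D t - (2 : ℝ) * pd 1 (pd I D) t) 0 := cL.sub c2PQ
  -- linearity of second derivatives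
  have lin2 : ∀ (a b : ℂ) {u v : ℂ → ℝ}, ContDiffAt ℝ 2 u 0 → ContDiffAt ℝ 2 v 0 → ∀ c : ℝ,
      pd a (pd b fun t => u t + c * v t) 0 = pd a (pd b u) 0 + c * pd a (pd b v) 0 := by
    intro a b u v hu hv c
    have hue : ∀ᶠ t in 𝓝 (0 : ℂ), ContDiffAt ℝ 2 u t := hu.eventually (by simp)
    have hve : ∀ᶠ t in 𝓝 (0 : ℂ), ContDiffAt ℝ 2 v t := hv.eventually (by simp)
    have e1 : pd b (fun t => u t + c * v t) =ᶠ[𝓝 0] fun t => pd b u t + c * pd b v t := by
      filter_upwards [hue, hve] with t h1 h2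
      have d1 := h1.differentiableAt (by norm_num)
      have d2 := h2.differentiableAt (by norm_num)
      rw [pd_add b d1 (d2.const_mul c)]
      congr 1
      exact pd_smul b c d2
    rw [pd_congr a e1]
    have d1 : DifferentiableAt ℝ (pd b u) 0 :=
      (pd_contDiffAt (n := 1) b hu).differentiableAt (by norm_num)
    have d2 : DifferentiableAt ℝ (pd b v) 0 :=
      (pd_contDiffAt (n := 1) b hv).differentiableAt (by norm_num)
    rw [pd_add a d1 (d2.const_mul c)]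
    congr 1
    exact pd_smul a c d2
  have tp : pd (1 + I) (pd (1 + I) (pd (1 + I) (pd (1 + I) D))) 0 =
      pd (1 + I) (pd (1 + I) (lap D)) 0 + 2 * pd (1 + I) (pd (1 + I) (pd 1 (pd I D))) 0 := by
    rw [pd_congr _ (pd_congr_nhds _ eWp)]
    exact lin2 _ _ cL cPQ 2
  have tm : pd (1 + -I) (pd (1 + -I) (pd (1 + -I) (pd (1 + -I) D))) 0 =
      pd (1 + -I) (pd (1 + -I) (lap D)) 0 - 2 * pd (1 + -I) (pd (1 + -I) (pd 1 (pd I D))) 0 := by
    rw [pd_congr _ (pd_congr_nhds _ eWm)]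
    have := lin2 (1 + -I) (1 + -I) cL cPQ (-2)
    rw [show (fun t => lap D t - (2 : ℝ) * pd 1 (pd I D) t) =
      fun t => lap D t + (-2) * pd 1 (pd I D) t from by funext t; ring, this]
    ring
  rw [tp, pd_pd_add 1 I cL, pd_pd_add 1 I cPQ] at fp
  rw [tm, pd_pd_sub 1 I cL, pd_pd_sub 1 I cPQ] at fm
  simp only [smul_eq_mul] at fp fm
  -- the sums of fourth powers
  have s1 : pd 1 (pd 1 (pd 1 (pd 1 D))) 0 = pd 1 (pd 1 (lap D)) 0 - pd 1 (pd 1 (pd I (pd I D))) 0 := by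
    have := lin2 1 1 cPP cQQ 1
    simp only [one_mul] at this
    have e : lap D = fun t => pd 1 (pd 1 D) t + pd I (pd I D) t := rfl
    rw [e, this]; ring
  have sI : pd I (pd I (pd I (pd I D))) 0 = pd I (pd I (lap D)) 0 - pd I (pd I (pd 1 (pd 1 D))) 0 := by
    have := lin2 I I cPP cQQ 1
    simp only [one_mul] at this
    have e : lap D = fun t => pd 1 (pd 1 D) t + pd I (pd I D) t := rfl
    rw [e, this]; ring
  -- commutation
  have comm1 : pd I (pd 1 D) =ᶠ[𝓝 0] pd 1 (pd I D) := by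
    filter_upwards [ev4] with t ht
    exact pd_comm I 1 (ht.of_le (by norm_cast))
  have evP : ∀ᶠ t in 𝓝 (0 : ℂ), ContDiffAt ℝ 3 (pd 1 D) t := cP.eventually (by simp)
  have evQ : ∀ᶠ t in 𝓝 (0 : ℂ), ContDiffAt ℝ 3 (pd I D) t := cQ.eventually (by simp)
  -- pd 1 pd I pd 1 pd I = pd 1 pd 1 pd I pd I
  have k1 : pd 1 (pd I (pd 1 (pd I D))) 0 = pd 1 (pd 1 (pd I (pd I D))) 0 := by
    apply pd_congr
    filter_upwards [evQ] with t ht
    exact pd_comm I 1 (ht.of_le (by norm_cast))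
  have k2 : pd I (pd I (pd 1 (pd 1 D))) 0 = pd 1 (pd 1 (pd I (pd I D))) 0 := by
    have e1 : pd I (pd 1 (pd 1 D)) =ᶠ[𝓝 0] pd 1 (pd 1 (pd I D)) := by
      filter_upwards [evP, comm1.eventually_nhds] with t ht hc
      rw [pd_comm I 1 (ht.of_le (by norm_cast)), pd_congr 1 hc]
    rw [pd_congr I e1]
    have cQ1 : ContDiffAt ℝ 2 (pd 1 (pd I D)) 0 := cPQ
    rw [pd_comm I 1 cQ1]
    apply pd_congr
    filter_upwards [evQ] with t ht
    exact pd_comm I 1 (ht.of_le (by norm_cast))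
  rw [s1] at f1
  rw [sI] at fI
  have goal : lap (lap D) 0 = pd 1 (pd 1 (lap D)) 0 + pd I (pd I (lap D)) 0 := rfl
  rw [goal]
  linarith [f1, fI, fp, fm, k1, k2]

end Pool.Agent.K3h78.HS
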