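import Pool.Agent.W549.CYDefs

/-! # Curvature of Hermitian metrics on complex surfaces: definitions -/

set_option autoImplicit false

open scoped Manifold ContDiff ComplexConjugate

namespace Pool.Agent.K3h78.HS

open Pool.Agent.W549.CY

/-- The components
`R_{i j̄ k l̄} = - ∂_k ∂_l̄ g_{i j̄} + ∑_{q,p} (∂_k g_{i q̄}) (g⁻¹)_{q p} (∂_l̄ g_{p j̄})`
of the curvature tensor of the Chern connection of the Hermitian metric with coefficients
`g = (g_{j k̄})` on an open subset of `ℂ^n`. -/
noncomputable def chernCurvature {n : ℕ} (g : Cn n → Matrix (Fin n) (Fin n) ℂ) (z : Cn n)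
    (i j k l : Fin n) : ℂ :=
  -dz k (dzbar l fun w => g w i j) z +
    ∑ q, ∑ p, dz k (fun w => g w i q) z * (g z)⁻¹ q p * dzbar l (fun w => g w p j) z

/-- The holomorphic sectional curvature `H(v) = R(v, v̄, v, v̄) / |v|⁴` at `z` in the direction
`v = ∑ v_i ∂/∂z_i` (numerator and denominator are real numbers). -/
noncomputable def holSec {n : ℕ} (g : Cn n → Matrix (Fin n) (Fin n) ℂ) (z v : Cn n) : ℝ :=
  (∑ i, ∑ j, ∑ k, ∑ l, chernCurvature g z i j k l * (v i * conj (v j) * v k * conj (v l))).re /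
    (∑ i, ∑ j, g z i j * (v i * conj (v j))).re ^ 2

variable {n : ℕ} {X : Type} [TopologicalSpace X] [ChartedSpace (Cn n) X]

/-- The metric is Kähler: `∂g_{j k̄}/∂z_i = ∂g_{i k̄}/∂z_j` in every chart, that is, the
`(1,1)`-form `i ∑ g_{j k̄} dz_j ∧ dz̄_k` is closed. -/
def IsKahler (h : HermitianMetric n X) : Prop :=
  ∀ e ∈ atlas (Cn n) X, ∀ z ∈ e.target, ∀ i j k : Fin n,
    dz i (fun w => h.g e w j k) z = dz j (fun w => h.g e w i k) z

/-- All holomorphic sectional curvatures of the metric are positive. -/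
def HasPositiveHSC (h : HermitianMetric n X) : Prop :=
  ∀ e ∈ atlas (Cn n) X, ∀ z ∈ e.target, ∀ v : Cn n, v ≠ 0 → 0 < holSec (h.g e) z v

/-! ### Hirzebruch surfaces and blow-ups -/

/-- A compact connected complex surface. -/
structure Surface where
  carrier : Type
  [top : TopologicalSpace carrier]
  [charts : ChartedSpace (Cn 2) carrier]
  [mfd : IsManifold 𝓘(ℂ, Cn 2) ω carrier]
  [compact : CompactSpace carrier]
  [t2 : T2Space carrier]
  [conn : ConnectedSpace carrier]

attribute [instance] Surface.top Surface.charts Surface.mfd Surface.compact Surface.t2 Surface.conn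

/-- Local holomorphic coordinates on the surface: an element of the maximal atlas. -/
def IsCoord (X : Surface) (e : OpenPartialHomeomorph X.carrier (Cn 2)) : Prop :=
  e ∈ IsManifold.maximalAtlas 𝓘(ℂ, Cn 2) ω X.carrier

/-- Four coordinate systems `c a b` of `Y` with values in the whole of `ℂ²`, with domains
`U a ∩ V b`, where `U false ∪ U true = V false ∪ V true = Y`. -/
def FourCharts (Y : Surface) (U V : Bool → Set Y.carrier)
    (c : Bool → Bool → OpenPartialHomeomorph Y.carrier (Cn 2)) : Prop :=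
  U false ∪ U true = Set.univ ∧ V false ∪ V true = Set.univ ∧
    ∀ a b, IsCoord Y (c a b) ∧ (c a b).source = U a ∩ V b ∧ (c a b).target = Set.univ

/-- The fibre coordinates `w` and `1/w`. -/
def FibreGluing (Y : Surface) (V : Bool → Set Y.carrier)
    (c : Bool → Bool → OpenPartialHomeomorph Y.carrier (Cn 2)) : Prop :=
  (∀ a (z : Cn 2), (c a false).symm z ∈ V true ↔ z 1 ≠ 0) ∧
    ∀ a (z : Cn 2), z 1 ≠ 0 → c a true ((c a false).symm z) = ![z 0, (z 1)⁻¹]

/-- The base coordinates `z` and `1/z`, and the fibre coordinates `w` and `w' = z^n w`. -/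
def BaseGluing (n : ℕ) (Y : Surface) (U : Bool → Set Y.carrier)
    (c : Bool → Bool → OpenPartialHomeomorph Y.carrier (Cn 2)) : Prop :=
  (∀ b (z : Cn 2), (c false b).symm z ∈ U true ↔ z 0 ≠ 0) ∧
    (∀ z : Cn 2, z 0 ≠ 0 → c true false ((c false false).symm z) = ![(z 0)⁻¹, z 0 ^ n * z 1]) ∧
    ∀ z : Cn 2, z 0 ≠ 0 → c true true ((c false true).symm z) = ![(z 0)⁻¹, (z 0 ^ n)⁻¹ * z 1]

/-- The complex surface `Y` is (isomorphic to) the Hirzebruch surface
`𝔽_n = ℙ(𝒪 ⊕ 𝒪(-n)) → ℙ¹`. It is glued from four copies of `ℂ²`: the base `ℙ¹` is covered by two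
discs with coordinates `z`, `1/z` (their preimages in `Y` are `U false`, `U true`), the fibres are
projective lines with coordinates `w`, `1/w` (defined on `V false`, `V true`), and the fibre
coordinates over the two discs are related by `w' = z^n w`. -/
def IsHirzebruch (n : ℕ) (Y : Surface) : Prop :=
  ∃ (U V : Bool → Set Y.carrier) (c : Bool → Bool → OpenPartialHomeomorph Y.carrier (Cn 2)),
    FourCharts Y U V c ∧ FibreGluing Y V c ∧ BaseGluing n Y U c

/-- `(u, v) ↦ (u, u v)` -/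
noncomputable def blowA (z : Cn 2) : Cn 2 := ![z 0, z 0 * z 1]

/-- `(u, v) ↦ (u v, v)` -/
noncomputable def blowB (z : Cn 2) : Cn 2 := ![z 0 * z 1, z 1]

/-- `(u, v) ↦ (1/v, u v)` -/
noncomputable def blowGlue (z : Cn 2) : Cn 2 := ![(z 1)⁻¹, z 0 * z 1]

/-- In the coordinates `ψ` of `Y` and `Φ` of `X`, the map `π` is `β`, and `Φ` takes all values
allowed by `ψ`. -/
def InCoord {X Y : Surface} (π : X.carrier → Y.carrier)
    (ψ : OpenPartialHomeomorph Y.carrier (Cn 2)) (Φ : OpenPartialHomeomorph X.carrier (Cn 2))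
    (β : Cn 2 → Cn 2) : Prop :=
  IsCoord Y ψ ∧ IsCoord X Φ ∧ Φ.target = β ⁻¹' ψ.target ∧ ∀ x ∈ Φ.source, ψ (π x) = β (Φ x)

/-- The map `π` is an isomorphism over the neighbourhood `ψ.source` of `y`, which does not meet
`S`. -/
def IsIsoNear {X Y : Surface} (π : X.carrier → Y.carrier) (S : Set Y.carrier) (y : Y.carrier) :
    Prop :=
  ∃ (ψ : OpenPartialHomeomorph Y.carrier (Cn 2)) (Φ : OpenPartialHomeomorph X.carrier (Cn 2)),
    InCoord π ψ Φ id ∧ y ∈ ψ.source ∧ Disjoint ψ.source S ∧ π ⁻¹' ψ.source = Φ.source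

/-- Over the coordinate neighbourhood `ψ.source` of `p`, where the coordinates `ψ` are centred
at `p` and `p` is the only point of `S`, the surface `X` is the union of two coordinate domains,
with coordinates `Φ₁` and `Φ₂`, in which `π` is `(u, v) ↦ (u, u v)` and `(u, v) ↦ (u v, v)`, and
which are glued by `(u, v) ↦ (1/v, u v)`. -/
def IsBlowUpNear {X Y : Surface} (π : X.carrier → Y.carrier) (S : Set Y.carrier) (p : Y.carrier) :
    Prop :=
  ∃ (ψ : OpenPartialHomeomorph Y.carrier (Cn 2)) (Φ₁ Φ₂ : OpenPartialHomeomorph X.carrier (Cn 2)),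
    InCoord π ψ Φ₁ blowA ∧ InCoord π ψ Φ₂ blowB ∧
      ψ p = 0 ∧ ψ.source ∩ S = {p} ∧ π ⁻¹' ψ.source = Φ₁.source ∪ Φ₂.source ∧
      (∀ z ∈ Φ₁.target, (Φ₁.symm z ∈ Φ₂.source ↔ z 1 ≠ 0)) ∧
      (∀ z ∈ Φ₁.target, z 1 ≠ 0 → Φ₂ (Φ₁.symm z) = blowGlue z)

/-- The map `π : X → Y` of complex surfaces is the blow-up of `Y` at the points of the discrete
set `S`: it is an isomorphism over a neighbourhood of every point outside `S`, and the standard
blow-up of the origin of `ℂ²` over a neighbourhood of every point of `S`. -/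
def IsBlowUp {X Y : Surface} (π : X.carrier → Y.carrier) (S : Set Y.carrier) : Prop :=
  (∀ y ∉ S, IsIsoNear π S y) ∧ ∀ p ∈ S, IsBlowUpNear π S p

end Pool.Agent.K3h78.HS
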