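import Pool.Agent.K3h78.HS.Wirt
import Pool.Agent.K3h78.HS.Defs

/-! # Fourth order jets along holomorphic discs -/

set_option autoImplicit false

open Filter Topology
open scoped ContDiff ComplexConjugate

namespace Pool.Agent.K3h78.HS

open Pool.Agent.W549.CY (Cn dz dzbar)

/-! ### Smoothness -/

theorem contDiff_dz {n : ℕ} {u : Cn n → ℂ} (h : ContDiff ℝ ∞ u) (j : Fin n) :
    ContDiff ℝ ∞ (dz j u) := by
  have h1 : ContDiff ℝ ∞ (fderiv ℝ u) := h.fderiv_right (by simp)
  unfold dz
  exact contDiff_const.mul ((h1.clm_apply contDiff_const).sub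
    (contDiff_const.mul (h1.clm_apply contDiff_const)))

theorem contDiff_dzbar {n : ℕ} {u : Cn n → ℂ} (h : ContDiff ℝ ∞ u) (j : Fin n) :
    ContDiff ℝ ∞ (dzbar j u) := by
  have h1 : ContDiff ℝ ∞ (fderiv ℝ u) := h.fderiv_right (by simp)
  unfold dzbar
  exact contDiff_const.mul ((h1.clm_apply contDiff_const).add
    (contDiff_const.mul (h1.clm_apply contDiff_const)))

theorem dt_PQR {P Q R : ℂ → ℂ} {P' Q' t : ℂ} (hP : HasDerivAt P P' t) (hQ : HasDerivAt Q Q' t)
    (hR : DifferentiableAt ℝ R t) :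
    dt (fun s => P s * conj (Q s) * R s) t =
      P' * conj (Q t) * R t + P t * conj (Q t) * dt R t := by
  have dP : DifferentiableAt ℝ P t := (hP.hasFDerivAt.restrictScalars ℝ).differentiableAt
  have dQ0 : DifferentiableAt ℝ Q t := (hQ.hasFDerivAt.restrictScalars ℝ).differentiableAt
  have dQ : DifferentiableAt ℝ (fun s => conj (Q s)) t :=
    Complex.conjCLE.toContinuousLinearMap.differentiableAt.comp t dQ0
  rw [dt_mul (dP.fun_mul dQ) hR, dt_mul dP dQ, dt_holo hP, dt_conj hQ]
  ring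

theorem dtb_PQR {P Q R : ℂ → ℂ} {P' Q' t : ℂ} (hP : HasDerivAt P P' t) (hQ : HasDerivAt Q Q' t)
    (hR : DifferentiableAt ℝ R t) :
    dtb (fun s => P s * conj (Q s) * R s) t =
      P t * conj Q' * R t + P t * conj (Q t) * dtb R t := by
  have dP : DifferentiableAt ℝ P t := (hP.hasFDerivAt.restrictScalars ℝ).differentiableAt
  have dQ0 : DifferentiableAt ℝ Q t := (hQ.hasFDerivAt.restrictScalars ℝ).differentiableAt
  have dQ : DifferentiableAt ℝ (fun s => conj (Q s)) t :=
    Complex.conjCLE.toContinuousLinearMap.differentiableAt.comp t dQ0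
  rw [dtb_mul (dP.fun_mul dQ) hR, dtb_mul dP dQ, dtb_holo hP, dtb_conj hQ]
  ring

section disc

variable {n : ℕ} {f : ℂ → Cn n} {t : ℂ}

theorem an_deriv (hf : AnalyticAt ℂ f t) (j : Fin n) :
    HasDerivAt (fun s => deriv f s j) (deriv (deriv f) t j) t := by
  have h := hf.deriv.differentiableAt.hasDerivAt
  exact (hasDerivAt_pi.1 h) j

theorem comp_smooth {U : Cn n → ℂ} (hU : ContDiff ℝ ∞ U) (hf : AnalyticAt ℂ f t) :
    ContDiffAt ℝ ∞ (fun s => U (f s)) t := by
  have h1 : ContDiffAt ℝ ∞ f t := (hf.restrictScalars (𝕜 := ℝ)).contDiffAt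
  exact hU.contDiffAt.comp t h1

theorem dtb_comp_ev {U : Cn n → ℂ} (hU : ContDiff ℝ ∞ U) (hf : AnalyticAt ℂ f t) :
    dtb (fun s => U (f s)) =ᶠ[𝓝 t] fun s => ∑ k, conj (deriv f s k) * dzbar k U (f s) := by
  filter_upwards [hf.eventually_analyticAt] with s hs
  exact dtb_disc (hU.contDiffAt.differentiableAt (by simp)) hs.differentiableAt.hasDerivAt

theorem dt_comp {U : Cn n → ℂ} (hU : ContDiff ℝ ∞ U) (hf : AnalyticAt ℂ f t) :
    dt (fun s => U (f s)) t = ∑ k, deriv f t k * dz k U (f t) :=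
  dt_disc (hU.contDiffAt.differentiableAt (by simp)) hf.differentiableAt.hasDerivAt

theorem differentiableAt_conj_deriv (hf : AnalyticAt ℂ f t) (k : Fin n) :
    DifferentiableAt ℝ (fun s => conj (deriv f s k)) t :=
  Complex.conjCLE.toContinuousLinearMap.differentiableAt.comp t
    ((an_deriv hf k).hasFDerivAt.restrictScalars ℝ).differentiableAt

/-- the complex Hessian along a holomorphic disc -/
theorem levi {U : Cn n → ℂ} (hU : ContDiff ℝ ∞ U) (hf : AnalyticAt ℂ f t) :
    dt (dtb (fun s => U (f s))) t =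
      ∑ k, ∑ j, deriv f t j * conj (deriv f t k) * dz j (dzbar k U) (f t) := by
  rw [dt_congr (dtb_comp_ev hU hf), dt_sum]
  · apply Finset.sum_congr rfl
    intro k _
    have hk := contDiff_dzbar hU k
    rw [dt_mul (differentiableAt_conj_deriv hf k)
      ((comp_smooth hk hf).differentiableAt (by simp)), dt_conj (an_deriv hf k), zero_mul, zero_add,
      dt_comp hk hf, Finset.mul_sum]
    apply Finset.sum_congr rfl
    intro j _
    ring
  · intro k _
    exact (differentiableAt_conj_deriv hf k).mul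
      ((comp_smooth (contDiff_dzbar hU k) hf).differentiableAt (by simp))

/-- the term of the second Levi form -/
theorem levi_term {R : Cn n → ℂ} (hR : ContDiff ℝ ∞ R) (hf : AnalyticAt ℂ f t) (j k : Fin n) :
    dt (dtb (fun s => deriv f s j * conj (deriv f s k) * R (f s))) t =
      deriv (deriv f) t j * conj (deriv (deriv f) t k) * R (f t) +
      deriv f t j * conj (deriv (deriv f) t k) * (∑ i, deriv f t i * dz i R (f t)) +
      deriv (deriv f) t j * conj (deriv f t k) * (∑ l, conj (deriv f t l) * dzbar l R (f t)) +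
      deriv f t j * conj (deriv f t k) *
        (∑ l, ∑ i, deriv f t i * conj (deriv f t l) * dz i (dzbar l R) (f t)) := by
  have e1 : dtb (fun s => deriv f s j * conj (deriv f s k) * R (f s)) =ᶠ[𝓝 t]
      fun s => deriv f s j * conj (deriv (deriv f) s k) * R (f s) +
        deriv f s j * conj (deriv f s k) * dtb (fun s => R (f s)) s := by
    filter_upwards [hf.eventually_analyticAt] with s hs
    exact dtb_PQR (an_deriv hs j) (an_deriv hs k) ((comp_smooth hR hs).differentiableAt (by simp))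
  have hRf := comp_smooth hR hf
  have hRd : DifferentiableAt ℝ (fun s => R (f s)) t := hRf.differentiableAt (by simp)
  have hRb : DifferentiableAt ℝ (dtb (fun s => R (f s))) t := by
    have h2 : ContDiffAt ℝ 2 (fun s => R (f s)) t := hRf.of_le (by norm_cast)
    have a1 : DifferentiableAt ℝ (pd 1 (fun s => R (f s))) t :=
      (pd_contDiffAt (n := 1) 1 h2).differentiableAt (by norm_num)
    have a2 : DifferentiableAt ℝ (pd Complex.I (fun s => R (f s))) t :=
      (pd_contDiffAt (n := 1) Complex.I h2).differentiableAt (by norm_num)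
    unfold dtb
    exact (a1.add (a2.const_mul _)).const_mul _
  have hP : DifferentiableAt ℝ (fun s => deriv f s j) t :=
    ((an_deriv hf j).hasFDerivAt.restrictScalars ℝ).differentiableAt
  have hQ := differentiableAt_conj_deriv hf k
  have hff : HasDerivAt (fun s => deriv (deriv f) s k) (deriv (deriv (deriv f)) t k) t :=
    (hasDerivAt_pi.1 hf.deriv.deriv.differentiableAt.hasDerivAt) k
  have hQ2 : DifferentiableAt ℝ (fun s => conj (deriv (deriv f) s k)) t :=
    Complex.conjCLE.toContinuousLinearMap.differentiableAt.comp t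
      (hff.hasFDerivAt.restrictScalars ℝ).differentiableAt
  have add : ∀ {u v : ℂ → ℂ}, DifferentiableAt ℝ u t → DifferentiableAt ℝ v t →
      dt (fun s => u s + v s) t = dt u t + dt v t := by
    intro u v hu hv
    unfold dt
    rw [pd_add _ hu hv, pd_add _ hu hv]; ring
  rw [dt_congr e1, add ((hP.fun_mul hQ2).fun_mul hRd) ((hP.fun_mul hQ).fun_mul hRb),
    dt_PQR (an_deriv hf j) hff hRd, dt_PQR (an_deriv hf j) (an_deriv hf k) hRb,
    levi hR hf, dt_comp hR hf, (dtb_comp_ev hR hf).self_of_nhds]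
  ring

end disc

/-! ### Real functions -/

theorem pd_ofReal {v : ℂ → ℝ} {t : ℂ} (e : ℂ) (hv : DifferentiableAt ℝ v t) :
    pd e (fun s => ((v s : ℝ) : ℂ)) t = ((pd e v t : ℝ) : ℂ) := by
  unfold pd
  have h := (Complex.ofRealCLM.hasFDerivAt (x := v t)).comp t hv.hasFDerivAt
  have h2 : fderiv ℝ (fun s => ((v s : ℝ) : ℂ)) t = _ := h.fderiv
  rw [h2]
  simp

theorem dt_dtb_ofReal {v : ℂ → ℝ} {t : ℂ} (hv : ContDiffAt ℝ 2 v t) :
    dt (dtb (fun s => ((v s : ℝ) : ℂ))) t = ((lap v t : ℝ) : ℂ) / 4 := by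
  have hev : ∀ᶠ s in 𝓝 t, ContDiffAt ℝ 2 v s := hv.eventually (by simp)
  have e1 : dtb (fun s => ((v s : ℝ) : ℂ)) =ᶠ[𝓝 t]
      fun s => (1 / 2) * (((pd 1 v s : ℝ) : ℂ) + Complex.I * ((pd Complex.I v s : ℝ) : ℂ)) := by
    filter_upwards [hev] with s hs
    unfold dtb
    rw [pd_ofReal _ (hs.differentiableAt (by norm_num)), pd_ofReal _ (hs.differentiableAt (by norm_num))]
  have d1 : DifferentiableAt ℝ (pd 1 v) t :=
    (pd_contDiffAt (n := 1) 1 hv).differentiableAt (by norm_num)
  have dI : DifferentiableAt ℝ (pd Complex.I v) t :=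
    (pd_contDiffAt (n := 1) Complex.I hv).differentiableAt (by norm_num)
  have c1 : DifferentiableAt ℝ (fun s => ((pd 1 v s : ℝ) : ℂ)) t :=
    Complex.ofRealCLM.differentiableAt.comp t d1
  have cI : DifferentiableAt ℝ (fun s => ((pd Complex.I v s : ℝ) : ℂ)) t :=
    Complex.ofRealCLM.differentiableAt.comp t dI
  have e2 : ∀ e : ℂ, pd e (fun s => (1 / 2 : ℂ) * (((pd 1 v s : ℝ) : ℂ) +
      Complex.I * ((pd Complex.I v s : ℝ) : ℂ))) t =
      (1 / 2) * (((pd e (pd 1 v) t : ℝ) : ℂ) + Complex.I * ((pd e (pd Complex.I v) t : ℝ) : ℂ)) := by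
    intro e
    have h1 : pd e (fun s => (1 / 2 : ℂ) * (((pd 1 v s : ℝ) : ℂ) +
      Complex.I * ((pd Complex.I v s : ℝ) : ℂ))) t =
      (1 / 2) * pd e (fun s => (((pd 1 v s : ℝ) : ℂ) +
      Complex.I * ((pd Complex.I v s : ℝ) : ℂ))) t := by
      rw [pd_mul e (differentiableAt_const _) (c1.fun_add (cI.const_mul _))]
      have : pd e (fun _ : ℂ => (1 / 2 : ℂ)) t = 0 := by unfold pd; simp
      rw [this]; ring
    have h2 : pd e (fun s => Complex.I * ((pd Complex.I v s : ℝ) : ℂ)) t =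
        Complex.I * ((pd e (pd Complex.I v) t : ℝ) : ℂ) := by
      rw [pd_mul e (differentiableAt_const _) cI, pd_ofReal _ dI]
      have : pd e (fun _ : ℂ => Complex.I) t = 0 := by unfold pd; simp
      rw [this]; ring
    rw [h1, pd_add e c1 (cI.const_mul _), h2, pd_ofReal _ d1]
  rw [dt_congr e1]
  unfold dt
  rw [e2, e2, pd_comm Complex.I 1 hv]
  unfold lap
  push_cast
  linear_combination (-(1 / 4) * ((pd Complex.I (pd Complex.I v) t : ℝ) : ℂ)) * Complex.I_sq

end Pool.Agent.K3h78.HS
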