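import Pool.Agent.K3h78.HS.Hess

/-! # The Kähler potential -/

set_option autoImplicit false
set_option maxHeartbeats 400000

open Filter Topology Matrix
open scoped ContDiff ComplexConjugate ComplexOrder

namespace Pool.Agent.K3h78.HS

open Pool.Agent.W549.CY (Cn dz dzbar)

/-! ### One variable -/

/-- `α e^s + β e^{-s}` -/
noncomputable def ee (α β s : ℝ) : ℝ := α * Real.exp s + β * Real.exp (-s)

/-- `α e^s - β e^{-s}` -/
noncomputable def ed (α β s : ℝ) : ℝ := α * Real.exp s - β * Real.exp (-s)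

theorem ee_pos {α β : ℝ} (hα : 0 ≤ α) (hβ : 0 ≤ β) (h : 0 < α + β) (s : ℝ) : 0 < ee α β s := by
  unfold ee
  have e1 := Real.exp_pos s
  have e2 := Real.exp_pos (-s)
  rcases hα.lt_or_eq with h1 | h1
  · positivity
  · have : 0 < β := by linarith
    positivity

theorem ee_deriv (α β s : ℝ) : HasDerivAt (ee α β) (ed α β s) s := by
  unfold ee ed
  have h1 := (Real.hasDerivAt_exp s).const_mul α
  have h2 : HasDerivAt (fun s => β * Real.exp (-s)) (β * (-Real.exp (-s))) s := by
    have := ((Real.hasDerivAt_exp (-s)).comp s (hasDerivAt_neg s)).const_mul β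
    refine this.congr_deriv ?_
    ring
  exact (h1.add h2).congr_deriv (by ring)

theorem ed_deriv (α β s : ℝ) : HasDerivAt (ed α β) (ee α β s) s := by
  unfold ee ed
  have h1 := (Real.hasDerivAt_exp s).const_mul α
  have h2 : HasDerivAt (fun s => β * Real.exp (-s)) (β * (-Real.exp (-s))) s := by
    have := ((Real.hasDerivAt_exp (-s)).comp s (hasDerivAt_neg s)).const_mul β
    refine this.congr_deriv ?_
    ring
  exact (h1.sub h2).congr_deriv (by ring)

theorem ee_sq_sub (α β s : ℝ) : ee α β s ^ 2 - ed α β s ^ 2 = 4 * α * β := by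
  unfold ee ed
  have h : Real.exp s * Real.exp (-s) = 1 := by rw [← Real.exp_add]; simp
  linear_combination (4 * α * β) * h

/-- derivative of `log (ee α β s)` -/
noncomputable def h1 (α β s : ℝ) : ℝ := ed α β s / ee α β s

/-- second derivative of `log (ee α β s)` -/
noncomputable def h2 (α β s : ℝ) : ℝ := 4 * α * β / ee α β s ^ 2

theorem hh_deriv {α β s : ℝ} (h : 0 < ee α β s) :
    HasDerivAt (fun s => Real.log (ee α β s)) (h1 α β s) s :=
  (ee_deriv α β s).log h.ne'

theorem h1_deriv {α β s : ℝ} (h : 0 < ee α β s) : HasDerivAt (h1 α β) (h2 α β s) s := by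
  have := (ed_deriv α β s).div (ee_deriv α β s) h.ne'
  refine this.congr_deriv ?_
  unfold h2
  rw [← ee_sq_sub α β s]
  ring

theorem h2_nonneg {α β s : ℝ} (hα : 0 ≤ α) (hβ : 0 ≤ β) : 0 ≤ h2 α β s := by
  unfold h2; positivity

theorem h2_le {α β s : ℝ} (h : 0 < ee α β s) : h2 α β s ≤ 1 := by
  unfold h2
  rw [div_le_one (by positivity), ← ee_sq_sub α β s]
  nlinarith [sq_nonneg (ed α β s)]

theorem h1_le {α β s : ℝ} (h : 0 < ee α β s) (hβ : 0 ≤ β) : h1 α β s ≤ 1 := by
  unfold h1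
  rw [div_le_one h]
  unfold ed ee
  have e2 := Real.exp_pos (-s)
  nlinarith

theorem le_h1 {α β s : ℝ} (h : 0 < ee α β s) (hα : 0 ≤ α) : -1 ≤ h1 α β s := by
  unfold h1
  rw [le_div_iff₀ h]
  unfold ed ee
  have e2 := Real.exp_pos s
  nlinarith

theorem half_le_h1 {α β s : ℝ} (h : 0 < ee α β s)
    (h3 : 3 * β ≤ α * Real.exp s * Real.exp s) : 1 / 2 ≤ h1 α β s := by
  unfold h1
  rw [le_div_iff₀ h]
  unfold ed ee
  have e1 := Real.exp_pos (-s)
  have e : Real.exp s * Real.exp (-s) = 1 := by rw [← Real.exp_add]; simp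
  have : 3 * β * Real.exp (-s) ≤ α * Real.exp s := by
    calc 3 * β * Real.exp (-s) ≤ α * Real.exp s * Real.exp s * Real.exp (-s) :=
          mul_le_mul_of_nonneg_right h3 e1.le
      _ = α * Real.exp s * (Real.exp s * Real.exp (-s)) := by ring
      _ = α * Real.exp s := by rw [e, mul_one]
  linarith

theorem h1_le_neg_half {α β s : ℝ} (h : 0 < ee α β s)
    (h3 : 3 * α ≤ β * Real.exp (-s) * Real.exp (-s)) : h1 α β s ≤ -(1 / 2) := by
  unfold h1
  rw [div_le_iff₀ h]
  unfold ed ee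
  have e1 := Real.exp_pos s
  have e : Real.exp s * Real.exp (-s) = 1 := by rw [← Real.exp_add]; simp
  have : 3 * α * Real.exp s ≤ β * Real.exp (-s) := by
    calc 3 * α * Real.exp s ≤ β * Real.exp (-s) * Real.exp (-s) * Real.exp s :=
          mul_le_mul_of_nonneg_right h3 e1.le
      _ = β * Real.exp (-s) * (Real.exp s * Real.exp (-s)) := by ring
      _ = β * Real.exp (-s) := by rw [e, mul_one]
  linarith

theorem conv_aux {g g' : ℝ → ℝ} (hd : ∀ x, HasDerivAt g (g' x) x) (hm : Monotone g') {s0 : ℝ}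
    (h0 : g' s0 = 0) (s : ℝ) : g s0 ≤ g s := by
  have hc : Continuous g := continuous_iff_continuousAt.2 fun x => (hd x).continuousAt
  rcases lt_trichotomy s0 s with h | h | h
  · obtain ⟨c, hc1, hc2⟩ := exists_hasDerivAt_eq_slope g g' h hc.continuousOn (fun x _ => hd x)
    have h1 : 0 ≤ g' c := h0 ▸ hm hc1.1.le
    rw [hc2] at h1
    have := (div_nonneg_iff.1 h1).resolve_right (by intro h2; linarith [h2.2])
    linarith [this.1]
  · rw [h]
  · obtain ⟨c, hc1, hc2⟩ := exists_hasDerivAt_eq_slope g g' h hc.continuousOn (fun x _ => hd x)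
    have h1 : g' c ≤ 0 := h0 ▸ hm hc1.2.le
    rw [hc2, div_le_iff₀ (by linarith)] at h1
    linarith

/-! ### The function `F` -/

/-- `F(z, s) = log(|z₀|² e^s + e^{-s}) + log(e^s + e^{-s}) + log(e^s + |z₁|² e^{-s})` -/
noncomputable def FF (z : Cn 2) (s : ℝ) : ℝ :=
  Real.log (ee (Complex.normSq (z 0)) 1 s) + Real.log (ee 1 1 s) +
    Real.log (ee 1 (Complex.normSq (z 1)) s)

/-- `∂F/∂s` -/
noncomputable def F1 (z : Cn 2) (s : ℝ) : ℝ :=
  h1 (Complex.normSq (z 0)) 1 s + h1 1 1 s + h1 1 (Complex.normSq (z 1)) s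

/-- `∂²F/∂s²` -/
noncomputable def F2 (z : Cn 2) (s : ℝ) : ℝ :=
  h2 (Complex.normSq (z 0)) 1 s + h2 1 1 s + h2 1 (Complex.normSq (z 1)) s

variable (z : Cn 2) (s : ℝ)

theorem pos_a : 0 < ee (Complex.normSq (z 0)) 1 s :=
  ee_pos (Complex.normSq_nonneg _) zero_le_one (by linarith [Complex.normSq_nonneg (z 0)]) s

theorem pos_b : 0 < ee 1 1 s := ee_pos zero_le_one zero_le_one (by norm_num) s

theorem pos_c : 0 < ee 1 (Complex.normSq (z 1)) s :=
  ee_pos zero_le_one (Complex.normSq_nonneg _) (by linarith [Complex.normSq_nonneg (z 1)]) s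

theorem FF_deriv : HasDerivAt (FF z) (F1 z s) s :=
  ((hh_deriv (pos_a z s)).add (hh_deriv (pos_b s))).add (hh_deriv (pos_c z s))

theorem F1_deriv : HasDerivAt (F1 z) (F2 z s) s :=
  ((h1_deriv (pos_a z s)).add (h1_deriv (pos_b s))).add (h1_deriv (pos_c z s))

theorem F2_pos : 0 < F2 z s := by
  have h1 : 0 < h2 1 1 s := by
    unfold h2
    have := pos_b s
    positivity
  have h3 := h2_nonneg (s := s) (Complex.normSq_nonneg (z 0)) zero_le_one
  have h4 := h2_nonneg (s := s) zero_le_one (Complex.normSq_nonneg (z 1))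
  unfold F2
  linarith

theorem F2_le : F2 z s ≤ 3 := by
  have a := h2_le (pos_a z s)
  have b := h2_le (pos_b s)
  have c := h2_le (pos_c z s)
  unfold F2
  linarith

theorem F1_strictMono : StrictMono (F1 z) :=
  strictMono_of_hasDerivAt_pos (fun s => F1_deriv z s) (fun s => F2_pos z s)

theorem exists_zero : ∃ s, F1 z s = 0 := by
  set a := Complex.normSq (z 0) with ha
  set b := Complex.normSq (z 1) with hb
  have ha0 : 0 ≤ a := Complex.normSq_nonneg _
  have hb0 : 0 ≤ b := Complex.normSq_nonneg _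
  set s1 := Real.log (3 * (b + 1)) with hs1
  set s0 := -Real.log (3 * (a + 1)) with hs0
  have e1 : Real.exp s1 = 3 * (b + 1) := Real.exp_log (by positivity)
  have e0 : Real.exp (-s0) = 3 * (a + 1) := by rw [hs0, neg_neg]; exact Real.exp_log (by positivity)
  have u1 : 0 ≤ F1 z s1 := by
    have a1 := le_h1 (pos_a z s1) ha0
    have a2 := half_le_h1 (pos_b s1) (by rw [e1]; nlinarith)
    have a3 := half_le_h1 (pos_c z s1) (by rw [e1]; nlinarith)
    unfold F1
    linarith
  have u0 : F1 z s0 ≤ 0 := by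
    have a1 := h1_le_neg_half (pos_a z s0) (by rw [e0]; nlinarith)
    have a2 := h1_le_neg_half (pos_b s0) (by rw [e0]; nlinarith)
    have a3 := h1_le (pos_c z s0) hb0
    unfold F1
    linarith
  have hc : Continuous (F1 z) :=
    continuous_iff_continuousAt.2 fun x => (F1_deriv z x).continuousAt
  have hle : s0 ≤ s1 := (F1_strictMono z).le_iff_le.1 (u0.trans u1)
  obtain ⟨s, _, hs⟩ := intermediate_value_Icc hle hc.continuousOn ⟨u0, u1⟩
  exact ⟨s, hs⟩

/-- the critical point -/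
noncomputable def ss (z : Cn 2) : ℝ := (exists_zero z).choose

theorem F1_ss : F1 z (ss z) = 0 := (exists_zero z).choose_spec

theorem eq_ss {z : Cn 2} {s : ℝ} (h : F1 z s = 0) : s = ss z :=
  (F1_strictMono z).injective (h.trans (F1_ss z).symm)

/-- the potential -/
noncomputable def φ (z : Cn 2) : ℝ := FF z (ss z)

theorem φ_le : φ z ≤ FF z s :=
  conv_aux (FF_deriv z) (F1_strictMono z).monotone (F1_ss z) s

theorem le_φ : FF z s ≤ φ z + 3 / 2 * (s - ss z) ^ 2 := by
  have hd : ∀ x, HasDerivAt (fun x => 3 / 2 * (x - ss z) ^ 2 - FF z x) (3 * (x - ss z) - F1 z x) x := by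
    intro x
    have h1 : HasDerivAt (fun x => 3 / 2 * (x - ss z) ^ 2) (3 * (x - ss z)) x := by
      have := (((hasDerivAt_id x).sub_const (ss z)).pow 2).const_mul (3 / 2)
      refine this.congr_deriv ?_
      simp
      ring
    exact h1.sub (FF_deriv z x)
  have hm : Monotone fun x => 3 * (x - ss z) - F1 z x := by
    refine monotone_of_hasDerivAt_nonneg (f' := fun x => 3 - F2 z x) (fun x => ?_) (fun x => ?_)
    · have h1 : HasDerivAt (fun x => 3 * (x - ss z)) 3 x := by
        have := ((hasDerivAt_id x).sub_const (ss z)).const_mul 3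
        refine this.congr_deriv ?_
        simp
      exact h1.sub (F1_deriv z x)
    · have := F2_le z x
      simp only [Pi.zero_apply]
      linarith
  have := conv_aux hd hm (s0 := ss z) (by rw [F1_ss]; ring) s
  simp only [sub_self] at this
  unfold φ
  nlinarith

/-! ### Smoothness -/

theorem normSq_smooth (i : Fin 2) : ContDiff ℝ ∞ fun p : Cn 2 × ℝ => Complex.normSq (p.1 i) := by
  have h : ContDiff ℝ ∞ fun p : Cn 2 × ℝ => p.1 i :=
    (contDiff_pi.1 (contDiff_fst (𝕜 := ℝ) (E := Cn 2) (F := ℝ) (n := ∞))) i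
  have h1 : ContDiff ℝ ∞ fun p : Cn 2 × ℝ => (p.1 i).re := Complex.reCLM.contDiff.comp h
  have h2 : ContDiff ℝ ∞ fun p : Cn 2 × ℝ => (p.1 i).im := Complex.imCLM.contDiff.comp h
  simp only [Complex.normSq_apply]
  exact (h1.mul h1).add (h2.mul h2)

theorem ee_smooth {α β : Cn 2 × ℝ → ℝ} (hα : ContDiff ℝ ∞ α) (hβ : ContDiff ℝ ∞ β) :
    ContDiff ℝ ∞ fun p : Cn 2 × ℝ => ee (α p) (β p) p.2 := by
  unfold ee
  exact (hα.mul (Real.contDiff_exp.comp contDiff_snd)).add
    (hβ.mul (Real.contDiff_exp.comp contDiff_snd.neg))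

theorem ed_smooth {α β : Cn 2 × ℝ → ℝ} (hα : ContDiff ℝ ∞ α) (hβ : ContDiff ℝ ∞ β) :
    ContDiff ℝ ∞ fun p : Cn 2 × ℝ => ed (α p) (β p) p.2 := by
  unfold ed
  exact (hα.mul (Real.contDiff_exp.comp contDiff_snd)).sub
    (hβ.mul (Real.contDiff_exp.comp contDiff_snd.neg))

theorem FF_smooth : ContDiff ℝ ∞ fun p : Cn 2 × ℝ => FF p.1 p.2 := by
  unfold FF
  exact (((ee_smooth (normSq_smooth 0) contDiff_const).log fun p => (pos_a p.1 p.2).ne').add
    ((ee_smooth contDiff_const contDiff_const).log fun p => (pos_b p.2).ne')).add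
    ((ee_smooth contDiff_const (normSq_smooth 1)).log fun p => (pos_c p.1 p.2).ne')

theorem F1_smooth : ContDiff ℝ ∞ fun p : Cn 2 × ℝ => F1 p.1 p.2 := by
  unfold F1 h1
  exact (((ed_smooth (normSq_smooth 0) contDiff_const).div (ee_smooth (normSq_smooth 0) contDiff_const)
      fun p => (pos_a p.1 p.2).ne').add
    ((ed_smooth contDiff_const contDiff_const).div (ee_smooth contDiff_const contDiff_const)
      fun p => (pos_b p.2).ne')).add
    ((ed_smooth contDiff_const (normSq_smooth 1)).div (ee_smooth contDiff_const (normSq_smooth 1))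
      fun p => (pos_c p.1 p.2).ne')

theorem F1_partial : fderiv ℝ (fun p : Cn 2 × ℝ => F1 p.1 p.2) (z, s) (0, 1) = F2 z s := by
  have hd : HasFDerivAt (fun p : Cn 2 × ℝ => F1 p.1 p.2)
      (fderiv ℝ (fun p : Cn 2 × ℝ => F1 p.1 p.2) (z, s)) (z, s) :=
    (F1_smooth.contDiffAt.differentiableAt (by simp)).hasFDerivAt
  have h1 : HasDerivAt (fun x : ℝ => ((z, x) : Cn 2 × ℝ)) (0, 1) s :=
    (hasDerivAt_const s z).prodMk (hasDerivAt_id s)
  have h2 := hd.comp_hasDerivAt s h1
  exact h2.unique (F1_deriv z s)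

theorem ss_smooth : ContDiff ℝ ∞ ss := by
  rw [contDiff_iff_contDiffAt]
  intro z
  have cdf : ContDiffAt ℝ ∞ (fun p : Cn 2 × ℝ => F1 p.1 p.2) (z, ss z) := F1_smooth.contDiffAt
  have hinv : (fderiv ℝ (fun p : Cn 2 × ℝ => F1 p.1 p.2) (z, ss z) ∘L
      .inr ℝ (Cn 2) ℝ).IsInvertible := by
    refine ⟨ContinuousLinearEquiv.unitsEquivAut ℝ (Units.mk0 _ (F2_pos z (ss z)).ne'), ?_⟩
    ext
    simp [F1_partial]
  have e := cdf.eventually_apply_implicitFunction (by simp) hinv
  have c := cdf.contDiffAt_implicitFunction (by simp) hinv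
  refine c.congr_of_eventuallyEq ?_
  filter_upwards [e] with x hx
  have hx' : F1 x (cdf.implicitFunction (by simp) hinv x) = F1 z (ss z) := hx
  rw [F1_ss] at hx'
  exact (eq_ss hx').symm

theorem φ_smooth : ContDiff ℝ ∞ φ :=
  FF_smooth.comp (contDiff_id.prodMk ss_smooth)

end Pool.Agent.K3h78.HS
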