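import Pool.Agent.K3h78.HS.Lap
import Pool.Agent.K3h78.HS.Pot

/-! # The holomorphic discs -/

set_option autoImplicit false
set_option maxHeartbeats 400000

open Filter Topology
open scoped ContDiff ComplexConjugate

namespace Pool.Agent.K3h78.HS

open Pool.Agent.W549.CY (Cn dz dzbar)

/-- `t ↦ (x + κ t) / (1 - x̄ κ t)` -/
noncomputable def mob (x κ t : ℂ) : ℂ := (x + κ * t) / (1 - conj x * κ * t)

/-- denominator -/
noncomputable def den (x κ t : ℂ) : ℂ := 1 - conj x * κ * t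

theorem den_zero (x κ : ℂ) : den x κ 0 = 1 := by simp [den]

theorem den_an (x κ : ℂ) (t : ℂ) : AnalyticAt ℂ (den x κ) t := by
  unfold den
  fun_prop

theorem den_ne (x κ : ℂ) : ∀ᶠ t in 𝓝 (0 : ℂ), den x κ t ≠ 0 :=
  (den_an x κ 0).continuousAt.eventually_ne (by simp [den])

theorem mob_zero (x κ : ℂ) : mob x κ 0 = x := by simp [mob]

theorem mob_an (x κ : ℂ) : AnalyticAt ℂ (mob x κ) 0 := by
  have h : AnalyticAt ℂ (fun t => x + κ * t) 0 := by fun_prop
  exact h.div (den_an x κ 0) (by simp [den])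

theorem mob_deriv (x κ : ℂ) : HasDerivAt (mob x κ) (κ * (1 + Complex.normSq x)) 0 := by
  have h1 : HasDerivAt (fun t : ℂ => x + κ * t) κ 0 := by
    simpa using ((hasDerivAt_id (0 : ℂ)).const_mul κ).const_add x
  have h2 : HasDerivAt (fun t : ℂ => 1 - conj x * κ * t) (-(conj x * κ)) 0 := by
    simpa using ((hasDerivAt_id (0 : ℂ)).const_mul (conj x * κ)).const_sub 1
  have h3 := h1.div h2 (by simp)
  refine h3.congr_deriv ?_
  rw [Complex.normSq_eq_conj_mul_self]
  simp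
  ring

theorem one_add_mob {x κ t : ℂ} (h : den x κ t ≠ 0) :
    1 + Complex.normSq (mob x κ t) = (1 + Complex.normSq x) *
      (1 + Complex.normSq κ * Complex.normSq t) / Complex.normSq (den x κ t) := by
  have hn : Complex.normSq (den x κ t) ≠ 0 := by simpa using h
  rw [mob, show 1 - conj x * κ * t = den x κ t from rfl, Complex.normSq_div, eq_div_iff hn,
    add_mul, div_mul_cancel₀ _ hn]
  apply Complex.ofReal_injective
  push_cast
  simp only [Complex.normSq_eq_conj_mul_self, den, map_add, map_sub, map_mul, map_one,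
    Complex.conj_conj]
  ring

theorem log_one_add_mob {x κ t : ℂ} (h : den x κ t ≠ 0) :
    Real.log (1 + Complex.normSq (mob x κ t)) = Real.log (1 + Complex.normSq x) +
      Real.log (1 + Complex.normSq κ * Complex.normSq t) - 2 * Real.log ‖den x κ t‖ := by
  have hn : Complex.normSq (den x κ t) ≠ 0 := by simpa using h
  have h1 := Complex.normSq_nonneg x
  have h2 := Complex.normSq_nonneg κ
  have h3 := Complex.normSq_nonneg t
  rw [one_add_mob h, Real.log_div (by positivity) hn, Real.log_mul (by positivity) (by positivity),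
    log_norm_eq]
  ring

/-! ### The values of `F` -/

theorem exp_log_norm {x : ℂ} (h : x ≠ 0) : Real.exp (Real.log ‖x‖) = ‖x‖ :=
  Real.exp_log (norm_pos_iff.2 h)

theorem exp_neg_log_norm {x : ℂ} (h : x ≠ 0) : Real.exp (-Real.log ‖x‖) = ‖x‖⁻¹ := by
  rw [Real.exp_neg, exp_log_norm h]

section vals

variable {x1 x2 x3 : ℂ} (h : x2 ≠ 0)

include h

theorem ee_a : ee (Complex.normSq (x1 / x2)) 1 (Real.log ‖x2‖) =
    (Complex.normSq x1 + 1) / ‖x2‖ := by
  have hn : ‖x2‖ ≠ 0 := norm_ne_zero_iff.2 h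
  unfold ee
  rw [exp_log_norm h, exp_neg_log_norm h, Complex.normSq_div, Complex.normSq_eq_norm_sq x2]
  field_simp

theorem ed_a : ed (Complex.normSq (x1 / x2)) 1 (Real.log ‖x2‖) =
    (Complex.normSq x1 - 1) / ‖x2‖ := by
  have hn : ‖x2‖ ≠ 0 := norm_ne_zero_iff.2 h
  unfold ed
  rw [exp_log_norm h, exp_neg_log_norm h, Complex.normSq_div, Complex.normSq_eq_norm_sq x2]
  field_simp

theorem ee_b : ee 1 1 (Real.log ‖x2‖) = (Complex.normSq x2 + 1) / ‖x2‖ := by
  have hn : ‖x2‖ ≠ 0 := norm_ne_zero_iff.2 h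
  unfold ee
  rw [exp_log_norm h, exp_neg_log_norm h, Complex.normSq_eq_norm_sq x2]
  field_simp

theorem ed_b : ed 1 1 (Real.log ‖x2‖) = (Complex.normSq x2 - 1) / ‖x2‖ := by
  have hn : ‖x2‖ ≠ 0 := norm_ne_zero_iff.2 h
  unfold ed
  rw [exp_log_norm h, exp_neg_log_norm h, Complex.normSq_eq_norm_sq x2]
  field_simp

theorem ee_c : ee 1 (Complex.normSq (x2 * x3)) (Real.log ‖x2‖) =
    ‖x2‖ * (1 + Complex.normSq x3) := by
  have hn : ‖x2‖ ≠ 0 := norm_ne_zero_iff.2 h
  unfold ee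
  rw [exp_log_norm h, exp_neg_log_norm h, Complex.normSq_mul, Complex.normSq_eq_norm_sq x2]
  field_simp

theorem ed_c : ed 1 (Complex.normSq (x2 * x3)) (Real.log ‖x2‖) =
    ‖x2‖ * (1 - Complex.normSq x3) := by
  have hn : ‖x2‖ ≠ 0 := norm_ne_zero_iff.2 h
  unfold ed
  rw [exp_log_norm h, exp_neg_log_norm h, Complex.normSq_mul, Complex.normSq_eq_norm_sq x2]
  field_simp

theorem FF_val : FF ![x1 / x2, x2 * x3] (Real.log ‖x2‖) =
    -Real.log ‖x2‖ + Real.log (1 + Complex.normSq x1) + Real.log (1 + Complex.normSq x2) +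
      Real.log (1 + Complex.normSq x3) := by
  have hn : ‖x2‖ ≠ 0 := norm_ne_zero_iff.2 h
  have p1 := Complex.normSq_nonneg x1
  have p2 := Complex.normSq_nonneg x2
  have p3 := Complex.normSq_nonneg x3
  unfold FF
  simp only [Matrix.cons_val_zero, Matrix.cons_val_one]
  rw [ee_a h, ee_b h, ee_c h, Real.log_div (by positivity) hn, Real.log_div (by positivity) hn,
    Real.log_mul hn (by positivity), add_comm (Complex.normSq x1), add_comm (Complex.normSq x2)]
  ring

theorem F1_val : F1 ![x1 / x2, x2 * x3] (Real.log ‖x2‖) =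
    (Complex.normSq x1 - 1) / (Complex.normSq x1 + 1) +
      (Complex.normSq x2 - 1) / (Complex.normSq x2 + 1) +
      (1 - Complex.normSq x3) / (1 + Complex.normSq x3) := by
  have hn : ‖x2‖ ≠ 0 := norm_ne_zero_iff.2 h
  have p1 := Complex.normSq_nonneg x1
  have p2 := Complex.normSq_nonneg x2
  have p3 := Complex.normSq_nonneg x3
  have q1 : Complex.normSq x1 + 1 ≠ 0 := by positivity
  have q2 : Complex.normSq x2 + 1 ≠ 0 := by positivity
  have q3 : 1 + Complex.normSq x3 ≠ 0 := by positivity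
  unfold F1 h1
  simp only [Matrix.cons_val_zero, Matrix.cons_val_one]
  rw [ee_a h, ee_b h, ee_c h, ed_a h, ed_b h, ed_c h]
  field_simp

end vals

/-! ### The disc -/

/-- the data of the disc through `z₀` in direction `w` -/
structure DiscData (z₀ w : Cn 2) where
  x1 : ℂ
  x2 : ℂ
  x3 : ℂ
  k1 : ℂ
  k2 : ℂ
  k3 : ℂ
  x2_ne : x2 ≠ 0
  ss_eq : Real.log ‖x2‖ = ss z₀
  val0 : x1 / x2 = z₀ 0
  val1 : x2 * x3 = z₀ 1
  der0 : (k1 * (1 + Complex.normSq x1) * x2 - x1 * (k2 * (1 + Complex.normSq x2))) / x2 ^ 2 = w 0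
  der1 : k2 * (1 + Complex.normSq x2) * x3 + x2 * (k3 * (1 + Complex.normSq x3)) = w 1
  crit : conj x1 * k1 / (1 + Complex.normSq x1) + conj x2 * k2 / (1 + Complex.normSq x2) -
    conj x3 * k3 / (1 + Complex.normSq x3) = 0

theorem exists_discData (z₀ w : Cn 2) : Nonempty (DiscData z₀ w) := by
  set E : ℂ := ((Real.exp (ss z₀) : ℝ) : ℂ) with hE
  have hE0 : E ≠ 0 := by rw [hE]; exact_mod_cast (Real.exp_pos _).ne'
  have hEc : conj E = E := Complex.conj_ofReal _
  set u := z₀ 0 with hu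
  set v := z₀ 1 with hv
  set x1 := u * E with hx1
  set x3 := v / E with hx3
  set A1 : ℂ := 1 + Complex.normSq x1 with hA1
  set A2 : ℂ := 1 + Complex.normSq E with hA2
  set A3 : ℂ := 1 + Complex.normSq x3 with hA3
  have hA : ∀ x : ℂ, (1 + (Complex.normSq x : ℂ)) ≠ 0 := by
    intro x
    have := Complex.normSq_nonneg x
    have h : (1 + Complex.normSq x : ℝ) ≠ 0 := by positivity
    exact_mod_cast h
  have h1 : A1 ≠ 0 := hA _
  have h2 : A2 ≠ 0 := hA _
  have h3 : A3 ≠ 0 := hA _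
  -- the coefficient of `c`
  set Q : ℂ := conj u * u * E ^ 2 / A1 ^ 2 + E ^ 2 / A2 ^ 2 + conj v * v / E ^ 2 / A3 ^ 2 with hQ
  have hQ0 : Q ≠ 0 := by
    have e1 : Q = (((Complex.normSq u * Real.exp (ss z₀) ^ 2 / (1 + Complex.normSq x1) ^ 2 +
        Real.exp (ss z₀) ^ 2 / (1 + Complex.normSq E) ^ 2 +
        Complex.normSq v / Real.exp (ss z₀) ^ 2 / (1 + Complex.normSq x3) ^ 2 : ℝ)) : ℂ) := by
      rw [hQ, hA1, hA2, hA3, hE]
      push_cast
      rw [Complex.normSq_eq_conj_mul_self (z := u), Complex.normSq_eq_conj_mul_self (z := v)]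
    rw [e1]
    have p1 := Complex.normSq_nonneg u
    have p2 := Complex.normSq_nonneg v
    have p3 := Complex.normSq_nonneg x1
    have p4 := Complex.normSq_nonneg x3
    have p5 := Complex.normSq_nonneg E
    have p6 := Real.exp_pos (ss z₀)
    exact_mod_cast (by positivity : (Complex.normSq u * Real.exp (ss z₀) ^ 2 /
        (1 + Complex.normSq x1) ^ 2 + Real.exp (ss z₀) ^ 2 / (1 + Complex.normSq E) ^ 2 +
        Complex.normSq v / Real.exp (ss z₀) ^ 2 / (1 + Complex.normSq x3) ^ 2 : ℝ) > 0).ne'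
  set c : ℂ := (-(conj u * w 0 * E ^ 2 / A1 ^ 2) + conj v * w 1 / E ^ 2 / A3 ^ 2) / Q with hc
  have hcQ : c * Q = -(conj u * w 0 * E ^ 2 / A1 ^ 2) + conj v * w 1 / E ^ 2 / A3 ^ 2 := by
    rw [hc]; exact div_mul_cancel₀ _ hQ0
  refine ⟨⟨x1, E, x3, E * (w 0 + u * c) / A1, E * c / A2, (w 1 - v * c) / E / A3, hE0, ?_, ?_, ?_,
    ?_, ?_, ?_⟩⟩
  · rw [hE, Complex.norm_real, Real.norm_eq_abs, abs_of_pos (Real.exp_pos _), Real.log_exp]
  · rw [hx1]; exact mul_div_cancel_right₀ _ hE0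
  · rw [hx3]; exact mul_div_cancel₀ _ hE0
  · rw [← hA1, ← hA2, div_mul_cancel₀ _ h1, div_mul_cancel₀ _ h2, hx1]
    field_simp
    ring
  · rw [← hA2, ← hA3, div_mul_cancel₀ _ h2, div_mul_cancel₀ _ h3, hx3]
    field_simp
    ring
  · rw [← hA1, ← hA2, ← hA3, hx1, hx3, map_mul, map_div₀, hEc]
    have e : conj u * E * (E * (w 0 + u * c) / A1) / A1 + E * (E * c / A2) / A2 -
        conj v / E * ((w 1 - v * c) / E / A3) / A3 =
        c * Q - (-(conj u * w 0 * E ^ 2 / A1 ^ 2) + conj v * w 1 / E ^ 2 / A3 ^ 2) := by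
      rw [hQ]
      field_simp
      ring
    rw [e, hcQ, sub_self]

namespace DiscData

variable {z₀ w : Cn 2} (d : DiscData z₀ w)

/-- the disc -/
noncomputable def f (t : ℂ) : Cn 2 :=
  ![mob d.x1 d.k1 t / mob d.x2 d.k2 t, mob d.x2 d.k2 t * mob d.x3 d.k3 t]

/-- the second variable along the disc -/
noncomputable def σ (t : ℂ) : ℝ := Real.log ‖mob d.x2 d.k2 t‖

theorem f_zero : d.f 0 = z₀ := by
  unfold f
  rw [mob_zero, mob_zero, mob_zero, d.val0, d.val1]
  ext i
  fin_cases i <;> rfl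

theorem σ_zero : d.σ 0 = ss z₀ := by unfold σ; rw [mob_zero, d.ss_eq]

theorem f_an : AnalyticAt ℂ d.f 0 := by
  have h2 : mob d.x2 d.k2 0 ≠ 0 := by rw [mob_zero]; exact d.x2_ne
  unfold f
  rw [analyticAt_pi_iff]
  intro i
  fin_cases i
  · exact (mob_an d.x1 d.k1).div (mob_an d.x2 d.k2) h2
  · exact (mob_an d.x2 d.k2).mul (mob_an d.x3 d.k3)

theorem f_deriv : deriv d.f 0 = w := by
  have h2 : mob d.x2 d.k2 0 ≠ 0 := by rw [mob_zero]; exact d.x2_ne
  have a := (mob_deriv d.x1 d.k1).div (mob_deriv d.x2 d.k2) h2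
  have b := (mob_deriv d.x2 d.k2).mul (mob_deriv d.x3 d.k3)
  have : HasDerivAt d.f w 0 := by
    rw [hasDerivAt_pi]
    intro i
    fin_cases i
    · refine a.congr_deriv ?_
      rw [mob_zero, mob_zero]; exact d.der0
    · refine b.congr_deriv ?_
      rw [mob_zero, mob_zero]; exact d.der1
  exact this.deriv

/-- `∑ |κ|²` -/
noncomputable def p : ℝ := Complex.normSq d.k1 + Complex.normSq d.k2 + Complex.normSq d.k3

/-- `∑ |κ|⁴` -/
noncomputable def q : ℝ :=
  Complex.normSq d.k1 ^ 2 + Complex.normSq d.k2 ^ 2 + Complex.normSq d.k3 ^ 2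

theorem pq_pos (hw : w ≠ 0) : 0 < d.p ∧ 0 < d.q := by
  by_contra hcon
  have hk : ¬ (d.k1 = 0 ∧ d.k2 = 0 ∧ d.k3 = 0) := by
    rintro ⟨h1, h2, h3⟩
    apply hw
    have e0 := d.der0
    have e1 := d.der1
    rw [h1, h2] at e0
    rw [h2, h3] at e1
    ext i
    fin_cases i
    · simpa using e0.symm
    · simpa using e1.symm
  apply hcon
  have p1 := Complex.normSq_nonneg d.k1
  have p2 := Complex.normSq_nonneg d.k2
  have p3 := Complex.normSq_nonneg d.k3
  unfold p q
  by_cases h1 : d.k1 = 0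
  · by_cases h2 : d.k2 = 0
    · have h3 : d.k3 ≠ 0 := fun h => hk ⟨h1, h2, h⟩
      have := Complex.normSq_pos.2 h3
      constructor <;> positivity
    · have := Complex.normSq_pos.2 h2
      constructor <;> positivity
  · have := Complex.normSq_pos.2 h1
    constructor <;> positivity

end DiscData

end Pool.Agent.K3h78.HS
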