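import Pool.Agent.K3h78.HS.Disc

/-! # The potential along the discs -/

set_option autoImplicit false
set_option maxHeartbeats 400000

open Filter Topology
open scoped ContDiff ComplexConjugate

namespace Pool.Agent.K3h78.HS

open Pool.Agent.W549.CY (Cn dz dzbar)

namespace DiscData

variable {z₀ w : Cn 2} (d : DiscData z₀ w)

theorem f_smooth : ContDiffAt ℝ ∞ d.f 0 := (d.f_an.restrictScalars (𝕜 := ℝ)).contDiffAt

theorem mob2_ne : mob d.x2 d.k2 0 ≠ 0 := by rw [mob_zero]; exact d.x2_ne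

theorem σ_smooth : ContDiffAt ℝ ∞ d.σ 0 := analytic_lognorm_smooth (mob_an d.x2 d.k2) d.mob2_ne

/-- the upstairs potential along the disc -/
noncomputable def E (t : ℂ) : ℝ := FF (d.f t) (d.σ t)

theorem E_smooth : ContDiffAt ℝ ∞ d.E 0 :=
  ContDiffAt.comp (g := fun p : Cn 2 × ℝ => FF p.1 p.2) (f := fun t => (d.f t, d.σ t)) 0
    FF_smooth.contDiffAt (d.f_smooth.prodMk d.σ_smooth)

theorem φf_smooth : ContDiffAt ℝ ∞ (fun t => φ (d.f t)) 0 :=
  φ_smooth.contDiffAt.comp 0 d.f_smooth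

theorem ssf_smooth : ContDiffAt ℝ ∞ (fun t => ss (d.f t)) 0 :=
  ss_smooth.contDiffAt.comp 0 d.f_smooth

/-- critical value along the disc -/
noncomputable def M (t : ℂ) : ℝ := F1 (d.f t) (d.σ t)

theorem M_ev : d.M =ᶠ[𝓝 0] fun t =>
    ((Complex.normSq (mob d.x1 d.k1 t) - 1) / (Complex.normSq (mob d.x1 d.k1 t) + 1) +
      (Complex.normSq (mob d.x2 d.k2 t) - 1) / (Complex.normSq (mob d.x2 d.k2 t) + 1)) +
      (1 - Complex.normSq (mob d.x3 d.k3 t)) / (1 + Complex.normSq (mob d.x3 d.k3 t)) := by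
  have h2 : ∀ᶠ t in 𝓝 (0 : ℂ), mob d.x2 d.k2 t ≠ 0 :=
    (mob_an d.x2 d.k2).continuousAt.eventually_ne d.mob2_ne
  filter_upwards [h2] with t ht
  exact F1_val ht

theorem pd_M (e : ℂ) : pd e d.M 0 = 0 := by
  rw [pd_congr e d.M_ev]
  have hd : ∀ x k : ℂ, DifferentiableAt ℝ (fun t => Complex.normSq (mob x k t)) 0 := fun x k =>
    differentiable_normSq_comp (mob_deriv x k)
  have g1 : ∀ n : ℝ, 0 ≤ n → HasDerivAt (fun n : ℝ => (n - 1) / (n + 1)) (2 / (n + 1) ^ 2) n := by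
    intro n hn
    have a : HasDerivAt (fun n : ℝ => n - 1) 1 n := (hasDerivAt_id n).sub_const 1
    have b : HasDerivAt (fun n : ℝ => n + 1) 1 n := (hasDerivAt_id n).add_const 1
    refine (a.div b (by positivity)).congr_deriv ?_
    ring
  have g3 : ∀ n : ℝ, 0 ≤ n → HasDerivAt (fun n : ℝ => (1 - n) / (1 + n)) (-2 / (1 + n) ^ 2) n := by
    intro n hn
    have a : HasDerivAt (fun n : ℝ => 1 - n) (-1) n := (hasDerivAt_id n).const_sub 1
    have b : HasDerivAt (fun n : ℝ => 1 + n) 1 n := (hasDerivAt_id n).const_add 1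
    refine (a.div b (by positivity)).congr_deriv ?_
    ring
  have p1 := g1 _ (Complex.normSq_nonneg (mob d.x1 d.k1 0))
  have p2 := g1 _ (Complex.normSq_nonneg (mob d.x2 d.k2 0))
  have p3 := g3 _ (Complex.normSq_nonneg (mob d.x3 d.k3 0))
  have d1 := p1.differentiableAt.comp (0 : ℂ) (hd d.x1 d.k1)
  have d2 := p2.differentiableAt.comp (0 : ℂ) (hd d.x2 d.k2)
  have d3 := p3.differentiableAt.comp (0 : ℂ) (hd d.x3 d.k3)
  have d1' : DifferentiableAt ℝ (fun t => (Complex.normSq (mob d.x1 d.k1 t) - 1) /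
    (Complex.normSq (mob d.x1 d.k1 t) + 1)) 0 := d1
  have d2' : DifferentiableAt ℝ (fun t => (Complex.normSq (mob d.x2 d.k2 t) - 1) /
    (Complex.normSq (mob d.x2 d.k2 t) + 1)) 0 := d2
  have d3' : DifferentiableAt ℝ (fun t => (1 - Complex.normSq (mob d.x3 d.k3 t)) /
    (1 + Complex.normSq (mob d.x3 d.k3 t))) 0 := d3
  rw [pd_add e (d1'.fun_add d2') d3', pd_add e d1' d2',
    pd_comp_real (g := fun n : ℝ => (n - 1) / (n + 1))
      (u := fun t => Complex.normSq (mob d.x1 d.k1 t)) e p1 (hd _ _),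
    pd_comp_real (g := fun n : ℝ => (n - 1) / (n + 1))
      (u := fun t => Complex.normSq (mob d.x2 d.k2 t)) e p2 (hd _ _),
    pd_comp_real (g := fun n : ℝ => (1 - n) / (1 + n))
      (u := fun t => Complex.normSq (mob d.x3 d.k3 t)) e p3 (hd _ _),
    pd_normSq e (mob_deriv _ _), pd_normSq e (mob_deriv _ _), pd_normSq e (mob_deriv _ _)]
  simp only [mob_zero]
  have hc := congrArg (fun x : ℂ => (4 * (x * e)).re) d.crit
  simp only [zero_mul, mul_zero, Complex.zero_re] at hc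
  rw [← hc]
  have n1 := Complex.normSq_nonneg d.x1
  have n2 := Complex.normSq_nonneg d.x2
  have n3 := Complex.normSq_nonneg d.x3
  have key : ∀ (c : ℝ) (x k : ℂ) , c * (2 * (conj x * (k * (1 + (Complex.normSq x : ℂ))) * e).re) =
      (2 * c * (1 + Complex.normSq x)) * (conj x * k * e).re := by
    intro c x k
    have : conj x * (k * (1 + (Complex.normSq x : ℂ))) * e =
        ((1 + Complex.normSq x : ℝ) : ℂ) * (conj x * k * e) := by push_cast; ring
    rw [this, Complex.re_ofReal_mul]; ring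
  rw [key, key, key]
  have e0 : (4 : ℂ) * ((conj d.x1 * d.k1 / (1 + (Complex.normSq d.x1 : ℂ)) +
      conj d.x2 * d.k2 / (1 + (Complex.normSq d.x2 : ℂ)) -
      conj d.x3 * d.k3 / (1 + (Complex.normSq d.x3 : ℂ))) * e) =
      ((4 / (1 + Complex.normSq d.x1) : ℝ) : ℂ) * (conj d.x1 * d.k1 * e) +
      ((4 / (1 + Complex.normSq d.x2) : ℝ) : ℂ) * (conj d.x2 * d.k2 * e) -
      ((4 / (1 + Complex.normSq d.x3) : ℝ) : ℂ) * (conj d.x3 * d.k3 * e) := by
    push_cast
    ring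
  rw [e0, Complex.sub_re, Complex.add_re, Complex.re_ofReal_mul, Complex.re_ofReal_mul,
    Complex.re_ofReal_mul]
  have q1 : 1 + Complex.normSq d.x1 ≠ 0 := by positivity
  have q2 : 1 + Complex.normSq d.x2 ≠ 0 := by positivity
  have q3 : 1 + Complex.normSq d.x3 ≠ 0 := by positivity
  have q1' : Complex.normSq d.x1 + 1 ≠ 0 := by positivity
  have q2' : Complex.normSq d.x2 + 1 ≠ 0 := by positivity
  have r1 : 2 * (2 / (Complex.normSq d.x1 + 1) ^ 2) * (1 + Complex.normSq d.x1) =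
      4 / (1 + Complex.normSq d.x1) := by field_simp; ring
  have r2 : 2 * (2 / (Complex.normSq d.x2 + 1) ^ 2) * (1 + Complex.normSq d.x2) =
      4 / (1 + Complex.normSq d.x2) := by field_simp; ring
  have r3 : 2 * (-2 / (1 + Complex.normSq d.x3) ^ 2) * (1 + Complex.normSq d.x3) =
      -(4 / (1 + Complex.normSq d.x3)) := by field_simp; ring
  rw [r1, r2, r3]
  ring

/-- the difference of the critical points -/
noncomputable def δ (t : ℂ) : ℝ := d.σ t - ss (d.f t)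

theorem δ_smooth : ContDiffAt ℝ ∞ d.δ 0 := d.σ_smooth.sub d.ssf_smooth

theorem δ_zero : d.δ 0 = 0 := by unfold δ; rw [d.f_zero, d.σ_zero, sub_self]

theorem pd_δ (e : ℂ) : pd e d.δ 0 = 0 := by
  have hf : DifferentiableAt ℝ d.f 0 := d.f_smooth.differentiableAt (by simp)
  have hσ : DifferentiableAt ℝ d.σ 0 := d.σ_smooth.differentiableAt (by simp)
  have hs : DifferentiableAt ℝ (fun t => ss (d.f t)) 0 := d.ssf_smooth.differentiableAt (by simp)
  have hΦ : ∀ p, HasFDerivAt (fun p : Cn 2 × ℝ => F1 p.1 p.2)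
      (fderiv ℝ (fun p : Cn 2 × ℝ => F1 p.1 p.2) p) p := fun p =>
    (F1_smooth.contDiffAt.differentiableAt (by simp)).hasFDerivAt
  have c1 : HasFDerivAt (fun t => (d.f t, d.σ t)) ((fderiv ℝ d.f 0).prod (fderiv ℝ d.σ 0)) 0 :=
    hf.hasFDerivAt.prodMk hσ.hasFDerivAt
  have c2 : HasFDerivAt (fun t => (d.f t, ss (d.f t)))
      ((fderiv ℝ d.f 0).prod (fderiv ℝ (fun t => ss (d.f t)) 0)) 0 :=
    hf.hasFDerivAt.prodMk hs.hasFDerivAt
  have b1 := (hΦ (d.f 0, d.σ 0)).comp (0 : ℂ) c1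
  have b2 := (hΦ (d.f 0, ss (d.f 0))).comp (0 : ℂ) c2
  have m1 : fderiv ℝ d.M 0 = _ := b1.fderiv
  have m2 : fderiv ℝ (fun t => F1 (d.f t) (ss (d.f t))) 0 = _ := b2.fderiv
  have hM := d.pd_M e
  have hz : fderiv ℝ (fun t => F1 (d.f t) (ss (d.f t))) 0 e = 0 := by
    have : (fun t => F1 (d.f t) (ss (d.f t))) = fun _ => (0 : ℝ) := by
      funext t; exact F1_ss _
    rw [this]; simp
  unfold pd at hM
  rw [m1] at hM
  rw [m2] at hz
  rw [d.f_zero, d.σ_zero] at hM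
  rw [d.f_zero] at hz
  simp only [ContinuousLinearMap.comp_apply, ContinuousLinearMap.prod_apply] at hM hz
  have hsub : fderiv ℝ (fun p : Cn 2 × ℝ => F1 p.1 p.2) (z₀, ss z₀)
      (0, fderiv ℝ d.σ 0 e - fderiv ℝ (fun t => ss (d.f t)) 0 e) = 0 := by
    have : ((0 : Cn 2), fderiv ℝ d.σ 0 e - fderiv ℝ (fun t => ss (d.f t)) 0 e) =
        (fderiv ℝ d.f 0 e, fderiv ℝ d.σ 0 e) -
          (fderiv ℝ d.f 0 e, fderiv ℝ (fun t => ss (d.f t)) 0 e) := by
      rw [Prod.mk_sub_mk, sub_self]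
    rw [this, map_sub, hM, hz, sub_self]
  have hlin : fderiv ℝ (fun p : Cn 2 × ℝ => F1 p.1 p.2) (z₀, ss z₀)
      (0, fderiv ℝ d.σ 0 e - fderiv ℝ (fun t => ss (d.f t)) 0 e) =
      (fderiv ℝ d.σ 0 e - fderiv ℝ (fun t => ss (d.f t)) 0 e) * F2 z₀ (ss z₀) := by
    have : ((0 : Cn 2), fderiv ℝ d.σ 0 e - fderiv ℝ (fun t => ss (d.f t)) 0 e) =
        (fderiv ℝ d.σ 0 e - fderiv ℝ (fun t => ss (d.f t)) 0 e) • ((0 : Cn 2), (1 : ℝ)) := by
      rw [Prod.smul_mk, smul_zero, smul_eq_mul, mul_one]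
    rw [this, map_smul, F1_partial, smul_eq_mul]
  rw [hlin] at hsub
  have h0 := (mul_eq_zero.1 hsub).resolve_right (F2_pos z₀ (ss z₀)).ne'
  unfold δ
  rw [pd_sub e hσ hs]
  exact h0

/-- the difference of the potentials -/
noncomputable def Df (t : ℂ) : ℝ := d.E t - φ (d.f t)

theorem Df_smooth : ContDiffAt ℝ ∞ d.Df 0 := d.E_smooth.sub d.φf_smooth

theorem Df_nonneg (t : ℂ) : 0 ≤ d.Df t := sub_nonneg.2 (φ_le _ _)

theorem Df_zero : d.Df 0 = 0 := by
  unfold Df E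
  rw [d.σ_zero, d.f_zero]
  exact sub_self _

theorem Df_le (t : ℂ) : d.Df t ≤ 3 / 2 * d.δ t ^ 2 := by
  have := le_φ (d.f t) (d.σ t)
  unfold Df E δ
  linarith

theorem lap_Df : lap d.Df 0 = 0 := by
  have D2 : ContDiffAt ℝ 2 d.Df 0 := d.Df_smooth.of_le (by norm_cast)
  have δ2 : ContDiffAt ℝ 2 d.δ 0 := d.δ_smooth.of_le (by norm_cast)
  have S2 : ContDiffAt ℝ 2 (fun t => 3 / 2 * (d.δ t * d.δ t)) 0 :=
    contDiffAt_const.mul (δ2.mul δ2)
  have hpos : ∀ᶠ t in 𝓝 (0 : ℂ), 0 ≤ d.Df t := Eventually.of_forall d.Df_nonneg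
  have key : ∀ e : ℂ, pd e (pd e d.Df) 0 ≤ 0 := by
    intro e
    have h1 := second_dir_nonneg (D := fun t => 3 / 2 * (d.δ t * d.δ t) - d.Df t) (S2.sub D2)
      (Eventually.of_forall fun t => by
        have := d.Df_le t
        show 0 ≤ 3 / 2 * (d.δ t * d.δ t) - d.Df t
        nlinarith) (by simp [d.δ_zero, d.Df_zero]) e
    have ev1 : ∀ᶠ t in 𝓝 (0 : ℂ), ContDiffAt ℝ 2 d.Df t := D2.eventually (by simp)
    have ev2 : ∀ᶠ t in 𝓝 (0 : ℂ), ContDiffAt ℝ 2 d.δ t := δ2.eventually (by simp)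
    have e1 : pd e (fun t => 3 / 2 * (d.δ t * d.δ t) - d.Df t) =ᶠ[𝓝 0]
        fun t => d.δ t * (3 * pd e d.δ t) - pd e d.Df t := by
      filter_upwards [ev1, ev2] with t ht1 ht2
      have a1 := ht1.differentiableAt (by norm_num)
      have a2 := ht2.differentiableAt (by norm_num)
      rw [pd_sub e ((a2.fun_mul a2).const_mul _) a1]
      congr 1
      have : pd e (fun y => (3 / 2 : ℝ) * (d.δ y * d.δ y)) t =
        (3 / 2) * pd e (fun y => d.δ y * d.δ y) t := pd_smul e (3 / 2) (a2.fun_mul a2)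
      rw [this, pd_rmul e a2 a2]
      ring
    have b1 : DifferentiableAt ℝ d.δ 0 := δ2.differentiableAt (by norm_num)
    have b2 : DifferentiableAt ℝ (pd e d.δ) 0 :=
      (pd_contDiffAt (n := 1) e δ2).differentiableAt (by norm_num)
    have b3 : DifferentiableAt ℝ (pd e d.Df) 0 :=
      (pd_contDiffAt (n := 1) e D2).differentiableAt (by norm_num)
    rw [pd_congr e e1, pd_sub e (b1.fun_mul (b2.const_mul _)) b3, pd_rmul e b1 (b2.const_mul _),
      d.pd_δ, d.δ_zero] at h1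
    linarith
  have a1 := second_dir_nonneg D2 hpos d.Df_zero 1
  have a2 := second_dir_nonneg D2 hpos d.Df_zero Complex.I
  have k1 := key 1
  have k2 := key Complex.I
  unfold lap
  linarith

/-! ### The upstairs potential -/

theorem E_ev : d.E =ᶠ[𝓝 0] fun t =>
    (((((Real.log (1 + Complex.normSq d.x1) + Real.log (1 + Complex.normSq d.x2) +
      Real.log (1 + Complex.normSq d.x3)) + (-1) * Real.log ‖mob d.x2 d.k2 t‖) +
      (-2) * Real.log ‖den d.x1 d.k1 t‖) + (-2) * Real.log ‖den d.x2 d.k2 t‖) +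
      (-2) * Real.log ‖den d.x3 d.k3 t‖) +
    1 * ((Real.log (1 + Complex.normSq d.k1 * Complex.normSq t) +
      1 * Real.log (1 + Complex.normSq d.k2 * Complex.normSq t)) +
      1 * Real.log (1 + Complex.normSq d.k3 * Complex.normSq t)) := by
  have h2 : ∀ᶠ t in 𝓝 (0 : ℂ), mob d.x2 d.k2 t ≠ 0 :=
    (mob_an d.x2 d.k2).continuousAt.eventually_ne d.mob2_ne
  filter_upwards [h2, den_ne d.x1 d.k1, den_ne d.x2 d.k2, den_ne d.x3 d.k3] with t ht h1 h2 h3
  have e0 : d.E t = _ := FF_val (x1 := mob d.x1 d.k1 t) (x2 := mob d.x2 d.k2 t)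
    (x3 := mob d.x3 d.k3 t) ht
  rw [e0, log_one_add_mob h1, log_one_add_mob h2, log_one_add_mob h3]
  ring

theorem lap_E_ev : lap d.E =ᶠ[𝓝 0] fun t =>
    (4 * Complex.normSq d.k1 * ((1 + Complex.normSq d.k1 * Complex.normSq t)⁻¹) ^ 2 +
      1 * (4 * Complex.normSq d.k2 * ((1 + Complex.normSq d.k2 * Complex.normSq t)⁻¹) ^ 2)) +
      1 * (4 * Complex.normSq d.k3 * ((1 + Complex.normSq d.k3 * Complex.normSq t)⁻¹) ^ 2) := by
  have n2 : ∀ᶠ t in 𝓝 (0 : ℂ), mob d.x2 d.k2 t ≠ 0 :=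
    (mob_an d.x2 d.k2).continuousAt.eventually_ne d.mob2_ne
  filter_upwards [n2, den_ne d.x1 d.k1, den_ne d.x2 d.k2, den_ne d.x3 d.k3,
    (mob_an d.x2 d.k2).eventually_analyticAt, d.E_ev.eventually_nhds] with t ht h1 h2 h3 ha hE
  have s0 : ContDiffAt ℝ 2 (fun s => Real.log ‖mob d.x2 d.k2 s‖) t :=
    (analytic_lognorm_smooth ha ht).of_le (by norm_cast)
  have s1 : ContDiffAt ℝ 2 (fun s => Real.log ‖den d.x1 d.k1 s‖) t :=
    (analytic_lognorm_smooth (den_an _ _ t) h1).of_le (by norm_cast)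
  have s2 : ContDiffAt ℝ 2 (fun s => Real.log ‖den d.x2 d.k2 s‖) t :=
    (analytic_lognorm_smooth (den_an _ _ t) h2).of_le (by norm_cast)
  have s3 : ContDiffAt ℝ 2 (fun s => Real.log ‖den d.x3 d.k3 s‖) t :=
    (analytic_lognorm_smooth (den_an _ _ t) h3).of_le (by norm_cast)
  have L : ∀ k : ℂ, ContDiffAt ℝ 2 (fun s => Real.log (1 + Complex.normSq k * Complex.normSq s)) t :=
    fun k => (log1p_smooth (Complex.normSq_nonneg k)).contDiffAt.of_le (by norm_cast)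
  have c0 : ContDiffAt ℝ 2 (fun _ : ℂ => Real.log (1 + Complex.normSq d.x1) +
      Real.log (1 + Complex.normSq d.x2) + Real.log (1 + Complex.normSq d.x3)) t := contDiffAt_const
  have t0 := c0.add (contDiffAt_const (c := (-1 : ℝ)) |>.mul s0)
  have t1 := t0.add (contDiffAt_const (c := (-2 : ℝ)) |>.mul s1)
  have t2 := t1.add (contDiffAt_const (c := (-2 : ℝ)) |>.mul s2)
  have t3 := t2.add (contDiffAt_const (c := (-2 : ℝ)) |>.mul s3)
  have l1 := (L d.k1).add (contDiffAt_const (c := (1 : ℝ)) |>.mul (L d.k2))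
  have l2 := l1.add (contDiffAt_const (c := (1 : ℝ)) |>.mul (L d.k3))
  rw [lap_congr hE, lap_lin t3 l2, lap_lin t2 s3, lap_lin t1 s2, lap_lin t0 s1, lap_lin c0 s0,
    lap_lin l1 (L d.k3), lap_lin (L d.k1) (L d.k2), lap_lognorm ha ht,
    lap_lognorm (den_an _ _ t) h1, lap_lognorm (den_an _ _ t) h2, lap_lognorm (den_an _ _ t) h3,
    lap_log1p (Complex.normSq_nonneg _), lap_log1p (Complex.normSq_nonneg _),
    lap_log1p (Complex.normSq_nonneg _)]
  have hz : lap (fun _ : ℂ => Real.log (1 + Complex.normSq d.x1) +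
      Real.log (1 + Complex.normSq d.x2) + Real.log (1 + Complex.normSq d.x3)) t = 0 := by
    unfold lap
    have : ∀ e : ℂ, pd e (fun _ : ℂ => Real.log (1 + Complex.normSq d.x1) +
      Real.log (1 + Complex.normSq d.x2) + Real.log (1 + Complex.normSq d.x3)) = fun _ => 0 := by
      intro e; funext s; unfold pd; simp
    rw [this, this]
    unfold pd
    simp
  rw [hz]
  ring

theorem lap_E : lap d.E 0 = 4 * d.p := by
  rw [d.lap_E_ev.self_of_nhds]
  unfold p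
  simp
  ring

theorem laplap_E : lap (lap d.E) 0 = -32 * d.q := by
  rw [lap_congr d.lap_E_ev]
  have S : ∀ k : ℂ, ContDiffAt ℝ 2 (fun s =>
      4 * Complex.normSq k * ((1 + Complex.normSq k * Complex.normSq s)⁻¹) ^ 2) 0 :=
    fun k => (inv1p_smooth (Complex.normSq_nonneg k)).contDiffAt.of_le (by norm_cast)
  have l1 := (S d.k1).add (contDiffAt_const (c := (1 : ℝ)) |>.mul (S d.k2))
  rw [lap_lin l1 (S d.k3), lap_lin (S d.k1) (S d.k2), lap_inv1p (Complex.normSq_nonneg _),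
    lap_inv1p (Complex.normSq_nonneg _), lap_inv1p (Complex.normSq_nonneg _)]
  unfold q
  ring

theorem lap_φ : lap (fun t => φ (d.f t)) 0 = 4 * d.p := by
  have h := lap_lin (u := d.E) (v := fun t => φ (d.f t)) (d.E_smooth.of_le (by norm_cast))
    (d.φf_smooth.of_le (by norm_cast)) (-1)
  have e : (fun s => d.E s + -1 * φ (d.f s)) = d.Df := by funext s; unfold Df; ring
  rw [e, d.lap_Df, d.lap_E] at h
  linarith

theorem laplap_φ : lap (lap fun t => φ (d.f t)) 0 ≤ -32 * d.q := by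
  have h := bilap_nonneg (D := d.Df) (d.Df_smooth.of_le (by norm_cast))
    (Eventually.of_forall d.Df_nonneg) d.Df_zero d.lap_Df
  have evE : ∀ᶠ t in 𝓝 (0 : ℂ), ContDiffAt ℝ 2 d.E t :=
    (d.E_smooth.of_le (m := 2) (by norm_cast)).eventually (by simp)
  have evφ : ∀ᶠ t in 𝓝 (0 : ℂ), ContDiffAt ℝ 2 (fun t => φ (d.f t)) t :=
    (d.φf_smooth.of_le (m := 2) (by norm_cast)).eventually (by simp)
  have e : lap d.Df =ᶠ[𝓝 0] fun t => lap d.E t + (-1) * lap (fun t => φ (d.f t)) t := by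
    filter_upwards [evE, evφ] with t h1 h2
    have h := lap_lin (u := d.E) (v := fun t => φ (d.f t)) h1 h2 (-1)
    have e : (fun s => d.E s + -1 * φ (d.f s)) = d.Df := by funext s; unfold Df; ring
    rw [e] at h
    exact h
  have c1 : ContDiffAt ℝ 2 (lap d.E) 0 := lap_contDiffAt (n := 2) (d.E_smooth.of_le (by norm_cast))
  have c2 : ContDiffAt ℝ 2 (lap fun t => φ (d.f t)) 0 :=
    lap_contDiffAt (n := 2) (d.φf_smooth.of_le (by norm_cast))
  rw [lap_congr e, lap_lin c1 c2, d.laplap_E] at h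
  linarith

end DiscData

end Pool.Agent.K3h78.HS
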