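import Pool.Agent.K3h78.HS.Curv

/-! # The metric of a potential and its curvature -/

set_option autoImplicit false
set_option maxHeartbeats 400000

open Filter Topology Matrix
open scoped ContDiff ComplexConjugate ComplexOrder

namespace Pool.Agent.K3h78.HS

open Pool.Agent.W549.CY (Cn dz dzbar)

section comm

variable {n : ℕ} {u : Cn n → ℂ} {z : Cn n}

theorem dz_eq_pd (j : Fin n) (u : Cn n → ℂ) : dz j u = fun z => (1 / 2) *
    (pd (Pi.single j 1) u z - Complex.I * pd (Pi.single j Complex.I) u z) := rfl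

theorem dzbar_eq_pd (j : Fin n) (u : Cn n → ℂ) : dzbar j u = fun z => (1 / 2) *
    (pd (Pi.single j 1) u z + Complex.I * pd (Pi.single j Complex.I) u z) := rfl

theorem pd_cmul {w : Cn n → ℂ} (v : Cn n) (c : ℂ) (hw : DifferentiableAt ℝ w z) :
    pd v (fun y => c * w y) z = c * pd v w z := by
  unfold pd
  have : (fun y => c * w y) = fun y => c • w y := by funext y; rw [smul_eq_mul]
  rw [this, fderiv_fun_const_smul hw]
  rfl

theorem contDiff_pd (h : ContDiff ℝ ∞ u) (v : Cn n) : ContDiff ℝ ∞ (pd v u) := by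
  have h1 : ContDiff ℝ ∞ (fderiv ℝ u) := h.fderiv_right (by simp)
  exact h1.clm_apply contDiff_const

theorem pd_dz (h : ContDiff ℝ ∞ u) (v : Cn n) (j : Fin n) :
    pd v (dz j u) z = (1 / 2) *
      (pd v (pd (Pi.single j 1) u) z - Complex.I * pd v (pd (Pi.single j Complex.I) u) z) := by
  have d : ∀ e, DifferentiableAt ℝ (pd e u) z := fun e =>
    (contDiff_pd h e).contDiffAt.differentiableAt (by simp)
  rw [dz_eq_pd, pd_cmul v _ ((d _).fun_sub ((d _).const_mul _)), pd_sub v (d _) ((d _).const_mul _),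
    pd_cmul v _ (d _)]

theorem pd_dzbar (h : ContDiff ℝ ∞ u) (v : Cn n) (j : Fin n) :
    pd v (dzbar j u) z = (1 / 2) *
      (pd v (pd (Pi.single j 1) u) z + Complex.I * pd v (pd (Pi.single j Complex.I) u) z) := by
  have d : ∀ e, DifferentiableAt ℝ (pd e u) z := fun e =>
    (contDiff_pd h e).contDiffAt.differentiableAt (by simp)
  rw [dzbar_eq_pd, pd_cmul v _ ((d _).fun_add ((d _).const_mul _)), pd_add v (d _) ((d _).const_mul _),
    pd_cmul v _ (d _)]

theorem dz_dz_comm (h : ContDiff ℝ ∞ u) (i j : Fin n) : dz i (dz j u) z = dz j (dz i u) z := by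
  have c : ∀ a b, pd a (pd b u) z = pd b (pd a u) z := fun a b =>
    pd_comm a b (h.contDiffAt.of_le (by norm_cast))
  rw [dz_eq_pd i (dz j u), dz_eq_pd j (dz i u)]
  simp only []
  rw [pd_dz h, pd_dz h, pd_dz h, pd_dz h, c (Pi.single j 1) (Pi.single i 1),
    c (Pi.single j 1) (Pi.single i Complex.I), c (Pi.single j Complex.I) (Pi.single i 1),
    c (Pi.single j Complex.I) (Pi.single i Complex.I)]
  ring

theorem dz_dzbar_comm (h : ContDiff ℝ ∞ u) (i j : Fin n) :
    dz i (dzbar j u) z = dzbar j (dz i u) z := by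
  have c : ∀ a b, pd a (pd b u) z = pd b (pd a u) z := fun a b =>
    pd_comm a b (h.contDiffAt.of_le (by norm_cast))
  rw [dz_eq_pd i (dzbar j u), dzbar_eq_pd j (dz i u)]
  simp only []
  rw [pd_dzbar h, pd_dzbar h, pd_dz h, pd_dz h, c (Pi.single j 1) (Pi.single i 1),
    c (Pi.single j 1) (Pi.single i Complex.I), c (Pi.single j Complex.I) (Pi.single i 1),
    c (Pi.single j Complex.I) (Pi.single i Complex.I)]
  ring

theorem pd_conj' (v : Cn n) (h : DifferentiableAt ℝ u z) :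
    pd v (fun y => conj (u y)) z = conj (pd v u z) := by
  unfold pd
  have h1 := (Complex.conjCLE.toContinuousLinearMap.hasFDerivAt (x := u z)).comp z h.hasFDerivAt
  have h2 : fderiv ℝ (fun y => conj (u y)) z = _ := h1.fderiv
  rw [h2]
  simp

theorem dzbar_conj (h : DifferentiableAt ℝ u z) (j : Fin n) :
    dzbar j (fun y => conj (u y)) z = conj (dz j u z) := by
  rw [dzbar_eq_pd, dz_eq_pd]
  simp only [map_mul, map_sub, map_div₀, map_one, map_ofNat, Complex.conj_I]
  rw [pd_conj' _ h, pd_conj' _ h]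
  ring

theorem dz_conj (h : DifferentiableAt ℝ u z) (j : Fin n) :
    dz j (fun y => conj (u y)) z = conj (dzbar j u z) := by
  rw [dzbar_eq_pd, dz_eq_pd]
  simp only [map_mul, map_add, map_div₀, map_one, map_ofNat, Complex.conj_I]
  rw [pd_conj' _ h, pd_conj' _ h]
  ring

end comm

/-- the complex Hessian of a real function -/
noncomputable def Hs {n : ℕ} (φ : Cn n → ℝ) (z : Cn n) : Matrix (Fin n) (Fin n) ℂ :=
  Matrix.of fun j k => dz j (dzbar k fun w => ((φ w : ℝ) : ℂ)) z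

section

variable {n : ℕ} {φ : Cn n → ℝ}

theorem smooth_ofReal (hφ : ContDiff ℝ ∞ φ) : ContDiff ℝ ∞ (fun w => ((φ w : ℝ) : ℂ)) :=
  Complex.ofRealCLM.contDiff.comp hφ

theorem Hs_apply (φ : Cn n → ℝ) (z : Cn n) (j k : Fin n) :
    Hs φ z j k = dz j (dzbar k fun w => ((φ w : ℝ) : ℂ)) z := rfl

theorem Hs_smooth (hφ : ContDiff ℝ ∞ φ) (j k : Fin n) : ContDiff ℝ ∞ fun w => Hs φ w j k :=
  contDiff_dz (contDiff_dzbar (smooth_ofReal hφ) k) j

theorem Hs_herm (hφ : ContDiff ℝ ∞ φ) (z : Cn n) (j k : Fin n) :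
    Hs φ z k j = conj (Hs φ z j k) := by
  have hU := smooth_ofReal hφ
  have e1 : (fun w => conj (((φ w : ℝ) : ℂ))) = fun w => ((φ w : ℝ) : ℂ) := by
    funext w; exact Complex.conj_ofReal _
  have e2 : dz k (fun w => ((φ w : ℝ) : ℂ)) =
      fun y => conj (dzbar k (fun w => ((φ w : ℝ) : ℂ)) y) := by
    funext y
    rw [← dz_conj (hU.contDiffAt.differentiableAt (by simp)) k, e1]
  show dz k (dzbar j fun w => ((φ w : ℝ) : ℂ)) z = conj (dz j (dzbar k fun w => ((φ w : ℝ) : ℂ)) z)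
  rw [dz_dzbar_comm hU, e2, dzbar_conj]
  exact (contDiff_dzbar hU k).contDiffAt.differentiableAt (by simp)

theorem Hs_isHermitian (hφ : ContDiff ℝ ∞ φ) (z : Cn n) : (Hs φ z).IsHermitian := by
  ext j k
  rw [Matrix.conjTranspose_apply, Hs_herm hφ z j k]
  exact Complex.conj_conj _

theorem Hs_closed (hφ : ContDiff ℝ ∞ φ) (z : Cn n) (i j k : Fin n) :
    dz i (fun w => Hs φ w j k) z = dz j (fun w => Hs φ w i k) z :=
  dz_dz_comm (contDiff_dzbar (smooth_ofReal hφ) k) i j

theorem dzbar_Hs (hφ : ContDiff ℝ ∞ φ) (z : Cn n) (l p j : Fin n) :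
    dzbar l (fun w => Hs φ w p j) z = conj (dz l (fun w => Hs φ w j p) z) := by
  rw [← dzbar_conj ((Hs_smooth hφ j p).contDiffAt.differentiableAt (by simp)) l]
  congr 1
  funext w
  exact Hs_herm hφ w j p

theorem quad_identity {g : Matrix (Fin n) (Fin n) ℂ} (hg : g.PosDef) (X a : Fin n → ℂ) :
    0 ≤ X ⬝ᵥ (g⁻¹ *ᵥ star X) + X ⬝ᵥ star a + a ⬝ᵥ star X + a ⬝ᵥ (g *ᵥ star a) := by
  have hdet : IsUnit g.det := (Matrix.isUnit_iff_isUnit_det g).1 hg.isUnit
  set v : Fin n → ℂ := X + a ᵥ* g with hv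
  have h1 := hg.inv.posSemidef.dotProduct_mulVec_nonneg (star v)
  rw [star_star] at h1
  have h2 : star v = star X + g *ᵥ star a := by
    rw [hv, star_add, Matrix.star_vecMul, hg.1.eq]
  have h3 : g⁻¹ *ᵥ star v = g⁻¹ *ᵥ star X + star a := by
    rw [h2, Matrix.mulVec_add, Matrix.mulVec_mulVec, Matrix.nonsing_inv_mul g hdet,
      Matrix.one_mulVec]
  rw [h3, hv, dotProduct_add, add_dotProduct, add_dotProduct, ← Matrix.dotProduct_mulVec,
    ← Matrix.dotProduct_mulVec, Matrix.mulVec_mulVec, Matrix.mul_nonsing_inv g hdet,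
    Matrix.one_mulVec] at h1
  calc (0 : ℂ) ≤ _ := h1
    _ = _ := by ring

end

/-- The Gauss-type inequality: the curvature form bounds minus the bi-Laplacian of the potential
along a holomorphic disc. -/
theorem curvature_ineq {φ : Cn 2 → ℝ} (hφ : ContDiff ℝ ∞ φ) {f : ℂ → Cn 2}
    (hf : AnalyticAt ℂ f 0) (hpd : (Hs φ (f 0)).PosDef) :
    0 ≤ (∑ i, ∑ j, ∑ k, ∑ l, chernCurvature (Hs φ) (f 0) i j k l *
      (deriv f 0 i * conj (deriv f 0 j) * deriv f 0 k * conj (deriv f 0 l))) +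
      dt (dtb (dt (dtb fun s => ((φ (f s) : ℝ) : ℂ)))) 0 := by
  have hU := smooth_ofReal hφ
  have e1 : dt (dtb fun s => ((φ (f s) : ℝ) : ℂ)) =ᶠ[𝓝 0] fun s =>
      ∑ k, ∑ j, deriv f s j * conj (deriv f s k) * Hs φ (f s) j k := by
    filter_upwards [hf.eventually_analyticAt] with s hs
    have h1 := levi (U := fun w => ((φ w : ℝ) : ℂ)) hU hs
    simp only [Hs_apply]
    exact h1
  have dterm : ∀ᶠ s in 𝓝 (0 : ℂ), ∀ j k, DifferentiableAt ℝ
      (fun s => deriv f s j * conj (deriv f s k) * Hs φ (f s) j k) s := by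
    filter_upwards [hf.eventually_analyticAt] with s hs
    intro j k
    exact ((((an_deriv hs j).hasFDerivAt.restrictScalars ℝ).differentiableAt).fun_mul
      (differentiableAt_conj_deriv hs k)).fun_mul
        ((comp_smooth (Hs_smooth hφ j k) hs).differentiableAt (by simp))
  have e2 : dtb (dt (dtb fun s => ((φ (f s) : ℝ) : ℂ))) =ᶠ[𝓝 0] fun s =>
      ∑ k, ∑ j, dtb (fun s => deriv f s j * conj (deriv f s k) * Hs φ (f s) j k) s := by
    filter_upwards [e1.eventually_nhds, dterm] with s hs hd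
    rw [dtb_congr hs, dtb_sum _ (fun k _ => DifferentiableAt.fun_sum fun j _ => hd j k)]
    apply Finset.sum_congr rfl
    intro k _
    rw [dtb_sum _ (fun j _ => hd j k)]
  have hR : ∀ j k, ContDiffAt ℝ ∞ (fun s => deriv f s j * conj (deriv f s k) * Hs φ (f s) j k) 0 := by
    intro j k
    have h1 : AnalyticAt ℂ (deriv f) 0 := hf.deriv
    have h2 : ContDiffAt ℝ ∞ (deriv f) 0 := (h1.restrictScalars (𝕜 := ℝ)).contDiffAt
    have h3 := contDiffAt_pi.1 h2
    exact ((h3 j).mul (Complex.conjCLE.contDiff.contDiffAt.comp 0 (h3 k))).mul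
      (comp_smooth (Hs_smooth hφ j k) hf)
  have hRb : ∀ j k, DifferentiableAt ℝ
      (dtb (fun s => deriv f s j * conj (deriv f s k) * Hs φ (f s) j k)) 0 := by
    intro j k
    have h2 := (hR j k).of_le (m := 2) (by norm_cast)
    have a1 := (pd_contDiffAt (n := 1) 1 h2).differentiableAt (by norm_num)
    have a2 := (pd_contDiffAt (n := 1) Complex.I h2).differentiableAt (by norm_num)
    unfold dtb
    exact (a1.add (a2.const_mul _)).const_mul _
  have e3 : dt (dtb (dt (dtb fun s => ((φ (f s) : ℝ) : ℂ)))) 0 =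
      ∑ k, ∑ j, dt (dtb (fun s => deriv f s j * conj (deriv f s k) * Hs φ (f s) j k)) 0 := by
    rw [dt_congr e2, dt_sum _ (fun k _ => DifferentiableAt.fun_sum fun j _ => hRb j k)]
    apply Finset.sum_congr rfl
    intro k _
    rw [dt_sum _ (fun j _ => hRb j k)]
  set w := deriv f 0 with hw
  set a := deriv (deriv f) 0 with ha
  set g := Hs φ (f 0) with hg
  set X : Fin 2 → ℂ := fun q => ∑ i, ∑ k, dz k (fun y => Hs φ y i q) (f 0) * (w i * w k) with hX
  have h0 := quad_identity hpd X a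
  refine h0.trans (le_of_eq ?_)
  rw [e3]
  simp only [levi_term (Hs_smooth hφ _ _) hf]
  simp only [chernCurvature, dzbar_Hs hφ (f 0), ← hw, ← ha, ← hg]
  simp only [hX, dotProduct, mulVec, Fin.sum_univ_two, Pi.star_apply, RCLike.star_def, map_add,
    map_mul]
  ring

end Pool.Agent.K3h78.HS
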