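import Pool.Agent.K3h78.HS.Curv

/-! # Laplacians of some explicit functions -/

set_option autoImplicit false
set_option maxHeartbeats 400000

open Filter Topology
open scoped ContDiff ComplexConjugate

namespace Pool.Agent.K3h78.HS

theorem pd_rmul {u v : ℂ → ℝ} {t : ℂ} (e : ℂ) (hu : DifferentiableAt ℝ u t)
    (hv : DifferentiableAt ℝ v t) :
    pd e (fun s => u s * v s) t = pd e u t * v t + u t * pd e v t := by
  unfold pd
  rw [fderiv_fun_mul hu hv]
  simp [smul_eq_mul]
  ring

theorem pd_comp_real {g : ℝ → ℝ} {g' : ℝ} {u : ℂ → ℝ} {t : ℂ} (e : ℂ) (hg : HasDerivAt g g' (u t))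
    (hu : DifferentiableAt ℝ u t) : pd e (fun s => g (u s)) t = g' * pd e u t := by
  unfold pd
  have h := hg.comp_hasFDerivAt t hu.hasFDerivAt
  have h' : fderiv ℝ (fun s => g (u s)) t = _ := h.fderiv
  rw [h']
  simp

theorem pd_relin (e a t : ℂ) : pd e (fun s => (conj s * a).re) t = (conj e * a).re := by
  have : (fun s : ℂ => (conj s * a).re) = fun s => s.re * a.re + s.im * a.im := by
    funext s
    simp [Complex.mul_re]
  rw [this]
  have d1 : DifferentiableAt ℝ (fun s : ℂ => s.re) t := Complex.reCLM.differentiableAt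
  have d2 : DifferentiableAt ℝ (fun s : ℂ => s.im) t := Complex.imCLM.differentiableAt
  have e1 : pd e (fun s : ℂ => s.re) t = e.re := by
    unfold pd; rw [show (fun s : ℂ => s.re) = Complex.reCLM from rfl, Complex.reCLM.fderiv]; rfl
  have e2 : pd e (fun s : ℂ => s.im) t = e.im := by
    unfold pd; rw [show (fun s : ℂ => s.im) = Complex.imCLM from rfl, Complex.imCLM.fderiv]; rfl
  have e3 : ∀ c : ℝ, pd e (fun _ : ℂ => c) t = 0 := by intro c; unfold pd; simp
  rw [pd_add e (d1.mul_const _) (d2.mul_const _), pd_rmul e d1 (differentiableAt_const _),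
    pd_rmul e d2 (differentiableAt_const _), e1, e2, e3, e3]
  simp [Complex.mul_re]

theorem differentiable_relin (a t : ℂ) : DifferentiableAt ℝ (fun s => (conj s * a).re) t := by
  have : (fun s : ℂ => (conj s * a).re) = fun s => s.re * a.re + s.im * a.im := by
    funext s
    simp [Complex.mul_re]
  rw [this]
  have d1 : DifferentiableAt ℝ (fun s : ℂ => s.re) t := Complex.reCLM.differentiableAt
  have d2 : DifferentiableAt ℝ (fun s : ℂ => s.im) t := Complex.imCLM.differentiableAt
  exact (d1.mul_const _).add (d2.mul_const _)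

theorem normSq_smooth1 : ContDiff ℝ ∞ fun s : ℂ => Complex.normSq s := by
  have h1 : ContDiff ℝ ∞ fun s : ℂ => s.re := Complex.reCLM.contDiff
  have h2 : ContDiff ℝ ∞ fun s : ℂ => s.im := Complex.imCLM.contDiff
  simp only [Complex.normSq_apply]
  exact (h1.mul h1).add (h2.mul h2)

theorem pd_normSq0 (e t : ℂ) : pd e (fun s => Complex.normSq s) t = 2 * (conj t * e).re := by
  have d1 : DifferentiableAt ℝ (fun s : ℂ => s.re) t := Complex.reCLM.differentiableAt
  have d2 : DifferentiableAt ℝ (fun s : ℂ => s.im) t := Complex.imCLM.differentiableAt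
  have e1 : pd e (fun s : ℂ => s.re) t = e.re := by
    unfold pd; rw [show (fun s : ℂ => s.re) = Complex.reCLM from rfl, Complex.reCLM.fderiv]; rfl
  have e2 : pd e (fun s : ℂ => s.im) t = e.im := by
    unfold pd; rw [show (fun s : ℂ => s.im) = Complex.imCLM from rfl, Complex.imCLM.fderiv]; rfl
  simp only [Complex.normSq_apply]
  rw [pd_add e (d1.fun_mul d1) (d2.fun_mul d2), pd_rmul e d1 d1, pd_rmul e d2 d2, e1, e2]
  simp [Complex.mul_re]
  ring

theorem fderiv_normSq (z v : ℂ) : fderiv ℝ (fun s => Complex.normSq s) z v = 2 * (conj z * v).re :=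
  pd_normSq0 v z

theorem pd_normSq {h : ℂ → ℂ} {h' t : ℂ} (e : ℂ) (hh : HasDerivAt h h' t) :
    pd e (fun s => Complex.normSq (h s)) t = 2 * (conj (h t) * h' * e).re := by
  have h1 : HasFDerivAt (fun s : ℂ => Complex.normSq s)
      (fderiv ℝ (fun s : ℂ => Complex.normSq s) (h t)) (h t) :=
    (normSq_smooth1.contDiffAt.differentiableAt (by simp)).hasFDerivAt
  have h2 := h1.comp t (hh.hasFDerivAt.restrictScalars ℝ)
  have h3 : fderiv ℝ (fun s => Complex.normSq (h s)) t = _ := h2.fderiv
  unfold pd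
  rw [h3]
  simp only [ContinuousLinearMap.comp_apply, ContinuousLinearMap.coe_restrictScalars']
  rw [fderiv_normSq]
  simp only [ContinuousLinearMap.toSpanSingleton_apply, smul_eq_mul]
  rw [mul_assoc, mul_comm e h']

theorem differentiable_normSq_comp {h : ℂ → ℂ} {h' t : ℂ} (hh : HasDerivAt h h' t) :
    DifferentiableAt ℝ (fun s => Complex.normSq (h s)) t :=
  (normSq_smooth1.contDiffAt.differentiableAt (by simp)).comp t
    (hh.hasFDerivAt.restrictScalars ℝ).differentiableAt

theorem log_norm_eq (x : ℂ) : Real.log ‖x‖ = 1 / 2 * Real.log (Complex.normSq x) := by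
  rw [Complex.normSq_eq_norm_sq, Real.log_pow]; push_cast; ring

theorem pd_lognorm {h : ℂ → ℂ} {h' t : ℂ} (e : ℂ) (hh : HasDerivAt h h' t) (h0 : h t ≠ 0) :
    pd e (fun s => Real.log ‖h s‖) t = (e * (h' / h t)).re := by
  have hn : 0 < Complex.normSq (h t) := Complex.normSq_pos.2 h0
  simp only [log_norm_eq]
  have hd := differentiable_normSq_comp hh
  have h1 : HasDerivAt (fun x => 1 / 2 * Real.log x) (1 / 2 * (Complex.normSq (h t))⁻¹)
      (Complex.normSq (h t)) := (Real.hasDerivAt_log hn.ne').const_mul _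
  rw [pd_comp_real (g := fun x => 1 / 2 * Real.log x) (u := fun s => Complex.normSq (h s)) e h1 hd,
    pd_normSq e hh]
  have h2 : e * (h' / h t) = conj (h t) * h' * e * (((Complex.normSq (h t))⁻¹ : ℝ) : ℂ) := by
    have h3 : (Complex.normSq (h t) : ℂ) = conj (h t) * h t := Complex.normSq_eq_conj_mul_self
    have h4 : conj (h t) ≠ 0 := by simpa using h0
    rw [Complex.ofReal_inv, h3]
    field_simp
  rw [h2, Complex.re_mul_ofReal]
  ring

theorem analytic_lognorm_smooth {h : ℂ → ℂ} {t : ℂ} (hh : AnalyticAt ℂ h t) (h0 : h t ≠ 0) :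
    ContDiffAt ℝ ∞ (fun s => Real.log ‖h s‖) t := by
  have h1 : ContDiffAt ℝ ∞ h t := (hh.restrictScalars (𝕜 := ℝ)).contDiffAt
  simp only [log_norm_eq]
  exact contDiffAt_const.mul ((normSq_smooth1.contDiffAt.comp t h1).log
    (Complex.normSq_pos.2 h0).ne')

theorem lap_lognorm {h : ℂ → ℂ} {t : ℂ} (hh : AnalyticAt ℂ h t) (h0 : h t ≠ 0) :
    lap (fun s => Real.log ‖h s‖) t = 0 := by
  have hne : ∀ᶠ s in 𝓝 t, h s ≠ 0 := hh.continuousAt.eventually_ne h0
  have e1 : ∀ e : ℂ, pd e (fun s => Real.log ‖h s‖) =ᶠ[𝓝 t]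
      fun s => (e * (deriv h s / h s)).re := by
    intro e
    filter_upwards [hh.eventually_analyticAt, hne] with s hs hs0
    exact pd_lognorm e hs.differentiableAt.hasDerivAt hs0
  have hq : AnalyticAt ℂ (fun s => deriv h s / h s) t := hh.deriv.div hh h0
  have hq' := hq.differentiableAt.hasDerivAt
  have e2 : ∀ e : ℂ, pd e (fun s => (e * (deriv h s / h s)).re) t =
      (e * e * deriv (fun s => deriv h s / h s) t).re := by
    intro e
    have h1 : HasDerivAt (fun s => e * (deriv h s / h s))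
      (e * deriv (fun s => deriv h s / h s) t) t := hq'.const_mul e
    have h2 := (Complex.reCLM.hasFDerivAt (x := e * (deriv h t / h t))).comp t
      (h1.hasFDerivAt.restrictScalars ℝ)
    have h3 : fderiv ℝ (fun s => (e * (deriv h s / h s)).re) t = _ := h2.fderiv
    unfold pd
    rw [h3]
    simp only [ContinuousLinearMap.comp_apply, ContinuousLinearMap.coe_restrictScalars',
      ContinuousLinearMap.toSpanSingleton_apply, smul_eq_mul, Complex.reCLM_apply]
    congr 1
    ring
  unfold lap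
  rw [pd_congr 1 (e1 1), pd_congr Complex.I (e1 Complex.I), e2, e2, ← Complex.add_re]
  have : (1 : ℂ) * 1 * deriv (fun s => deriv h s / h s) t +
      Complex.I * Complex.I * deriv (fun s => deriv h s / h s) t = 0 := by
    rw [Complex.I_mul_I]; ring
  rw [this]; rfl

theorem lap_congr {u v : ℂ → ℝ} {t : ℂ} (h : u =ᶠ[𝓝 t] v) : lap u t = lap v t := by
  unfold lap
  rw [pd_congr _ (pd_congr_nhds _ h), pd_congr _ (pd_congr_nhds _ h)]

theorem lap_lin {u v : ℂ → ℝ} {t : ℂ} (hu : ContDiffAt ℝ 2 u t) (hv : ContDiffAt ℝ 2 v t) (c : ℝ) :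
    lap (fun s => u s + c * v s) t = lap u t + c * lap v t := by
  have lin2 : ∀ b : ℂ, pd b (pd b fun s => u s + c * v s) t =
      pd b (pd b u) t + c * pd b (pd b v) t := by
    intro b
    have hue : ∀ᶠ s in 𝓝 t, ContDiffAt ℝ 2 u s := hu.eventually (by simp)
    have hve : ∀ᶠ s in 𝓝 t, ContDiffAt ℝ 2 v s := hv.eventually (by simp)
    have e1 : pd b (fun s => u s + c * v s) =ᶠ[𝓝 t] fun s => pd b u s + c * pd b v s := by
      filter_upwards [hue, hve] with s h1 h2
      have d1 := h1.differentiableAt (by norm_num)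
      have d2 := h2.differentiableAt (by norm_num)
      rw [pd_add b d1 (d2.const_mul c)]
      congr 1
      exact pd_smul b c d2
    rw [pd_congr b e1]
    have d1 : DifferentiableAt ℝ (pd b u) t :=
      (pd_contDiffAt (n := 1) b hu).differentiableAt (by norm_num)
    have d2 : DifferentiableAt ℝ (pd b v) t :=
      (pd_contDiffAt (n := 1) b hv).differentiableAt (by norm_num)
    rw [pd_add b d1 (d2.const_mul c)]
    congr 1
    exact pd_smul b c d2
  unfold lap
  rw [lin2, lin2]; ring

theorem log1p_smooth {k : ℝ} (hk : 0 ≤ k) :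
    ContDiff ℝ ∞ fun s : ℂ => Real.log (1 + k * Complex.normSq s) :=
  (contDiff_const.add (contDiff_const.mul normSq_smooth1)).log fun s => by
    have := Complex.normSq_nonneg s
    positivity

theorem lap_log1p {k : ℝ} (hk : 0 ≤ k) (t : ℂ) :
    lap (fun s => Real.log (1 + k * Complex.normSq s)) t =
      4 * k * ((1 + k * Complex.normSq t)⁻¹) ^ 2 := by
  have hN : ∀ s : ℂ, DifferentiableAt ℝ (fun s : ℂ => Complex.normSq s) s := fun s =>
    normSq_smooth1.contDiffAt.differentiableAt (by simp)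
  have hp : ∀ s : ℂ, 0 < 1 + k * Complex.normSq s := fun s => by
    have := Complex.normSq_nonneg s
    positivity
  have e1 : ∀ e : ℂ, pd e (fun s => Real.log (1 + k * Complex.normSq s)) =
      fun s => (conj s * e).re * (2 * k * (1 + k * Complex.normSq s)⁻¹) := by
    intro e
    funext s
    have h1 : HasDerivAt (fun x => Real.log (1 + k * x)) ((1 + k * Complex.normSq s)⁻¹ * k)
        (Complex.normSq s) := by
      have h2 : HasDerivAt (fun x => 1 + k * x) k (Complex.normSq s) := by
        simpa using ((hasDerivAt_id (Complex.normSq s)).const_mul k).const_add 1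
      exact (Real.hasDerivAt_log (hp s).ne').comp (Complex.normSq s) h2
    rw [pd_comp_real (g := fun x => Real.log (1 + k * x)) e h1 (hN s), pd_normSq0]
    ring
  have e2 : ∀ e : ℂ, pd e (fun s => (conj s * e).re * (2 * k * (1 + k * Complex.normSq s)⁻¹)) t =
      (conj e * e).re * (2 * k * (1 + k * Complex.normSq t)⁻¹) -
        (conj t * e).re ^ 2 * (4 * k ^ 2 * ((1 + k * Complex.normSq t)⁻¹) ^ 2) := by
    intro e
    have h1 : HasDerivAt (fun x => 2 * k * (1 + k * x)⁻¹)
        (2 * k * (-k / (1 + k * Complex.normSq t) ^ 2)) (Complex.normSq t) := by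
      have h2 : HasDerivAt (fun x => 1 + k * x) k (Complex.normSq t) := by
        simpa using ((hasDerivAt_id (Complex.normSq t)).const_mul k).const_add 1
      exact (h2.inv (hp t).ne').const_mul _
    have hd : DifferentiableAt ℝ (fun s : ℂ => 2 * k * (1 + k * Complex.normSq s)⁻¹) t :=
      h1.differentiableAt.comp t (hN t)
    rw [pd_rmul e (differentiable_relin e t) hd, pd_relin,
      pd_comp_real (g := fun x => 2 * k * (1 + k * x)⁻¹) e h1 (hN t), pd_normSq0]
    have := (hp t).ne'
    field_simp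
    ring
  unfold lap
  rw [e1, e1, e2, e2]
  have hn : Complex.normSq t = t.re ^ 2 + t.im ^ 2 := by rw [Complex.normSq_apply]; ring
  have r1 : (conj (1 : ℂ) * 1).re = 1 := by simp
  have r2 : (conj Complex.I * Complex.I).re = 1 := by simp
  have r3 : (conj t * 1).re = t.re := by simp
  have r4 : (conj t * Complex.I).re = t.im := by simp
  rw [r1, r2, r3, r4]
  have h0 := (hp t).ne'
  have : (1 + k * Complex.normSq t)⁻¹ = (1 + k * Complex.normSq t) * ((1 + k * Complex.normSq t)⁻¹) ^ 2 := by
    field_simp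
  generalize (1 + k * Complex.normSq t)⁻¹ = y at *
  rw [hn] at this
  linear_combination (4 * k) * this

theorem inv1p_smooth {k : ℝ} (hk : 0 ≤ k) :
    ContDiff ℝ ∞ fun s : ℂ => 4 * k * ((1 + k * Complex.normSq s)⁻¹) ^ 2 :=
  contDiff_const.mul (((contDiff_const.add (contDiff_const.mul normSq_smooth1)).inv fun s => by
    have := Complex.normSq_nonneg s
    positivity).pow 2)

theorem lap_inv1p {k : ℝ} (hk : 0 ≤ k) :
    lap (fun s : ℂ => 4 * k * ((1 + k * Complex.normSq s)⁻¹) ^ 2) 0 = -32 * k ^ 2 := by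
  have hN : ∀ s : ℂ, DifferentiableAt ℝ (fun s : ℂ => Complex.normSq s) s := fun s =>
    normSq_smooth1.contDiffAt.differentiableAt (by simp)
  have hp : ∀ s : ℂ, 0 < 1 + k * Complex.normSq s := fun s => by
    have := Complex.normSq_nonneg s
    positivity
  have h2 : ∀ s : ℂ, HasDerivAt (fun x => 1 + k * x) k (Complex.normSq s) := fun s => by
    simpa using ((hasDerivAt_id (Complex.normSq s)).const_mul k).const_add 1
  have hi : ∀ s : ℂ, HasDerivAt (fun x => (1 + k * x)⁻¹) (-k / (1 + k * Complex.normSq s) ^ 2)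
      (Complex.normSq s) := fun s => (h2 s).inv (hp s).ne'
  have e1 : ∀ e : ℂ, pd e (fun s => 4 * k * ((1 + k * Complex.normSq s)⁻¹) ^ 2) =
      fun s => (conj s * e).re * (-16 * k ^ 2 * ((1 + k * Complex.normSq s)⁻¹) ^ 3) := by
    intro e
    funext s
    have h1 : HasDerivAt (fun x => 4 * k * ((1 + k * x)⁻¹) ^ 2)
        (4 * k * (2 * (1 + k * Complex.normSq s)⁻¹ * (-k / (1 + k * Complex.normSq s) ^ 2)))
        (Complex.normSq s) :=
      (((hi s).pow 2).const_mul (4 * k)).congr_deriv (by norm_num)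
    rw [pd_comp_real (g := fun x => 4 * k * ((1 + k * x)⁻¹) ^ 2) e h1 (hN s), pd_normSq0]
    have := (hp s).ne'
    field_simp
    ring
  have e2 : ∀ e : ℂ, pd e (fun s => (conj s * e).re *
      (-16 * k ^ 2 * ((1 + k * Complex.normSq s)⁻¹) ^ 3)) 0 = (conj e * e).re * (-16 * k ^ 2) := by
    intro e
    have h1 := ((hi 0).pow 3).const_mul (-16 * k ^ 2)
    have hd : DifferentiableAt ℝ (fun s : ℂ => -16 * k ^ 2 * ((1 + k * Complex.normSq s)⁻¹) ^ 3) 0 :=
      h1.differentiableAt.comp 0 (hN 0)
    rw [pd_rmul e (differentiable_relin e 0) hd, pd_relin]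
    simp
  unfold lap
  rw [e1, e1, e2, e2]
  simp
  ring

end Pool.Agent.K3h78.HS
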