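import Pool.Agent.K3h78.HS.Trans
import Pool.Agent.H194R3.Cartan.P1

/-! # The surface `X`: `ℙ¹ × ℙ¹` blown up at two points, with its six charts -/

set_option autoImplicit false
set_option maxHeartbeats 400000

open Filter Topology Set
open scoped Manifold ContDiff ComplexConjugate

namespace Pool.Agent.K3h78.HS

open Pool.Agent.W549.CY (Cn dz dzbar HermitianMetric)
open Pool.Agent.H194R3.Cartan (P1)
open Pool.Agent.H194R3.Cartan.P1 (coe inf inversion inversion_inf inversion_zero inversion_of_ne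
  inversion_inversion continuous_inversion chartZero chartZero_coe chartZero_source coe_ne_inf)

theorem coe_cases (x : P1) : x = inf ∨ ∃ z, x = coe z := P1.cases x

theorem chartZero_right {x : P1} (h : x ≠ inf) : coe (chartZero x) = x := by
  rcases coe_cases x with rfl | ⟨z, rfl⟩
  · exact absurd rfl h
  · rw [chartZero_coe]

theorem continuous_coe' : Continuous coe := P1.isOpenEmbedding_coe.continuous

theorem isOpen_ne_inf : IsOpen {x : P1 | x ≠ inf} := isOpen_ne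

theorem chartZero_contOn : ContinuousOn chartZero {x : P1 | x ≠ inf} := by
  refine chartZero.continuousOn.mono fun x hx => ?_
  rw [chartZero_source]
  exact ⟨_, chartZero_right hx⟩

theorem inversion_coe_ne_inf {z : ℂ} : inversion (coe z) ≠ inf ↔ z ≠ 0 := by
  constructor
  · rintro h rfl
    exact h inversion_zero
  · intro h
    rw [inversion_of_ne h]
    exact coe_ne_inf _

/-- the six toric coordinates -/
noncomputable def ent (j : Fin 6) (z : Cn 2) : P1 :=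
  ![coe (z 0), inversion (coe (z 1)), inversion (coe (z 0 * z 1)), inversion (coe (z 0)),
    coe (z 1), coe (z 0 * z 1)] j

theorem ent_continuous (j : Fin 6) : Continuous (ent j) := by
  have h0 : Continuous fun z : Cn 2 => coe (z 0) := continuous_coe'.comp (continuous_apply 0)
  have h1 : Continuous fun z : Cn 2 => coe (z 1) := continuous_coe'.comp (continuous_apply 1)
  have h2 : Continuous fun z : Cn 2 => coe (z 0 * z 1) :=
    continuous_coe'.comp ((continuous_apply 0).mul (continuous_apply 1))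
  fin_cases j
  · exact h0
  · exact continuous_inversion.comp h1
  · exact continuous_inversion.comp h2
  · exact continuous_inversion.comp h0
  · exact h1
  · exact h2

/-- the domain of the `k`-th change of coordinates -/
def Dom (k : Fin 6) (z : Cn 2) : Prop :=
  ![True, z 1 ≠ 0, z 0 ≠ 0 ∧ z 1 ≠ 0, z 0 ≠ 0 ∧ z 1 ≠ 0, z 0 ≠ 0 ∧ z 1 ≠ 0, z 0 ≠ 0] k

/-- the `k`-th change of coordinates -/
noncomputable def T (k : Fin 6) (z : Cn 2) : Cn 2 :=
  ![![z 0, z 1], ![(z 1)⁻¹, z 0 * z 1], ![(z 0 * z 1)⁻¹, z 0], ![(z 0)⁻¹, (z 1)⁻¹],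
    ![z 1, (z 0 * z 1)⁻¹], ![z 0 * z 1, (z 0)⁻¹]] k

theorem dom_iff (k : Fin 6) (z : Cn 2) : (ent k z ≠ inf ∧ ent (k + 4) z ≠ inf) ↔ Dom k z := by
  have hm : z 0 * z 1 ≠ 0 ↔ z 0 ≠ 0 ∧ z 1 ≠ 0 := mul_ne_zero_iff
  fin_cases k
  · exact ⟨fun _ => trivial, fun _ => ⟨coe_ne_inf _, coe_ne_inf _⟩⟩
  · show (inversion (coe (z 1)) ≠ inf ∧ coe (z 0 * z 1) ≠ inf) ↔ z 1 ≠ 0
    rw [inversion_coe_ne_inf]
    exact ⟨fun h => h.1, fun h => ⟨h, coe_ne_inf _⟩⟩
  · show (inversion (coe (z 0 * z 1)) ≠ inf ∧ coe (z 0) ≠ inf) ↔ z 0 ≠ 0 ∧ z 1 ≠ 0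
    rw [inversion_coe_ne_inf, hm]
    exact ⟨fun h => h.1, fun h => ⟨h, coe_ne_inf _⟩⟩
  · show (inversion (coe (z 0)) ≠ inf ∧ inversion (coe (z 1)) ≠ inf) ↔ z 0 ≠ 0 ∧ z 1 ≠ 0
    rw [inversion_coe_ne_inf, inversion_coe_ne_inf]
  · show (coe (z 1) ≠ inf ∧ inversion (coe (z 0 * z 1)) ≠ inf) ↔ z 0 ≠ 0 ∧ z 1 ≠ 0
    rw [inversion_coe_ne_inf, hm]
    exact ⟨fun h => h.2, fun h => ⟨coe_ne_inf _, h⟩⟩
  · show (coe (z 0 * z 1) ≠ inf ∧ inversion (coe (z 0)) ≠ inf) ↔ z 0 ≠ 0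
    rw [inversion_coe_ne_inf]
    exact ⟨fun h => h.2, fun h => ⟨coe_ne_inf _, h⟩⟩

theorem T_eq {k : Fin 6} {z : Cn 2} (h : Dom k z) :
    ![chartZero (ent k z), chartZero (ent (k + 4) z)] = T k z := by
  fin_cases k
  · show ![chartZero (coe (z 0)), chartZero (coe (z 1))] = ![z 0, z 1]
    rw [chartZero_coe, chartZero_coe]
  · have h' : z 1 ≠ 0 := h
    show ![chartZero (inversion (coe (z 1))), chartZero (coe (z 0 * z 1))] = ![(z 1)⁻¹, z 0 * z 1]
    rw [inversion_of_ne h', chartZero_coe, chartZero_coe]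
  · have h' : z 0 ≠ 0 ∧ z 1 ≠ 0 := h
    show ![chartZero (inversion (coe (z 0 * z 1))), chartZero (coe (z 0))] = ![(z 0 * z 1)⁻¹, z 0]
    rw [inversion_of_ne (mul_ne_zero h'.1 h'.2), chartZero_coe, chartZero_coe]
  · have h' : z 0 ≠ 0 ∧ z 1 ≠ 0 := h
    show ![chartZero (inversion (coe (z 0))), chartZero (inversion (coe (z 1)))] =
      ![(z 0)⁻¹, (z 1)⁻¹]
    rw [inversion_of_ne h'.1, inversion_of_ne h'.2, chartZero_coe, chartZero_coe]
  · have h' : z 0 ≠ 0 ∧ z 1 ≠ 0 := h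
    show ![chartZero (coe (z 1)), chartZero (inversion (coe (z 0 * z 1)))] = ![z 1, (z 0 * z 1)⁻¹]
    rw [inversion_of_ne (mul_ne_zero h'.1 h'.2), chartZero_coe, chartZero_coe]
  · have h' : z 0 ≠ 0 := h
    show ![chartZero (coe (z 0 * z 1)), chartZero (inversion (coe (z 0)))] = ![z 0 * z 1, (z 0)⁻¹]
    rw [inversion_of_ne h', chartZero_coe, chartZero_coe]

theorem fin_a : ∀ j : Fin 6, j + 1 + 1 = j + 2 := by decide
theorem fin_b : ∀ j : Fin 6, j + 1 + 2 = j + 3 := by decide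
theorem fin_c : ∀ j : Fin 6, j + 1 + 3 = j + 4 := by decide
theorem fin_d : ∀ m m' : Fin 6, m' + 4 - m = m' - m + 4 := by decide
theorem fin_e : ∀ m m' i : Fin 6, i - m' + (m' - m) = i - m := by decide
theorem fin_f : ∀ m k : Fin 6, m + k - m = k := by decide

/-- the first change of coordinates -/
theorem ent_T1 {u v : ℂ} (hv : v ≠ 0) (j : Fin 6) : ent j ![v⁻¹, u * v] = ent (j + 1) ![u, v] := by
  have e1 : v⁻¹ * (u * v) = u := by field_simp
  fin_cases j
  · show coe v⁻¹ = inversion (coe v)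
    rw [inversion_of_ne hv]
  · show inversion (coe (u * v)) = inversion (coe (u * v))
    rfl
  · show inversion (coe (v⁻¹ * (u * v))) = inversion (coe u)
    rw [e1]
  · show inversion (coe v⁻¹) = coe v
    rw [inversion_of_ne (inv_ne_zero hv), inv_inv]
  · show coe (u * v) = coe (u * v)
    rfl
  · show coe (v⁻¹ * (u * v)) = coe u
    rw [e1]

theorem ent_T5 {u v : ℂ} (hu : u ≠ 0) (j : Fin 6) : ent j ![u * v, u⁻¹] = ent (j + 5) ![u, v] := by
  have e1 : u * v * u⁻¹ = v := by field_simp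
  fin_cases j
  · show coe (u * v) = coe (u * v)
    rfl
  · show inversion (coe u⁻¹) = coe u
    rw [inversion_of_ne (inv_ne_zero hu), inv_inv]
  · show inversion (coe (u * v * u⁻¹)) = inversion (coe v)
    rw [e1]
  · show inversion (coe (u * v)) = inversion (coe (u * v))
    rfl
  · show coe u⁻¹ = inversion (coe u)
    rw [inversion_of_ne hu]
  · show coe (u * v * u⁻¹) = coe v
    rw [e1]

theorem vec_eta (z : Cn 2) : ![z 0, z 1] = z := by
  ext i; fin_cases i <;> rfl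

theorem ent_T {k : Fin 6} {z : Cn 2} (h : Dom k z) (j : Fin 6) : ent j (T k z) = ent (j + k) z := by
  have t2 : ∀ {u v : ℂ}, u ≠ 0 → v ≠ 0 → ∀ j : Fin 6,
      ent j ![(u * v)⁻¹, u] = ent (j + 2) ![u, v] := by
    intro u v hu hv j
    have h1 := ent_T1 (u := v⁻¹) (mul_ne_zero hu hv) j
    have e : v⁻¹ * (u * v) = u := by field_simp
    rw [e, ent_T1 hv] at h1
    rw [h1, fin_a]
  have t3 : ∀ {u v : ℂ}, u ≠ 0 → v ≠ 0 → ∀ j : Fin 6,
      ent j ![u⁻¹, v⁻¹] = ent (j + 3) ![u, v] := by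
    intro u v hu hv j
    have h1 := ent_T1 (u := (u * v)⁻¹) hu j
    have e : (u * v)⁻¹ * u = v⁻¹ := by field_simp
    rw [e, t2 hu hv] at h1
    rw [h1, fin_b]
  have t4 : ∀ {u v : ℂ}, u ≠ 0 → v ≠ 0 → ∀ j : Fin 6,
      ent j ![v, (u * v)⁻¹] = ent (j + 4) ![u, v] := by
    intro u v hu hv j
    have h1 := ent_T1 (u := u⁻¹) (inv_ne_zero hv) j
    have e : u⁻¹ * v⁻¹ = (u * v)⁻¹ := by field_simp
    rw [e, inv_inv, t3 hu hv] at h1
    rw [h1, fin_c]
  fin_cases k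
  · show ent j ![z 0, z 1] = ent (j + 0) z
    rw [vec_eta, add_zero]
  · have h' : z 1 ≠ 0 := h
    show ent j ![(z 1)⁻¹, z 0 * z 1] = ent (j + 1) z
    rw [ent_T1 h', vec_eta]
  · have h' : z 0 ≠ 0 ∧ z 1 ≠ 0 := h
    show ent j ![(z 0 * z 1)⁻¹, z 0] = ent (j + 2) z
    rw [t2 h'.1 h'.2, vec_eta]
  · have h' : z 0 ≠ 0 ∧ z 1 ≠ 0 := h
    show ent j ![(z 0)⁻¹, (z 1)⁻¹] = ent (j + 3) z
    rw [t3 h'.1 h'.2, vec_eta]
  · have h' : z 0 ≠ 0 ∧ z 1 ≠ 0 := h
    show ent j ![z 1, (z 0 * z 1)⁻¹] = ent (j + 4) z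
    rw [t4 h'.1 h'.2, vec_eta]
  · have h' : z 0 ≠ 0 := h
    show ent j ![z 0 * z 1, (z 0)⁻¹] = ent (j + 5) z
    rw [ent_T5 h', vec_eta]

/-- The surface. -/
def XX : Type := {x : Fin 6 → P1 // ∃ m : Fin 6, ∃ z : Cn 2, ∀ i, x i = ent (i - m) z}

instance : TopologicalSpace XX := inferInstanceAs (TopologicalSpace
  {x : Fin 6 → P1 // ∃ m : Fin 6, ∃ z : Cn 2, ∀ i, x i = ent (i - m) z})

instance : T2Space XX := inferInstanceAs (T2Space
  {x : Fin 6 → P1 // ∃ m : Fin 6, ∃ z : Cn 2, ∀ i, x i = ent (i - m) z})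

/-- inverse of the chart -/
noncomputable def cinv (m : Fin 6) (z : Cn 2) : XX := ⟨fun i => ent (i - m) z, m, z, fun _ => rfl⟩

theorem cinv_continuous (m : Fin 6) : Continuous (cinv m) :=
  Continuous.subtype_mk (continuous_pi fun i => ent_continuous (i - m)) _

theorem coord_continuous (i : Fin 6) : Continuous fun x : XX => x.1 i :=
  (continuous_apply i).comp continuous_subtype_val

/-- the chart -/
noncomputable def cfun (m : Fin 6) (x : XX) : Cn 2 := ![chartZero (x.1 m), chartZero (x.1 (m + 4))]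

/-- source of the chart -/
def csrc (m : Fin 6) : Set XX := {x | x.1 m ≠ inf ∧ x.1 (m + 4) ≠ inf}

theorem exists_cinv (x : XX) : ∃ m z, x = cinv m z := by
  obtain ⟨x, m, z, h⟩ := x
  exact ⟨m, z, Subtype.ext (funext h)⟩

theorem cinv_mem_iff (m m' : Fin 6) (z : Cn 2) : cinv m z ∈ csrc m' ↔ Dom (m' - m) z := by
  rw [← dom_iff]
  have e : m' + 4 - m = m' - m + 4 := fin_d m m'
  show (ent (m' - m) z ≠ inf ∧ ent (m' + 4 - m) z ≠ inf) ↔ _
  rw [e]

theorem cfun_cinv {m m' : Fin 6} {z : Cn 2} (h : Dom (m' - m) z) :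
    cfun m' (cinv m z) = T (m' - m) z := by
  rw [← T_eq h]
  have e : m' + 4 - m = m' - m + 4 := fin_d m m'
  show ![chartZero (ent (m' - m) z), chartZero (ent (m' + 4 - m) z)] = _
  rw [e]

theorem cinv_T {m m' : Fin 6} {z : Cn 2} (h : Dom (m' - m) z) :
    cinv m' (T (m' - m) z) = cinv m z := by
  apply Subtype.ext
  funext i
  show ent (i - m') (T (m' - m) z) = ent (i - m) z
  rw [ent_T h, fin_e]

theorem cinv_mem_self (m : Fin 6) (z : Cn 2) : cinv m z ∈ csrc m := by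
  rw [cinv_mem_iff, sub_self]; trivial

theorem cfun_cinv_self (m : Fin 6) (z : Cn 2) : cfun m (cinv m z) = z := by
  have h : Dom (m - m) z := by rw [sub_self]; trivial
  rw [cfun_cinv h, sub_self]
  exact vec_eta z

theorem cinv_cfun {m : Fin 6} {x : XX} (h : x ∈ csrc m) : cinv m (cfun m x) = x := by
  obtain ⟨m', z, rfl⟩ := exists_cinv x
  have h' := (cinv_mem_iff m' m z).1 h
  rw [cfun_cinv h', cinv_T h']

theorem csrc_open (m : Fin 6) : IsOpen (csrc m) :=
  (isOpen_ne_inf.preimage (coord_continuous m)).inter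
    (isOpen_ne_inf.preimage (coord_continuous (m + 4)))

theorem cfun_continuousOn (m : Fin 6) : ContinuousOn (cfun m) (csrc m) := by
  apply continuousOn_pi.2
  intro i
  fin_cases i
  · exact chartZero_contOn.comp (coord_continuous m).continuousOn fun x hx => hx.1
  · exact chartZero_contOn.comp (coord_continuous (m + 4)).continuousOn fun x hx => hx.2

/-- The six charts of the surface. -/
noncomputable def chX (m : Fin 6) : OpenPartialHomeomorph XX (Cn 2) where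
  toFun := cfun m
  invFun := cinv m
  source := csrc m
  target := univ
  map_source' _ _ := mem_univ _
  map_target' z _ := cinv_mem_self m z
  left_inv' _ h := cinv_cfun h
  right_inv' z _ := cfun_cinv_self m z
  open_source := csrc_open m
  open_target := isOpen_univ
  continuousOn_toFun := cfun_continuousOn m
  continuousOn_invFun := (cinv_continuous m).continuousOn

noncomputable instance : ChartedSpace (Cn 2) XX where
  atlas := range chX
  chartAt x := chX (exists_cinv x).choose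
  mem_chart_source x := by
    obtain ⟨z, hz⟩ := (exists_cinv x).choose_spec
    exact mem_of_eq_of_mem hz (cinv_mem_self _ z)
  chart_mem_atlas x := ⟨_, rfl⟩

theorem T_analytic {k : Fin 6} {z : Cn 2} (h : Dom k z) : AnalyticAt ℂ (T k) z := by
  have p0 : AnalyticAt ℂ (fun z : Cn 2 => z 0) z :=
    (ContinuousLinearMap.proj (R := ℂ) (φ := fun _ : Fin 2 => ℂ) 0).analyticAt z
  have p1 : AnalyticAt ℂ (fun z : Cn 2 => z 1) z :=
    (ContinuousLinearMap.proj (R := ℂ) (φ := fun _ : Fin 2 => ℂ) 1).analyticAt z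
  have p2 : AnalyticAt ℂ (fun z : Cn 2 => z 0 * z 1) z := p0.mul p1
  have vec : ∀ {f g : Cn 2 → ℂ}, AnalyticAt ℂ f z → AnalyticAt ℂ g z →
      AnalyticAt ℂ (fun z => (![f z, g z] : Cn 2)) z := by
    intro f g hf hg
    rw [analyticAt_pi_iff]
    intro i
    fin_cases i
    · exact hf
    · exact hg
  fin_cases k
  · exact vec p0 p1
  · have h' : z 1 ≠ 0 := h
    exact vec (p1.inv h') p2
  · have h' : z 0 ≠ 0 ∧ z 1 ≠ 0 := h
    exact vec (p2.inv (mul_ne_zero h'.1 h'.2)) p0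
  · have h' : z 0 ≠ 0 ∧ z 1 ≠ 0 := h
    exact vec (p0.inv h'.1) (p1.inv h'.2)
  · have h' : z 0 ≠ 0 ∧ z 1 ≠ 0 := h
    exact vec p1 (p2.inv (mul_ne_zero h'.1 h'.2))
  · have h' : z 0 ≠ 0 := h
    exact vec p2 (p0.inv h')

theorem dom_open (k : Fin 6) : IsOpen {z : Cn 2 | Dom k z} := by
  have h0 : IsOpen {z : Cn 2 | z 0 ≠ 0} := isOpen_ne.preimage (continuous_apply 0)
  have h1 : IsOpen {z : Cn 2 | z 1 ≠ 0} := isOpen_ne.preimage (continuous_apply 1)
  fin_cases k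
  · show IsOpen {z : Cn 2 | True}
    simp
  · exact h1
  · exact h0.inter h1
  · exact h0.inter h1
  · exact h0.inter h1
  · exact h0

theorem trans_ev {m m' : Fin 6} {z : Cn 2} (h : Dom (m' - m) z) :
    (chX m' ∘ (chX m).symm) =ᶠ[𝓝 z] T (m' - m) := by
  filter_upwards [(dom_open (m' - m)).mem_nhds h] with y hy
  exact cfun_cinv hy

theorem contDiffAt_T {k : Fin 6} {z : Cn 2} (h : Dom k z) : ContDiffAt ℂ ω (T k) z :=
  (T_analytic h).contDiffAt

instance : IsManifold 𝓘(ℂ, Cn 2) ω XX := by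
  apply isManifold_of_contDiffOn
  rintro _ _ ⟨m, rfl⟩ ⟨m', rfl⟩
  intro z hz
  simp only [modelWithCornersSelf_coe, modelWithCornersSelf_coe_symm, preimage_id_eq, id_eq,
    range_id, inter_univ, OpenPartialHomeomorph.coe_trans, Function.comp_def] at hz ⊢
  have h1 : (chX m).symm z ∈ (chX m').source := hz.2
  have h2 : Dom (m' - m) z := (cinv_mem_iff m m' z).1 h1
  exact ((contDiffAt_T h2).congr_of_eventuallyEq (trans_ev h2)).contDiffWithinAt

/-! ### Topology -/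

theorem cover (z : Cn 2) : ∃ k, Dom k z ∧ T k z ∈ Metric.closedBall (0 : Cn 2) 1 := by
  have hb : ∀ a b : ℂ, ‖a‖ ≤ 1 → ‖b‖ ≤ 1 → (![a, b] : Cn 2) ∈ Metric.closedBall (0 : Cn 2) 1 := by
    intro a b ha hb
    rw [mem_closedBall_zero_iff, pi_norm_le_iff_of_nonneg zero_le_one]
    intro i
    fin_cases i
    · exact ha
    · exact hb
  have inv_le : ∀ a : ℂ, 1 < ‖a‖ → ‖a⁻¹‖ ≤ 1 := by
    intro a ha
    rw [norm_inv]
    exact inv_le_one_of_one_le₀ ha.le
  have ne : ∀ a : ℂ, 1 < ‖a‖ → a ≠ 0 := by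
    intro a ha h
    rw [h, norm_zero] at ha
    linarith
  by_cases hv : ‖z 1‖ ≤ 1
  · by_cases hu : ‖z 0‖ ≤ 1
    · exact ⟨0, trivial, hb _ _ hu hv⟩
    · push Not at hu
      have hu0 := ne _ hu
      by_cases huv : ‖z 0 * z 1‖ ≤ 1
      · exact ⟨5, hu0, hb _ _ huv (inv_le _ hu)⟩
      · push Not at huv
        have h3 := ne _ huv
        exact ⟨4, mul_ne_zero_iff.1 h3, hb _ _ hv (inv_le _ huv)⟩
  · push Not at hv
    have hv0 := ne _ hv
    by_cases huv : ‖z 0 * z 1‖ ≤ 1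
    · exact ⟨1, hv0, hb _ _ (inv_le _ hv) huv⟩
    · push Not at huv
      have h3 := ne _ huv
      by_cases hu : ‖z 0‖ ≤ 1
      · exact ⟨2, mul_ne_zero_iff.1 h3, hb _ _ (inv_le _ huv) hu⟩
      · push Not at hu
        exact ⟨3, mul_ne_zero_iff.1 h3, hb _ _ (inv_le _ hu) (inv_le _ hv)⟩

instance : CompactSpace XX := by
  constructor
  have h : (univ : Set XX) = ⋃ m : Fin 6, cinv m '' Metric.closedBall (0 : Cn 2) 1 := by
    symm
    rw [eq_univ_iff_forall]
    intro x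
    obtain ⟨m, z, rfl⟩ := exists_cinv x
    obtain ⟨k, hk, hT⟩ := cover z
    have e : (m + k) - m = k := fin_f m k
    refine mem_iUnion.2 ⟨m + k, T k z, hT, ?_⟩
    have := cinv_T (m := m) (m' := m + k) (z := z) (by rw [e]; exact hk)
    rwa [e] at this
  rw [h]
  exact isCompact_iUnion fun m => (isCompact_closedBall _ _).image (cinv_continuous m)

/-- the unit point -/
noncomputable def one : XX := cinv 0 ![1, 1]

theorem ent_one (j : Fin 6) : ent j ![1, 1] = coe 1 := by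
  have h : inversion (coe 1) = coe 1 := by rw [inversion_of_ne one_ne_zero, inv_one]
  fin_cases j
  · rfl
  · exact h
  · show inversion (coe (1 * 1)) = coe 1
    rw [mul_one]; exact h
  · exact h
  · rfl
  · show coe (1 * 1) = coe 1
    rw [mul_one]

theorem cinv_one (m : Fin 6) : cinv m ![1, 1] = one := by
  apply Subtype.ext
  funext i
  show ent (i - m) ![1, 1] = ent (i - 0) ![1, 1]
  rw [ent_one, ent_one]

instance : ConnectedSpace XX := by
  have h : IsConnected (⋃ m : Fin 6, range (cinv m)) := by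
    refine ⟨⟨one, mem_iUnion.2 ⟨0, ![1, 1], rfl⟩⟩, ?_⟩
    refine isPreconnected_iUnion ⟨one, mem_iInter.2 ?_⟩ ?_
    · intro m
      exact ⟨![1, 1], cinv_one m⟩
    · intro m
      exact isPreconnected_range (cinv_continuous m)
  have e : (⋃ m : Fin 6, range (cinv m)) = univ := by
    rw [eq_univ_iff_forall]
    intro x
    obtain ⟨m, z, rfl⟩ := exists_cinv x
    exact mem_iUnion.2 ⟨m, z, rfl⟩
  rw [e] at h
  exact connectedSpace_iff_univ.2 h

/-! ### The metric -/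

theorem φ_T (k : Fin 6) : ∃ α β : ℝ, ∀ z : Cn 2, Dom k z → (α = 0 ∨ z 0 ≠ 0) ∧
    (β = 0 ∨ z 1 ≠ 0) ∧ φ (T k z) = φ z + α * Real.log ‖z 0‖ + β * Real.log ‖z 1‖ := by
  fin_cases k
  · refine ⟨0, 0, fun z _ => ⟨Or.inl rfl, Or.inl rfl, ?_⟩⟩
    show φ ![z 0, z 1] = _
    rw [vec_eta]; ring
  · refine ⟨0, -1, fun z h => ⟨Or.inl rfl, Or.inr h, ?_⟩⟩
    show φ ![(z 1)⁻¹, z 0 * z 1] = _
    rw [φ_T1 (z 0) h, vec_eta]; ring
  · refine ⟨-1, -2, fun z h => ⟨Or.inr h.1, Or.inr h.2, ?_⟩⟩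
    show φ ![(z 0 * z 1)⁻¹, z 0] = _
    rw [φ_T2 h.1 h.2, vec_eta]; ring
  · refine ⟨-2, -2, fun z h => ⟨Or.inr h.1, Or.inr h.2, ?_⟩⟩
    show φ ![(z 0)⁻¹, (z 1)⁻¹] = _
    rw [φ_T3 h.1 h.2, vec_eta]; ring
  · refine ⟨-2, -1, fun z h => ⟨Or.inr h.1, Or.inr h.2, ?_⟩⟩
    show φ ![z 1, (z 0 * z 1)⁻¹] = _
    rw [φ_T4 h.1 h.2, vec_eta]; ring
  · refine ⟨-1, 0, fun z h => ⟨Or.inr h, Or.inl rfl, ?_⟩⟩
    show φ ![z 0 * z 1, (z 0)⁻¹] = _
    rw [φ_T5 (z 1) h, vec_eta]; ring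

/-- the metric -/
noncomputable def hX : HermitianMetric 2 XX where
  g _ z := Hs φ z
  smooth _ _ j k := (Hs_smooth φ_smooth j k).contDiffOn
  posDef _ _ z _ := Hs_posDef z
  transform := by
    rintro _ ⟨m, rfl⟩ _ ⟨m', rfl⟩ x hx j k
    obtain ⟨z, hz⟩ : ∃ z, x = cinv m z := ⟨_, (cinv_cfun hx.1).symm⟩
    subst hz
    have hD : Dom (m' - m) z := (cinv_mem_iff m m' z).1 hx.2
    have e1 : chX m (cinv m z) = z := cfun_cinv_self m z
    have e2 : chX m' (cinv m z) = T (m' - m) z := cfun_cinv hD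
    rw [e1, e2, (trans_ev hD).fderiv_eq]
    obtain ⟨α, β, hαβ⟩ := φ_T (m' - m)
    obtain ⟨h1, h2, _⟩ := hαβ z hD
    refine Hs_transform (T_analytic hD) α β h1 h2 ?_ j k
    filter_upwards [(dom_open (m' - m)).mem_nhds hD] with y hy
    exact (hαβ y hy).2.2

theorem hX_kahler : IsKahler hX := fun _ _ z _ i j k => Hs_closed φ_smooth z i j k

theorem hX_pos : HasPositiveHSC hX := fun _ _ z _ v hv => holSec_pos z v hv

end Pool.Agent.K3h78.HS
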