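import Pool.Agent.K3h78.HS.MfdX

/-! # The surface `Y = ℙ¹ × ℙ¹` and the map `X → Y` -/

set_option autoImplicit false
set_option maxHeartbeats 400000

open Filter Topology Set
open scoped Manifold ContDiff ComplexConjugate

namespace Pool.Agent.K3h78.HS

open Pool.Agent.W549.CY (Cn dz dzbar HermitianMetric)
open Pool.Agent.H194R3.Cartan (P1)
open Pool.Agent.H194R3.Cartan.P1 (coe inf inversion inversion_inf inversion_zero inversion_of_ne
  inversion_inversion continuous_inversion chartZero chartZero_coe chartZero_source coe_ne_inf)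

/-- `ℙ¹ × ℙ¹` -/
def YY : Type := P1 × P1

instance : TopologicalSpace YY := inferInstanceAs (TopologicalSpace (P1 × P1))
instance : CompactSpace YY := inferInstanceAs (CompactSpace (P1 × P1))
instance : T2Space YY := inferInstanceAs (T2Space (P1 × P1))
instance : ConnectedSpace YY := inferInstanceAs (ConnectedSpace (P1 × P1))

/-- `x` or `1/x` -/
noncomputable def flip (a : Bool) (x : P1) : P1 := if a then inversion x else x

theorem flip_false (x : P1) : flip false x = x := rfl
theorem flip_true (x : P1) : flip true x = inversion x := rfl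

theorem flip_flip (a : Bool) (x : P1) : flip a (flip a x) = x := by
  cases a
  · rfl
  · exact inversion_inversion x

theorem flip_continuous (a : Bool) : Continuous (flip a) := by
  cases a
  · exact continuous_id
  · exact continuous_inversion

/-- The four charts of `ℙ¹ × ℙ¹`. -/
noncomputable def chY (a b : Bool) : OpenPartialHomeomorph YY (Cn 2) where
  toFun y := ![chartZero (flip a y.1), chartZero (flip b y.2)]
  invFun z := (flip a (coe (z 0)), flip b (coe (z 1)))
  source := {y | flip a y.1 ≠ inf ∧ flip b y.2 ≠ inf}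
  target := univ
  map_source' _ _ := mem_univ _
  map_target' z _ := by
    show flip a (flip a _) ≠ inf ∧ flip b (flip b _) ≠ inf
    rw [flip_flip, flip_flip]
    exact ⟨coe_ne_inf _, coe_ne_inf _⟩
  left_inv' y h := by
    show (flip a (coe (chartZero (flip a y.1))), flip b (coe (chartZero (flip b y.2)))) = y
    rw [chartZero_right h.1, chartZero_right h.2, flip_flip, flip_flip]
    rfl
  right_inv' z _ := by
    show ![chartZero (flip a (flip a (coe (z 0)))), chartZero (flip b (flip b (coe (z 1))))] = z
    rw [flip_flip, flip_flip, chartZero_coe, chartZero_coe, vec_eta]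
  open_source :=
    (isOpen_ne_inf.preimage ((flip_continuous a).comp continuous_fst)).inter
      (isOpen_ne_inf.preimage ((flip_continuous b).comp continuous_snd))
  open_target := isOpen_univ
  continuousOn_toFun := by
    apply continuousOn_pi.2
    intro i
    fin_cases i
    · exact chartZero_contOn.comp ((flip_continuous a).comp continuous_fst).continuousOn
        fun x hx => hx.1
    · exact chartZero_contOn.comp ((flip_continuous b).comp continuous_snd).continuousOn
        fun x hx => hx.2
  continuousOn_invFun := by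
    apply Continuous.continuousOn
    exact ((flip_continuous a).comp (continuous_coe'.comp (continuous_apply 0))).prodMk
      ((flip_continuous b).comp (continuous_coe'.comp (continuous_apply 1)))

theorem chY_apply (a b : Bool) (y : YY) :
    chY a b y = ![chartZero (flip a y.1), chartZero (flip b y.2)] := rfl

theorem chY_symm_apply (a b : Bool) (z : Cn 2) :
    (chY a b).symm z = (flip a (coe (z 0)), flip b (coe (z 1))) := rfl

theorem mem_chY_source (a b : Bool) (y : YY) :
    y ∈ (chY a b).source ↔ flip a y.1 ≠ inf ∧ flip b y.2 ≠ inf := Iff.rfl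

theorem exists_flip (x : P1) : ∃ a, flip a x ≠ inf := by
  by_cases h : x = inf
  · refine ⟨true, ?_⟩
    rw [h, flip_true, inversion_inf]
    exact coe_ne_inf _
  · exact ⟨false, h⟩

noncomputable instance : ChartedSpace (Cn 2) YY where
  atlas := range fun p : Bool × Bool => chY p.1 p.2
  chartAt y := chY (exists_flip y.1).choose (exists_flip y.2).choose
  mem_chart_source y := ⟨(exists_flip y.1).choose_spec, (exists_flip y.2).choose_spec⟩
  chart_mem_atlas y := ⟨(_, _), rfl⟩

/-- a coordinate change of `ℙ¹` -/
theorem flip_trans (a a' : Bool) {w : ℂ} (h : flip a' (flip a (coe w)) ≠ inf) :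
    ∃ g : ℂ → ℂ, AnalyticAt ℂ g w ∧ ∀ᶠ y in 𝓝 w, chartZero (flip a' (flip a (coe y))) = g y := by
  by_cases haa : a = a'
  · subst haa
    refine ⟨fun y => y, analyticAt_id, Eventually.of_forall fun _ => ?_⟩
    rw [flip_flip, chartZero_coe]
  · have e : ∀ x, flip a' (flip a x) = inversion x := by
      intro x
      cases a <;> cases a' <;> simp_all [flip]
    rw [e, inversion_coe_ne_inf] at h
    refine ⟨fun y => y⁻¹, analyticAt_inv h, ?_⟩
    filter_upwards [isOpen_ne.mem_nhds h] with y hy
    rw [e, inversion_of_ne hy, chartZero_coe]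

instance : IsManifold 𝓘(ℂ, Cn 2) ω YY := by
  apply isManifold_of_contDiffOn
  rintro _ _ ⟨⟨a, b⟩, rfl⟩ ⟨⟨a', b'⟩, rfl⟩
  intro z hz
  simp only [modelWithCornersSelf_coe, modelWithCornersSelf_coe_symm, preimage_id_eq, id_eq,
    range_id, inter_univ, OpenPartialHomeomorph.coe_trans, Function.comp_def] at hz ⊢
  have h1 : (chY a b).symm z ∈ (chY a' b').source := hz.2
  rw [chY_symm_apply, mem_chY_source] at h1
  obtain ⟨g1, hg1, e1⟩ := flip_trans a a' h1.1
  obtain ⟨g2, hg2, e2⟩ := flip_trans b b' h1.2
  have p0 : ContDiffAt ℂ ω (fun z : Cn 2 => g1 (z 0)) z :=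
    ContDiffAt.comp z hg1.contDiffAt (contDiff_apply ℂ ℂ (0 : Fin 2)).contDiffAt
  have p1 : ContDiffAt ℂ ω (fun z : Cn 2 => g2 (z 1)) z :=
    ContDiffAt.comp z hg2.contDiffAt (contDiff_apply ℂ ℂ (1 : Fin 2)).contDiffAt
  have hv : ContDiffAt ℂ ω (fun z : Cn 2 => (![g1 (z 0), g2 (z 1)] : Cn 2)) z := by
    rw [contDiffAt_pi]
    intro i
    fin_cases i
    · exact p0
    · exact p1
  refine (hv.congr_of_eventuallyEq ?_).contDiffWithinAt
  have t0 : Tendsto (fun z : Cn 2 => z 0) (𝓝 z) (𝓝 (z 0)) := (continuous_apply 0).continuousAt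
  have t1 : Tendsto (fun z : Cn 2 => z 1) (𝓝 z) (𝓝 (z 1)) := (continuous_apply 1).continuousAt
  filter_upwards [t0.eventually e1, t1.eventually e2] with y hy1 hy2
  rw [chY_symm_apply, chY_apply]
  simp only [hy1, hy2]

theorem chY_mem (a b : Bool) : chY a b ∈ IsManifold.maximalAtlas 𝓘(ℂ, Cn 2) ω YY :=
  IsManifold.subset_maximalAtlas ⟨(a, b), rfl⟩

/-- the surface `Y` -/
noncomputable def SY : Surface where
  carrier := YY

/-- the surface `X` -/
noncomputable def SX : Surface where
  carrier := XX

theorem isHirzebruch : IsHirzebruch 0 SY := by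
  refine ⟨fun a => {y : YY | flip a y.1 ≠ inf}, fun b => {y : YY | flip b y.2 ≠ inf}, chY,
    ⟨?_, ?_, fun a b => ⟨chY_mem a b, rfl, rfl⟩⟩, ⟨?_, ?_⟩, ⟨?_, ?_, ?_⟩⟩
  · rw [eq_univ_iff_forall]
    intro y
    obtain ⟨a, ha⟩ := exists_flip y.1
    cases a
    · exact Or.inl ha
    · exact Or.inr ha
  · rw [eq_univ_iff_forall]
    intro y
    obtain ⟨a, ha⟩ := exists_flip y.2
    cases a
    · exact Or.inl ha
    · exact Or.inr ha
  · intro a z
    show inversion (coe (z 1)) ≠ inf ↔ _
    exact inversion_coe_ne_inf
  · intro a z h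
    show chY a true ((chY a false).symm z) = _
    rw [chY_symm_apply, chY_apply, flip_flip, flip_false, flip_true, inversion_of_ne h,
      chartZero_coe, chartZero_coe]
  · intro b z
    show inversion (coe (z 0)) ≠ inf ↔ _
    exact inversion_coe_ne_inf
  · intro z h
    show chY true false ((chY false false).symm z) = _
    rw [chY_symm_apply, chY_apply, flip_false, flip_true, flip_false, flip_false,
      inversion_of_ne h, chartZero_coe, chartZero_coe, pow_zero, one_mul]
  · intro z h
    show ![chartZero (inversion (coe (z 0))), chartZero (inversion (inversion (coe (z 1))))] = _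
    rw [inversion_inversion, inversion_of_ne h, chartZero_coe, chartZero_coe, pow_zero, inv_one,
      one_mul]

/-- the map `X → Y` -/
noncomputable def πXY (x : XX) : YY := (x.1 0, x.1 2)

/-- the two centres -/
noncomputable def pY : YY := (coe 0, inf)
noncomputable def qY : YY := (inf, coe 0)

theorem pq_ne : pY ≠ qY := by
  intro h
  have h1 : coe 0 = inf := congrArg Prod.fst h
  exact coe_ne_inf _ h1

/-! ### Relations between the coordinates -/

theorem x3 (x : XX) : x.1 3 = inversion (x.1 0) := by
  obtain ⟨m, z, rfl⟩ := exists_cinv x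
  have key : ∀ j : Fin 6, ent (3 + j) z = inversion (ent j z) := by
    intro j
    fin_cases j
    · rfl
    · exact (inversion_inversion _).symm
    · exact (inversion_inversion _).symm
    · exact (inversion_inversion _).symm
    · rfl
    · rfl
  have e : ∀ m : Fin 6, 3 - m = 3 + (0 - m) := by decide
  show ent (3 - m) z = inversion (ent (0 - m) z)
  rw [e, key]

theorem x5 (x : XX) : x.1 5 = inversion (x.1 2) := by
  obtain ⟨m, z, rfl⟩ := exists_cinv x
  have key : ∀ j : Fin 6, ent (3 + j) z = inversion (ent j z) := by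
    intro j
    fin_cases j
    · rfl
    · exact (inversion_inversion _).symm
    · exact (inversion_inversion _).symm
    · exact (inversion_inversion _).symm
    · rfl
    · rfl
  have e : ∀ m : Fin 6, 5 - m = 3 + (2 - m) := by decide
  show ent (5 - m) z = inversion (ent (2 - m) z)
  rw [e, key]

theorem x1 (x : XX) : x.1 4 = inversion (x.1 1) := by
  obtain ⟨m, z, rfl⟩ := exists_cinv x
  have key : ∀ j : Fin 6, ent (3 + j) z = inversion (ent j z) := by
    intro j
    fin_cases j
    · rfl
    · exact (inversion_inversion _).symm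
    · exact (inversion_inversion _).symm
    · exact (inversion_inversion _).symm
    · rfl
    · rfl
  have e : ∀ m : Fin 6, 4 - m = 3 + (1 - m) := by decide
  show ent (4 - m) z = inversion (ent (1 - m) z)
  rw [e, key]

/-- swapping the coordinates of `ℂ²` -/
noncomputable def sw : Cn 2 ≃ₜ Cn 2 where
  toFun z := ![z 1, z 0]
  invFun z := ![z 1, z 0]
  left_inv z := vec_eta z
  right_inv z := vec_eta z
  continuous_toFun := by
    apply continuous_pi
    intro i
    fin_cases i
    · exact continuous_apply 1
    · exact continuous_apply 0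
  continuous_invFun := by
    apply continuous_pi
    intro i
    fin_cases i
    · exact continuous_apply 1
    · exact continuous_apply 0

theorem sw_mem : sw.toOpenPartialHomeomorph ∈ contDiffGroupoid ω 𝓘(ℂ, Cn 2) := by
  have h : ContDiff ℂ ω (fun z : Cn 2 => (![z 1, z 0] : Cn 2)) := by
    rw [contDiff_pi]
    intro i
    fin_cases i
    · exact contDiff_apply ℂ ℂ (1 : Fin 2)
    · exact contDiff_apply ℂ ℂ (0 : Fin 2)
  rw [contDiffGroupoid, mem_groupoid_of_pregroupoid]
  constructor
  · exact (h.contDiffOn).congr fun z _ => rfl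
  · exact (h.contDiffOn).congr fun z _ => rfl

theorem trans_sw_mem {e : OpenPartialHomeomorph XX (Cn 2)}
    (he : e ∈ IsManifold.maximalAtlas 𝓘(ℂ, Cn 2) ω XX) :
    e ≫ₕ sw.toOpenPartialHomeomorph ∈ IsManifold.maximalAtlas 𝓘(ℂ, Cn 2) ω XX := by
  intro e' he'
  obtain ⟨h1, h2⟩ := he e' he'
  constructor
  · rw [OpenPartialHomeomorph.trans_symm_eq_symm_trans_symm, OpenPartialHomeomorph.trans_assoc]
    exact (contDiffGroupoid ω 𝓘(ℂ, Cn 2)).trans ((contDiffGroupoid ω 𝓘(ℂ, Cn 2)).symm sw_mem) h1
  · rw [← OpenPartialHomeomorph.trans_assoc]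
    exact (contDiffGroupoid ω 𝓘(ℂ, Cn 2)).trans h2 sw_mem

theorem chX_mem (m : Fin 6) : chX m ∈ IsManifold.maximalAtlas 𝓘(ℂ, Cn 2) ω XX :=
  IsManifold.subset_maximalAtlas ⟨m, rfl⟩

theorem isBlowUp : IsBlowUp (X := SX) (Y := SY) πXY {pY, qY} := by
  constructor
  · intro (y : YY) hy
    have hcase : y ∈ (chY false false).source ∨ y ∈ (chY true true).source := by
      by_contra hcon
      push Not at hcon
      apply hy
      obtain ⟨y1, y2⟩ := y
      rw [mem_chY_source, mem_chY_source] at hcon
      simp only [flip_false, flip_true] at hcon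
      obtain ⟨h1, h2⟩ := hcon
      have z1 : inversion y1 = inf → y1 = coe 0 := by
        intro h
        rw [← inversion_inversion y1, h, inversion_inf]
      have z2 : inversion y2 = inf → y2 = coe 0 := by
        intro h
        rw [← inversion_inversion y2, h, inversion_inf]
      by_cases a1 : y1 = inf
      · right
        subst a1
        have h3 : inversion inf ≠ inf := by rw [inversion_inf]; exact coe_ne_inf _
        have h4 : ¬ inversion y2 ≠ inf := fun h => h2 ⟨h3, h⟩
        rw [z2 (not_not.1 h4)]
        rfl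
      · left
        have h3 : y2 = inf := by
          by_contra h
          exact h1 ⟨a1, h⟩
        subst h3
        have h4 : inversion inf ≠ inf := by rw [inversion_inf]; exact coe_ne_inf _
        have h5 : ¬ inversion y1 ≠ inf := fun h => h2 ⟨h, h4⟩
        rw [z1 (not_not.1 h5)]
        rfl
    rcases hcase with h | h
    · refine ⟨chY false false, chX 2 ≫ₕ sw.toOpenPartialHomeomorph,
        ⟨chY_mem _ _, trans_sw_mem (chX_mem 2), ?_, ?_⟩, h, ?_, ?_⟩
      · simp only [OpenPartialHomeomorph.trans_target, Homeomorph.toOpenPartialHomeomorph_target]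
        ext z
        exact ⟨fun _ => trivial, fun _ => ⟨trivial, trivial⟩⟩
      · intro x _
        rfl
      · rw [Set.disjoint_right]
        rintro y (rfl | rfl) h1
        · exact h1.2 rfl
        · exact h1.1 rfl
      · ext x
        simp only [OpenPartialHomeomorph.trans_source, Homeomorph.toOpenPartialHomeomorph_source,
          preimage_univ, inter_univ]
        exact ⟨fun h => ⟨h.2, h.1⟩, fun h => ⟨h.2, h.1⟩⟩
    · refine ⟨chY true true, chX 5 ≫ₕ sw.toOpenPartialHomeomorph,
        ⟨chY_mem _ _, trans_sw_mem (chX_mem 5), ?_, ?_⟩, h, ?_, ?_⟩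
      · simp only [OpenPartialHomeomorph.trans_target, Homeomorph.toOpenPartialHomeomorph_target]
        ext z
        exact ⟨fun _ => trivial, fun _ => ⟨trivial, trivial⟩⟩
      · intro (x : XX) _
        show ![chartZero (inversion (x.1 0)), chartZero (inversion (x.1 2))] =
          ![chartZero (x.1 3), chartZero (x.1 5)]
        rw [x3, x5]
      · rw [Set.disjoint_right]
        rintro y (rfl | rfl) h1
        · exact h1.1 inversion_zero
        · exact h1.2 inversion_zero
      · ext (x : XX)
        simp only [OpenPartialHomeomorph.trans_source, Homeomorph.toOpenPartialHomeomorph_source,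
          preimage_univ, inter_univ]
        show (inversion (x.1 0) ≠ inf ∧ inversion (x.1 2) ≠ inf) ↔ (x.1 5 ≠ inf ∧ x.1 3 ≠ inf)
        rw [x3, x5]
        exact ⟨fun h => ⟨h.2, h.1⟩, fun h => ⟨h.2, h.1⟩⟩
  · rintro p (rfl | rfl)
    · refine ⟨chY false true, chX 0, chX 1, ⟨chY_mem _ _, chX_mem 0, ?_, ?_⟩,
        ⟨chY_mem _ _, chX_mem 1, ?_, ?_⟩, ?_, ?_, ?_, ?_, ?_⟩
      · ext z; exact ⟨fun _ => trivial, fun _ => trivial⟩
      · intro (x : XX) h
        have h' : x ∈ csrc 0 := h
        obtain ⟨z, rfl⟩ : ∃ z, x = cinv 0 z := ⟨_, (cinv_cfun h').symm⟩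
        have e : chX 0 (cinv 0 z) = z := cfun_cinv_self 0 z
        refine Eq.trans ?_ (congrArg blowA e.symm)
        show ![chartZero (coe (z 0)), chartZero (inversion (inversion (coe (z 0 * z 1))))] = _
        rw [inversion_inversion, chartZero_coe, chartZero_coe]
        rfl
      · ext z; exact ⟨fun _ => trivial, fun _ => trivial⟩
      · intro (x : XX) h
        have h' : x ∈ csrc 1 := h
        obtain ⟨z, rfl⟩ : ∃ z, x = cinv 1 z := ⟨_, (cinv_cfun h').symm⟩
        have e : chX 1 (cinv 1 z) = z := cfun_cinv_self 1 z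
        refine Eq.trans ?_ (congrArg blowB e.symm)
        show ![chartZero (coe (z 0 * z 1)), chartZero (inversion (inversion (coe (z 1))))] = _
        rw [inversion_inversion, chartZero_coe, chartZero_coe]
        rfl
      · show ![chartZero (coe 0), chartZero (inversion inf)] = 0
        rw [inversion_inf, chartZero_coe]
        ext i; fin_cases i <;> rfl
      · ext (y : YY)
        constructor
        · rintro ⟨h1, rfl | rfl⟩
          · rfl
          · exact absurd rfl h1.1
        · rintro rfl
          refine ⟨⟨coe_ne_inf _, ?_⟩, Or.inl rfl⟩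
          show inversion inf ≠ inf
          rw [inversion_inf]; exact coe_ne_inf _
      · ext (x : XX)
        show (x.1 0 ≠ inf ∧ inversion (x.1 2) ≠ inf) ↔
          ((x.1 0 ≠ inf ∧ x.1 4 ≠ inf) ∨ (x.1 1 ≠ inf ∧ x.1 5 ≠ inf))
        rw [← x5]
        constructor
        · rintro ⟨h0, h5⟩
          by_cases h : x.1 4 = inf
          · right
            refine ⟨?_, h5⟩
            intro h1
            rw [x1, h1, inversion_inf] at h
            exact coe_ne_inf _ h
          · exact Or.inl ⟨h0, h⟩
        · rintro (h | h)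
          · refine ⟨h.1, ?_⟩
            have h' : x ∈ csrc 0 := h
            rw [← cinv_cfun h']
            exact coe_ne_inf _
          · refine ⟨?_, h.2⟩
            have h' : x ∈ csrc 1 := h
            rw [← cinv_cfun h']
            exact coe_ne_inf _
      · intro z _
        exact cinv_mem_iff 0 1 z
      · intro z _ h
        have hD : Dom (1 - 0) z := h
        exact cfun_cinv hD
    · refine ⟨chY true false, chX 3, chX 4, ⟨chY_mem _ _, chX_mem 3, ?_, ?_⟩,
        ⟨chY_mem _ _, chX_mem 4, ?_, ?_⟩, ?_, ?_, ?_, ?_, ?_⟩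
      · ext z; exact ⟨fun _ => trivial, fun _ => trivial⟩
      · intro (x : XX) h
        have h' : x ∈ csrc 3 := h
        obtain ⟨z, rfl⟩ : ∃ z, x = cinv 3 z := ⟨_, (cinv_cfun h').symm⟩
        have e : chX 3 (cinv 3 z) = z := cfun_cinv_self 3 z
        refine Eq.trans ?_ (congrArg blowA e.symm)
        show ![chartZero (inversion (inversion (coe (z 0)))), chartZero (coe (z 0 * z 1))] = _
        rw [inversion_inversion, chartZero_coe, chartZero_coe]
        rfl
      · ext z; exact ⟨fun _ => trivial, fun _ => trivial⟩
      · intro (x : XX) h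
        have h' : x ∈ csrc 4 := h
        obtain ⟨z, rfl⟩ : ∃ z, x = cinv 4 z := ⟨_, (cinv_cfun h').symm⟩
        have e : chX 4 (cinv 4 z) = z := cfun_cinv_self 4 z
        refine Eq.trans ?_ (congrArg blowB e.symm)
        show ![chartZero (inversion (inversion (coe (z 0 * z 1)))), chartZero (coe (z 1))] = _
        rw [inversion_inversion, chartZero_coe, chartZero_coe]
        rfl
      · show ![chartZero (inversion inf), chartZero (coe 0)] = 0
        rw [inversion_inf, chartZero_coe]
        ext i; fin_cases i <;> rfl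
      · ext (y : YY)
        constructor
        · rintro ⟨h1, rfl | rfl⟩
          · exact absurd rfl h1.2
          · rfl
        · rintro rfl
          refine ⟨⟨?_, coe_ne_inf _⟩, Or.inr rfl⟩
          show inversion inf ≠ inf
          rw [inversion_inf]; exact coe_ne_inf _
      · ext (x : XX)
        show (inversion (x.1 0) ≠ inf ∧ x.1 2 ≠ inf) ↔
          ((x.1 3 ≠ inf ∧ x.1 (3 + 4) ≠ inf) ∨ (x.1 4 ≠ inf ∧ x.1 (4 + 4) ≠ inf))
        have a1 : (3 + 4 : Fin 6) = 1 := by decide
        have a2 : (4 + 4 : Fin 6) = 2 := by decide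
        rw [← x3, a1, a2]
        constructor
        · rintro ⟨h0, h5⟩
          by_cases h : x.1 1 = inf
          · right
            refine ⟨?_, h5⟩
            rw [x1, h, inversion_inf]
            exact coe_ne_inf _
          · exact Or.inl ⟨h0, h⟩
        · rintro (h | h)
          · refine ⟨h.1, ?_⟩
            have h' : x ∈ csrc 3 := ⟨h.1, by rw [a1]; exact h.2⟩
            rw [← cinv_cfun h']
            exact coe_ne_inf _
          · refine ⟨?_, h.2⟩
            have h' : x ∈ csrc 4 := ⟨h.1, by rw [a2]; exact h.2⟩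
            rw [← cinv_cfun h']
            exact coe_ne_inf _
      · intro z _
        exact cinv_mem_iff 3 4 z
      · intro z _ h
        have hD : Dom (4 - 3) z := h
        exact cfun_cinv hD

end Pool.Agent.K3h78.HS
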