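import Mathlib

/-! # A nonnegative function with vanishing `1`-jet and Laplacian has nonnegative bi-Laplacian -/

set_option autoImplicit false

open Filter Topology
open scoped ContDiff

namespace Pool.Agent.K3h78.HS

theorem neg_step {g g' : ℝ → ℝ} {δ : ℝ} (h : ∀ r ∈ Set.Ioo (-δ) δ, HasDerivAt g (g' r) r)
    (h0 : g 0 = 0) (hn : ∀ r ∈ Set.Ioo 0 δ, g' r < 0) : ∀ r ∈ Set.Ioo 0 δ, g r < 0 := by
  intro r hr
  have hc : ContinuousOn g (Set.Icc 0 r) := fun x hx =>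
    (h x ⟨by linarith [hx.1, hr.1, hr.2], lt_of_le_of_lt hx.2 hr.2⟩).continuousAt.continuousWithinAt
  obtain ⟨c, hc1, hc2⟩ := exists_hasDerivAt_eq_slope g g' hr.1 hc
    (fun x hx => h x ⟨by linarith [hx.1, hr.1, hr.2], lt_trans hx.2 hr.2⟩)
  have h3 := hn c ⟨hc1.1, lt_trans hc1.2 hr.2⟩
  rw [hc2, h0, sub_zero, sub_zero] at h3
  by_contra hcon
  exact absurd h3 (not_lt.2 (div_nonneg (not_lt.1 hcon) hr.1.le))

theorem fourth_nonneg {q q1 q2 q3 : ℝ → ℝ} {c : ℝ} (h0 : ∀ᶠ r in 𝓝 (0 : ℝ), HasDerivAt q (q1 r) r)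
    (h1 : ∀ᶠ r in 𝓝 (0 : ℝ), HasDerivAt q1 (q2 r) r)
    (h2 : ∀ᶠ r in 𝓝 (0 : ℝ), HasDerivAt q2 (q3 r) r) (h3 : HasDerivAt q3 c 0)
    (hq : ∀ᶠ r in 𝓝 (0 : ℝ), 0 ≤ q r) (hq0 : q 0 = 0) (hq2 : q2 0 = 0) : 0 ≤ c := by
  by_contra hc
  push Not at hc
  obtain ⟨δ, hδ, hb⟩ := Metric.eventually_nhds_iff_ball.1 (h0.and (h1.and (h2.and hq)))
  have hI : ∀ r ∈ Set.Ioo (-δ) δ, r ∈ Metric.ball (0 : ℝ) δ := by
    intro r hr
    rw [Metric.mem_ball, dist_zero_right, Real.norm_eq_abs, abs_lt]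
    exact hr
  have hneg : ∀ r ∈ Set.Ioo (-δ) δ, -r ∈ Set.Ioo (-δ) δ := fun r hr =>
    ⟨by linarith [hr.2], by linarith [hr.1]⟩
  have key : ∀ {f f' : ℝ → ℝ} {r : ℝ}, HasDerivAt f (f' (-r)) (-r) →
      HasDerivAt (fun x => f (-x)) (-f' (-r)) r := by
    intro f f' r hf
    exact (hf.comp r (hasDerivAt_neg r)).congr_deriv (by ring)
  have d0 : ∀ r ∈ Set.Ioo (-δ) δ, HasDerivAt (fun x => q x + q (-x)) (q1 r - q1 (-r)) r := by
    intro r hr
    have a := (hb r (hI r hr)).1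
    have b := key (hb (-r) (hI _ (hneg r hr))).1
    exact (a.add b).congr_deriv (by ring)
  have d1 : ∀ r ∈ Set.Ioo (-δ) δ, HasDerivAt (fun x => q1 x - q1 (-x)) (q2 r + q2 (-r)) r := by
    intro r hr
    have a := (hb r (hI r hr)).2.1
    have b := key (hb (-r) (hI _ (hneg r hr))).2.1
    exact (a.sub b).congr_deriv (by ring)
  have d2 : ∀ r ∈ Set.Ioo (-δ) δ, HasDerivAt (fun x => q2 x + q2 (-x)) (q3 r - q3 (-r)) r := by
    intro r hr
    have a := (hb r (hI r hr)).2.2.1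
    have b := key (hb (-r) (hI _ (hneg r hr))).2.2.1
    exact (a.add b).congr_deriv (by ring)
  have d3 : HasDerivAt (fun x => q3 x - q3 (-x)) (2 * c) 0 := by
    have b : HasDerivAt (fun x => q3 (-x)) (-c) 0 := by
      have h3' : HasDerivAt q3 c (-0) := by simpa using h3
      exact (h3'.comp (0 : ℝ) (hasDerivAt_neg 0)).congr_deriv (by ring)
    exact (h3.sub b).congr_deriv (by ring)
  -- near zero on the right the function is negative
  have hlt : ∀ᶠ r in 𝓝[>] (0 : ℝ), q3 r - q3 (-r) < 0 := by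
    have h5 := d3.tendsto_slope
    have h6 : ∀ᶠ r in 𝓝[≠] (0 : ℝ), slope (fun x => q3 x - q3 (-x)) 0 r < 0 :=
      h5.eventually (gt_mem_nhds (by linarith))
    have h7 : ∀ᶠ r in 𝓝[>] (0 : ℝ), slope (fun x => q3 x - q3 (-x)) 0 r < 0 :=
      h6.filter_mono (nhdsWithin_mono _ fun x hx => ne_of_gt hx)
    filter_upwards [h7, self_mem_nhdsWithin] with r hr hr0
    rw [slope_def_field] at hr
    simp only [neg_zero, sub_self, sub_zero] at hr
    have hr0' : (0 : ℝ) < r := hr0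
    by_contra hcon
    exact absurd hr (not_lt.2 (div_nonneg (not_lt.1 hcon) hr0'.le))
  obtain ⟨ε, hε, hεb⟩ := Metric.eventually_nhds_iff_ball.1 (eventually_nhdsWithin_iff.1 hlt)
  set η := min δ ε with hη
  have hη0 : 0 < η := lt_min hδ hε
  have sub : Set.Ioo (-η) η ⊆ Set.Ioo (-δ) δ := Set.Ioo_subset_Ioo
    (neg_le_neg (min_le_left _ _)) (min_le_left _ _)
  have n3 : ∀ r ∈ Set.Ioo 0 η, q3 r - q3 (-r) < 0 := by
    intro r hr
    refine hεb r ?_ hr.1
    rw [Metric.mem_ball, dist_zero_right, Real.norm_eq_abs, abs_of_pos hr.1]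
    exact lt_of_lt_of_le hr.2 (min_le_right _ _)
  have n2 := neg_step (fun r hr => d2 r (sub hr)) (by simp [hq2]) n3
  have n1 := neg_step (fun r hr => d1 r (sub hr)) (by simp) n2
  have n0 := neg_step (fun r hr => d0 r (sub hr)) (by simp [hq0]) n1
  have hmid : η / 2 ∈ Set.Ioo 0 η := ⟨by linarith, by linarith⟩
  have h8 := n0 _ hmid
  have hm' : η / 2 ∈ Set.Ioo (-δ) δ := sub ⟨by linarith, by linarith⟩
  have h9 := (hb _ (hI _ hm')).2.2.2
  have h10 := (hb _ (hI _ (hneg _ hm'))).2.2.2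
  linarith

/-- second derivative test -/
theorem second_nonneg {q q1 : ℝ → ℝ} {c : ℝ} (h0 : ∀ᶠ r in 𝓝 (0 : ℝ), HasDerivAt q (q1 r) r)
    (h1 : HasDerivAt q1 c 0) (hq : ∀ᶠ r in 𝓝 (0 : ℝ), 0 ≤ q r) (hq0 : q 0 = 0) : 0 ≤ c := by
  by_contra hc
  push Not at hc
  obtain ⟨δ, hδ, hb⟩ := Metric.eventually_nhds_iff_ball.1 (h0.and hq)
  have hI : ∀ r ∈ Set.Ioo (-δ) δ, r ∈ Metric.ball (0 : ℝ) δ := by
    intro r hr
    rw [Metric.mem_ball, dist_zero_right, Real.norm_eq_abs, abs_lt]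
    exact hr
  have hneg : ∀ r ∈ Set.Ioo (-δ) δ, -r ∈ Set.Ioo (-δ) δ := fun r hr =>
    ⟨by linarith [hr.2], by linarith [hr.1]⟩
  have key : ∀ {f f' : ℝ → ℝ} {r : ℝ}, HasDerivAt f (f' (-r)) (-r) →
      HasDerivAt (fun x => f (-x)) (-f' (-r)) r := by
    intro f f' r hf
    exact (hf.comp r (hasDerivAt_neg r)).congr_deriv (by ring)
  have d0 : ∀ r ∈ Set.Ioo (-δ) δ, HasDerivAt (fun x => q x + q (-x)) (q1 r - q1 (-r)) r := by
    intro r hr
    have a := (hb r (hI r hr)).1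
    have b := key (hb (-r) (hI _ (hneg r hr))).1
    exact (a.add b).congr_deriv (by ring)
  have d3 : HasDerivAt (fun x => q1 x - q1 (-x)) (2 * c) 0 := by
    have b : HasDerivAt (fun x => q1 (-x)) (-c) 0 := by
      have h3' : HasDerivAt q1 c (-0) := by simpa using h1
      exact (h3'.comp (0 : ℝ) (hasDerivAt_neg 0)).congr_deriv (by ring)
    exact (h1.sub b).congr_deriv (by ring)
  have hlt : ∀ᶠ r in 𝓝[>] (0 : ℝ), q1 r - q1 (-r) < 0 := by
    have h5 := d3.tendsto_slope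
    have h6 : ∀ᶠ r in 𝓝[≠] (0 : ℝ), slope (fun x => q1 x - q1 (-x)) 0 r < 0 :=
      h5.eventually (gt_mem_nhds (by linarith))
    have h7 : ∀ᶠ r in 𝓝[>] (0 : ℝ), slope (fun x => q1 x - q1 (-x)) 0 r < 0 :=
      h6.filter_mono (nhdsWithin_mono _ fun x hx => ne_of_gt hx)
    filter_upwards [h7, self_mem_nhdsWithin] with r hr hr0
    rw [slope_def_field] at hr
    simp only [neg_zero, sub_self, sub_zero] at hr
    have hr0' : (0 : ℝ) < r := hr0
    by_contra hcon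
    exact absurd hr (not_lt.2 (div_nonneg (not_lt.1 hcon) hr0'.le))
  obtain ⟨ε, hε, hεb⟩ := Metric.eventually_nhds_iff_ball.1 (eventually_nhdsWithin_iff.1 hlt)
  set η := min δ ε with hη
  have hη0 : 0 < η := lt_min hδ hε
  have sub : Set.Ioo (-η) η ⊆ Set.Ioo (-δ) δ := Set.Ioo_subset_Ioo
    (neg_le_neg (min_le_left _ _)) (min_le_left _ _)
  have n3 : ∀ r ∈ Set.Ioo 0 η, q1 r - q1 (-r) < 0 := by
    intro r hr
    refine hεb r ?_ hr.1
    rw [Metric.mem_ball, dist_zero_right, Real.norm_eq_abs, abs_of_pos hr.1]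
    exact lt_of_lt_of_le hr.2 (min_le_right _ _)
  have n0 := neg_step (fun r hr => d0 r (sub hr)) (by simp [hq0]) n3
  have hmid : η / 2 ∈ Set.Ioo 0 η := ⟨by linarith, by linarith⟩
  have h8 := n0 _ hmid
  have hm' : η / 2 ∈ Set.Ioo (-δ) δ := sub ⟨by linarith, by linarith⟩
  have h9 := (hb _ (hI _ hm')).2
  have h10 := (hb _ (hI _ (hneg _ hm'))).2
  linarith

/-! ### Directional derivatives -/

section pd

variable {E F : Type*} [NormedAddCommGroup E] [NormedSpace ℝ E] [NormedAddCommGroup F]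
  [NormedSpace ℝ F]

/-- directional derivative -/
noncomputable def pd (v : E) (u : E → F) (z : E) : F := fderiv ℝ u z v

theorem pd_contDiffAt {u : E → F} {z : E} {n : ℕ} (v : E) (h : ContDiffAt ℝ (n + 1 : ℕ) u z) :
    ContDiffAt ℝ n (pd v u) z := by
  have h1 : ContDiffAt ℝ n (fderiv ℝ u) z := h.fderiv_right (by norm_cast)
  exact h1.clm_apply contDiffAt_const

theorem eventually_contDiffAt {u : E → F} {z : E} {n : ℕ} (h : ContDiffAt ℝ n u z) :
    ∀ᶠ y in 𝓝 z, ContDiffAt ℝ n u y := h.eventually (by simp)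

theorem pd_comm {u : E → F} {z : E} (v w : E) (h : ContDiffAt ℝ 2 u z) :
    pd v (pd w u) z = pd w (pd v u) z := by
  have h1 : ContDiffAt ℝ 1 (fderiv ℝ u) z := h.fderiv_right (by norm_cast)
  have h2 : DifferentiableAt ℝ (fderiv ℝ u) z := h1.differentiableAt (by norm_num)
  have h3 : IsSymmSndFDerivAt ℝ u z := h.isSymmSndFDerivAt (by simp)
  have e : ∀ a b : E, pd a (pd b u) z = fderiv ℝ (fderiv ℝ u) z a b := by
    intro a b
    unfold pd
    rw [fderiv_clm_apply h2 (differentiableAt_const b)]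
    simp
  rw [e, e, h3.eq]

theorem pd_add_dir (u : E → F) (z v w : E) : pd (v + w) u z = pd v u z + pd w u z := by
  unfold pd; rw [map_add]

theorem pd_neg_dir (u : E → F) (z v : E) : pd (-v) u z = -pd v u z := by
  unfold pd; rw [map_neg]

theorem pd_congr {u u' : E → F} {z : E} (v : E) (h : u =ᶠ[𝓝 z] u') : pd v u z = pd v u' z := by
  unfold pd; rw [h.fderiv_eq]

theorem pd_congr_nhds {u u' : E → F} {z : E} (v : E) (h : u =ᶠ[𝓝 z] u') :
    pd v u =ᶠ[𝓝 z] pd v u' := by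
  filter_upwards [h.eventually_nhds] with y hy
  exact pd_congr v hy

theorem hasDerivAt_line {u : E → F} {r : ℝ} {e : E} (h : DifferentiableAt ℝ u (r • e)) :
    HasDerivAt (fun r : ℝ => u (r • e)) (pd e u (r • e)) r := by
  have h1 : HasDerivAt (fun r : ℝ => r • e) e r := by
    simpa using (hasDerivAt_id r).smul_const e
  exact h.hasFDerivAt.comp_hasDerivAt r h1

theorem tendsto_line (e : E) : Tendsto (fun r : ℝ => r • e) (𝓝 0) (𝓝 (0 : E)) := by
  have : ContinuousAt (fun r : ℝ => r • e) 0 := by fun_prop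
  simpa [ContinuousAt] using this

theorem second_dir_nonneg {D : E → ℝ} (hD : ContDiffAt ℝ 2 D 0) (hpos : ∀ᶠ t in 𝓝 (0 : E), 0 ≤ D t)
    (h0 : D 0 = 0) (e : E) : 0 ≤ pd e (pd e D) 0 := by
  have c1 : ∀ᶠ t in 𝓝 (0 : E), ContDiffAt ℝ 2 D t := hD.eventually (by simp)
  have d1 : ContDiffAt ℝ 1 (pd e D) 0 := pd_contDiffAt (n := 1) e hD
  refine second_nonneg (q := fun r => D (r • e)) (q1 := fun r => pd e D (r • e)) ?_ ?_ ?_ ?_
  · filter_upwards [(tendsto_line e).eventually c1] with r hr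
    exact hasDerivAt_line (hr.differentiableAt (by norm_num))
  · have := hasDerivAt_line (u := pd e D) (r := 0) (e := e) (by
      rw [zero_smul]; exact d1.differentiableAt (by norm_num))
    simpa using this
  · exact (tendsto_line e).eventually hpos
  · simpa using h0

theorem fourth_dir_nonneg {D : E → ℝ} (hD : ContDiffAt ℝ 4 D 0)
    (hpos : ∀ᶠ t in 𝓝 (0 : E), 0 ≤ D t) (h0 : D 0 = 0) (e : E) (h2 : pd e (pd e D) 0 = 0) :
    0 ≤ pd e (pd e (pd e (pd e D))) 0 := by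
  have c1 : ∀ᶠ t in 𝓝 (0 : E), ContDiffAt ℝ 4 D t := hD.eventually (by simp)
  have d1 : ContDiffAt ℝ 3 (pd e D) 0 := pd_contDiffAt (n := 3) e hD
  have c2 : ∀ᶠ t in 𝓝 (0 : E), ContDiffAt ℝ 3 (pd e D) t := d1.eventually (by simp)
  have d2 : ContDiffAt ℝ 2 (pd e (pd e D)) 0 := pd_contDiffAt (n := 2) e d1
  have c3 : ∀ᶠ t in 𝓝 (0 : E), ContDiffAt ℝ 2 (pd e (pd e D)) t := d2.eventually (by simp)
  have d3 : ContDiffAt ℝ 1 (pd e (pd e (pd e D))) 0 := pd_contDiffAt (n := 1) e d2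
  refine fourth_nonneg (q := fun r => D (r • e)) (q1 := fun r => pd e D (r • e))
    (q2 := fun r => pd e (pd e D) (r • e)) (q3 := fun r => pd e (pd e (pd e D)) (r • e))
    ?_ ?_ ?_ ?_ ?_ ?_ ?_
  · filter_upwards [(tendsto_line e).eventually c1] with r hr
    exact hasDerivAt_line (hr.differentiableAt (by norm_num))
  · filter_upwards [(tendsto_line e).eventually c2] with r hr
    exact hasDerivAt_line (hr.differentiableAt (by norm_num))
  · filter_upwards [(tendsto_line e).eventually c3] with r hr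
    exact hasDerivAt_line (hr.differentiableAt (by norm_num))
  · have := hasDerivAt_line (u := pd e (pd e (pd e D))) (r := 0) (e := e) (by
      rw [zero_smul]; exact d3.differentiableAt (by norm_num))
    simpa using this
  · exact (tendsto_line e).eventually hpos
  · simpa using h0
  · simpa using h2

end pd

end Pool.Agent.K3h78.HS
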