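import Pool.Agent.K3h78.HS.Disc2

/-! # Positivity of the metric and of its holomorphic sectional curvature -/

set_option autoImplicit false
set_option maxHeartbeats 400000

open Filter Topology Matrix
open scoped ContDiff ComplexConjugate ComplexOrder

namespace Pool.Agent.K3h78.HS

open Pool.Agent.W549.CY (Cn dz dzbar)

theorem metric_val (z w : Cn 2) (d : DiscData z w) :
    (∑ i, ∑ j, Hs φ z i j * (w i * conj (w j))) = ((d.p : ℝ) : ℂ) := by
  have h1 := levi (U := fun y => ((φ y : ℝ) : ℂ)) (smooth_ofReal φ_smooth) d.f_an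
  have h2 := dt_dtb_ofReal (v := fun t => φ (d.f t)) (d.φf_smooth.of_le (by norm_cast))
  rw [d.lap_φ] at h2
  have h3 : dt (dtb fun s => ((φ (d.f s) : ℝ) : ℂ)) 0 = ((d.p : ℝ) : ℂ) := by
    rw [h2]; push_cast; ring
  rw [← h3, h1, d.f_zero, d.f_deriv, Finset.sum_comm]
  apply Finset.sum_congr rfl
  intro j _
  apply Finset.sum_congr rfl
  intro i _
  rw [Hs_apply]
  ring

theorem Hs_posDef (z : Cn 2) : (Hs φ z).PosDef := by
  refine Matrix.PosDef.of_dotProduct_mulVec_pos (Hs_isHermitian φ_smooth z) fun x hx => ?_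
  have hw : star x ≠ 0 := fun h => hx (star_eq_zero.1 h)
  obtain ⟨d⟩ := exists_discData z (star x)
  have h := metric_val z (star x) d
  have hp := (d.pq_pos hw).1
  have e : star x ⬝ᵥ (Hs φ z *ᵥ x) = ∑ i, ∑ j, Hs φ z i j * ((star x) i * conj ((star x) j)) := by
    simp only [dotProduct, mulVec, Finset.mul_sum]
    apply Finset.sum_congr rfl
    intro i _
    apply Finset.sum_congr rfl
    intro j _
    simp only [Pi.star_apply, RCLike.star_def, Complex.conj_conj]
    ring
  rw [e, h]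
  exact_mod_cast hp

theorem holSec_pos (z v : Cn 2) (hv : v ≠ 0) : 0 < holSec (Hs φ) z v := by
  obtain ⟨d⟩ := exists_discData z v
  obtain ⟨hp, hq⟩ := d.pq_pos hv
  have hm := metric_val z v d
  have hpd : (Hs φ (d.f 0)).PosDef := Hs_posDef _
  have h := curvature_ineq φ_smooth d.f_an hpd
  have S2 : ∀ᶠ t in 𝓝 (0 : ℂ), ContDiffAt ℝ 2 (fun t => φ (d.f t)) t :=
    (d.φf_smooth.of_le (m := 2) (by norm_cast)).eventually (by simp)
  have e1 : dt (dtb fun s => ((φ (d.f s) : ℝ) : ℂ)) =ᶠ[𝓝 0]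
      fun t => (((fun t => (1 / 4) * lap (fun t => φ (d.f t)) t) t : ℝ) : ℂ) := by
    filter_upwards [S2] with t ht
    rw [dt_dtb_ofReal ht]
    push_cast
    ring
  have c2 : ContDiffAt ℝ 2 (lap fun t => φ (d.f t)) 0 :=
    lap_contDiffAt (n := 2) (d.φf_smooth.of_le (by norm_cast))
  have c3 : ContDiffAt ℝ 2 (fun t => (1 / 4) * lap (fun t => φ (d.f t)) t) 0 :=
    contDiffAt_const.mul c2
  have e1b : dtb (dt (dtb fun s => ((φ (d.f s) : ℝ) : ℂ))) =ᶠ[𝓝 0]
      dtb fun t => (((fun t => (1 / 4) * lap (fun t => φ (d.f t)) t) t : ℝ) : ℂ) := by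
    filter_upwards [e1.eventually_nhds] with t ht
    exact dtb_congr ht
  have e2 : dt (dtb (dt (dtb fun s => ((φ (d.f s) : ℝ) : ℂ)))) 0 =
      (((1 / 16) * lap (lap fun t => φ (d.f t)) 0 : ℝ) : ℂ) := by
    rw [dt_congr e1b, dt_dtb_ofReal c3]
    have h0 := lap_lin (u := fun _ => (0 : ℝ)) (v := lap fun t => φ (d.f t)) (t := 0)
      contDiffAt_const c2 (1 / 4)
    have hz : lap (fun _ : ℂ => (0 : ℝ)) 0 = 0 := by
      unfold lap
      have : ∀ e : ℂ, pd e (fun _ : ℂ => (0 : ℝ)) = fun _ => 0 := by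
        intro e; funext s; unfold pd; simp
      rw [this, this]
      unfold pd
      simp
    simp only [zero_add] at h0
    rw [h0, hz]
    push_cast
    ring
  rw [e2, d.f_zero, d.f_deriv] at h
  have hre := (Complex.le_def.1 h).1
  rw [Complex.zero_re, Complex.add_re, Complex.ofReal_re] at hre
  have hb := d.laplap_φ
  unfold holSec
  apply div_pos
  · linarith
  · rw [hm, Complex.ofReal_re]
    positivity

end Pool.Agent.K3h78.HS
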