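import Pool.Agent.K3h78.HS.Pos

/-! # The transformation law of the metric -/

set_option autoImplicit false
set_option maxHeartbeats 400000

open Filter Topology
open scoped ContDiff ComplexConjugate

namespace Pool.Agent.K3h78.HS

open Pool.Agent.W549.CY (Cn dz dzbar)

section prod

variable {n : ℕ} {u v : Cn n → ℂ} {z : Cn n}

theorem pd_mul' (e : Cn n) (hu : DifferentiableAt ℝ u z) (hv : DifferentiableAt ℝ v z) :
    pd e (fun s => u s * v s) z = pd e u z * v z + u z * pd e v z := by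
  unfold pd
  rw [fderiv_fun_mul hu hv]
  simp [smul_eq_mul]
  ring

theorem dz_mul (j : Fin n) (hu : DifferentiableAt ℝ u z) (hv : DifferentiableAt ℝ v z) :
    dz j (fun s => u s * v s) z = dz j u z * v z + u z * dz j v z := by
  simp only [dz_eq_pd]
  rw [pd_mul' _ hu hv, pd_mul' _ hu hv]
  ring

theorem pd_sum' {ι : Type*} (s : Finset ι) {u : ι → Cn n → ℂ} (e : Cn n)
    (hu : ∀ i ∈ s, DifferentiableAt ℝ (u i) z) :
    pd e (fun x => ∑ i ∈ s, u i x) z = ∑ i ∈ s, pd e (u i) z := by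
  unfold pd
  rw [fderiv_fun_sum hu]
  simp

theorem dz_sum {ι : Type*} (s : Finset ι) {u : ι → Cn n → ℂ} (j : Fin n)
    (hu : ∀ i ∈ s, DifferentiableAt ℝ (u i) z) :
    dz j (fun x => ∑ i ∈ s, u i x) z = ∑ i ∈ s, dz j (u i) z := by
  simp only [dz_eq_pd]
  rw [pd_sum' s _ hu, pd_sum' s _ hu, Finset.mul_sum, ← Finset.sum_sub_distrib, Finset.mul_sum]

theorem dz_congr (j : Fin n) (h : u =ᶠ[𝓝 z] v) : dz j u z = dz j v z := by
  simp only [dz_eq_pd]; rw [pd_congr _ h, pd_congr _ h]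

theorem dzbar_congr (j : Fin n) (h : u =ᶠ[𝓝 z] v) : dzbar j u z = dzbar j v z := by
  simp only [dzbar_eq_pd]; rw [pd_congr _ h, pd_congr _ h]

theorem dzbar_holo {h : Cn n → ℂ} (hh : DifferentiableAt ℂ h z) (j : Fin n) : dzbar j h z = 0 := by
  unfold dzbar
  rw [(hh.hasFDerivAt.restrictScalars ℝ).fderiv]
  simp only [ContinuousLinearMap.coe_restrictScalars']
  have hI : (Pi.single j Complex.I : Cn n) = Complex.I • (Pi.single j 1 : Cn n) := by
    rw [← Pi.single_smul, smul_eq_mul, mul_one]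
  rw [hI, map_smul, smul_eq_mul, ← mul_assoc, Complex.I_mul_I]
  ring

theorem dz_conj_holo {h : Cn n → ℂ} (hh : DifferentiableAt ℂ h z) (j : Fin n) :
    dz j (fun y => conj (h y)) z = 0 := by
  rw [dz_conj (hh.hasFDerivAt.restrictScalars ℝ).differentiableAt, dzbar_holo hh, map_zero]

theorem differentiable_conj {h : Cn n → ℂ} (hh : DifferentiableAt ℂ h z) :
    DifferentiableAt ℝ (fun y => conj (h y)) z :=
  Complex.conjCLE.toContinuousLinearMap.differentiableAt.comp z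
    (hh.hasFDerivAt.restrictScalars ℝ).differentiableAt

end prod

/-- second order chain rule for holomorphic maps -/
theorem levi_comp {n m : ℕ} {U : Cn m → ℂ} {T : Cn n → Cn m} {z : Cn n} (hU : ContDiff ℝ ∞ U)
    (hT : AnalyticAt ℂ T z) (j k : Fin n) :
    dz j (dzbar k fun y => U (T y)) z = ∑ a, ∑ b, fderiv ℂ T z (Pi.single j 1) a *
      conj (fderiv ℂ T z (Pi.single k 1) b) * dz a (dzbar b U) (T z) := by
  have e1 : dzbar k (fun y => U (T y)) =ᶠ[𝓝 z] fun y =>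
      ∑ b, conj (fderiv ℂ T y (Pi.single k 1) b) * dzbar b U (T y) := by
    filter_upwards [hT.eventually_analyticAt] with y hy
    exact dzbar_comp (hU.contDiffAt.differentiableAt (by simp)) hy.differentiableAt.hasFDerivAt k
  have h1 : AnalyticAt ℂ (fderiv ℂ T) z := hT.fderiv
  have h2 : ∀ b, DifferentiableAt ℂ (fun y => fderiv ℂ T y (Pi.single k 1) b) z := by
    intro b
    have h3 : DifferentiableAt ℂ (fun y => fderiv ℂ T y (Pi.single k 1)) z :=
      h1.differentiableAt.clm_apply (differentiableAt_const _)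
    exact (differentiableAt_pi.1 h3) b
  have h4 : ∀ b, DifferentiableAt ℝ (fun y => dzbar b U (T y)) z := by
    intro b
    exact ((contDiff_dzbar hU b).contDiffAt.differentiableAt (by simp)).comp z
      (hT.differentiableAt.hasFDerivAt.restrictScalars ℝ).differentiableAt
  rw [dz_congr j e1, dz_sum _ j (fun b _ => (differentiable_conj (h2 b)).fun_mul (h4 b)),
    Finset.sum_comm]
  apply Finset.sum_congr rfl
  intro b _
  rw [dz_mul j (differentiable_conj (h2 b)) (h4 b), dz_conj_holo (h2 b), zero_mul, zero_add,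
    dz_comp ((contDiff_dzbar hU b).contDiffAt.differentiableAt (by simp))
      hT.differentiableAt.hasFDerivAt j, Finset.mul_sum]
  apply Finset.sum_congr rfl
  intro a _
  ring

/-! ### `log |z_i|` is pluriharmonic -/

theorem pd_log_norm_coord {z : Cn 2} (i : Fin 2) (h0 : z i ≠ 0) (v : Cn 2) :
    pd v (fun y => Real.log ‖y i‖) z = (v i / z i).re := by
  have h1 : HasFDerivAt (fun y : Cn 2 => y i)
      (ContinuousLinearMap.proj (R := ℝ) (φ := fun _ : Fin 2 => ℂ) i) z :=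
    (ContinuousLinearMap.proj (R := ℝ) (φ := fun _ : Fin 2 => ℂ) i).hasFDerivAt
  have h2 : DifferentiableAt ℝ (fun s : ℂ => Real.log ‖s‖) (z i) :=
    (analytic_lognorm_smooth (h := fun s => s) analyticAt_id h0).differentiableAt (by simp)
  have h3 := h2.hasFDerivAt.comp z h1
  have h4 : fderiv ℝ (fun y : Cn 2 => Real.log ‖y i‖) z = _ := h3.fderiv
  unfold pd
  rw [h4]
  have h5 := pd_lognorm (h := fun s => s) (v i) (hasDerivAt_id (z i)) h0
  unfold pd at h5
  simp only [ContinuousLinearMap.comp_apply, ContinuousLinearMap.proj_apply]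
  rw [h5]
  congr 1
  rw [mul_one_div]

theorem log_norm_coord_smooth {z : Cn 2} (i : Fin 2) (h0 : z i ≠ 0) :
    ContDiffAt ℝ ∞ (fun y : Cn 2 => Real.log ‖y i‖) z := by
  have h1 : ContDiffAt ℝ ∞ (fun y : Cn 2 => y i) z :=
    (contDiff_pi.1 (contDiff_id (𝕜 := ℝ) (E := Cn 2) (n := ∞)) i).contDiffAt
  exact ContDiffAt.comp (g := fun s : ℂ => Real.log ‖s‖) z
    (analytic_lognorm_smooth (h := fun s => s) analyticAt_id h0) h1

theorem pd_ofReal' {v : Cn 2 → ℝ} {t : Cn 2} (e : Cn 2) (hv : DifferentiableAt ℝ v t) :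
    pd e (fun s => ((v s : ℝ) : ℂ)) t = ((pd e v t : ℝ) : ℂ) := by
  unfold pd
  have h := (Complex.ofRealCLM.hasFDerivAt (x := v t)).comp t hv.hasFDerivAt
  have h2 : fderiv ℝ (fun s => ((v s : ℝ) : ℂ)) t = _ := h.fderiv
  rw [h2]
  simp

theorem dz_dzbar_log {z : Cn 2} (i : Fin 2) (h0 : z i ≠ 0) (j k : Fin 2) :
    dz j (dzbar k fun y => ((Real.log ‖y i‖ : ℝ) : ℂ)) z = 0 := by
  have hne : ∀ᶠ y : Cn 2 in 𝓝 z, y i ≠ 0 :=
    (continuous_apply i).continuousAt.eventually_ne h0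
  have e1 : dzbar k (fun y => ((Real.log ‖y i‖ : ℝ) : ℂ)) =ᶠ[𝓝 z]
      fun y => conj ((1 / 2) * ((Pi.single k 1 : Cn 2) i / y i)) := by
    filter_upwards [hne] with y hy
    have hd : DifferentiableAt ℝ (fun y : Cn 2 => Real.log ‖y i‖) y :=
      (log_norm_coord_smooth i hy).differentiableAt (by simp)
    rw [dzbar_eq_pd]
    simp only []
    rw [pd_ofReal' _ hd, pd_ofReal' _ hd, pd_log_norm_coord i hy, pd_log_norm_coord i hy]
    have hI : (Pi.single k Complex.I : Cn 2) i = Complex.I * (Pi.single k 1 : Cn 2) i := by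
      by_cases h : i = k
      · subst h; simp
      · simp [h]
    rw [hI, mul_div_assoc]
    generalize (Pi.single k 1 : Cn 2) i / y i = x
    apply Complex.ext <;> simp
  rw [dz_congr j e1]
  apply dz_conj_holo
  have hp : DifferentiableAt ℂ (fun y : Cn 2 => y i) z := differentiableAt_apply i z
  have hc : DifferentiableAt ℂ (fun _ : Cn 2 => (Pi.single k 1 : Cn 2) i) z :=
    differentiableAt_const _
  exact (hc.fun_mul (hp.inv h0)).const_mul (1 / 2 : ℂ)

theorem dz_dzbar_lin {U V : Cn 2 → ℝ} {z : Cn 2} (hU : ContDiffAt ℝ 2 U z)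
    (hV : ContDiffAt ℝ 2 V z) (c : ℝ) (j k : Fin 2) :
    dz j (dzbar k fun y => ((U y + c * V y : ℝ) : ℂ)) z =
      dz j (dzbar k fun y => ((U y : ℝ) : ℂ)) z + c * dz j (dzbar k fun y => ((V y : ℝ) : ℂ)) z := by
  set U' : Cn 2 → ℂ := fun y => ((U y : ℝ) : ℂ) with hU'
  set V' : Cn 2 → ℂ := fun y => ((V y : ℝ) : ℂ) with hV'
  have cU : ContDiffAt ℝ 2 U' z := Complex.ofRealCLM.contDiff.contDiffAt.comp z hU
  have cV : ContDiffAt ℝ 2 V' z := Complex.ofRealCLM.contDiff.contDiffAt.comp z hV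
  have hUe : ∀ᶠ t in 𝓝 z, ContDiffAt ℝ 2 U' t := cU.eventually (by simp)
  have hVe : ∀ᶠ t in 𝓝 z, ContDiffAt ℝ 2 V' t := cV.eventually (by simp)
  have e0 : (fun y => ((U y + c * V y : ℝ) : ℂ)) = fun y => U' y + c * V' y := by
    funext y; simp only [hU', hV']; push_cast; ring
  have e1 : dzbar k (fun y => U' y + c * V' y) =ᶠ[𝓝 z]
      fun y => dzbar k U' y + c * dzbar k V' y := by
    filter_upwards [hUe, hVe] with t h1 h2
    have d1 := h1.differentiableAt (by norm_num)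
    have d2 := h2.differentiableAt (by norm_num)
    simp only [dzbar_eq_pd]
    rw [pd_add _ d1 (d2.const_mul _), pd_add _ d1 (d2.const_mul _), pd_cmul _ _ d2, pd_cmul _ _ d2]
    ring
  have dd : ∀ {W : Cn 2 → ℂ}, ContDiffAt ℝ 2 W z → DifferentiableAt ℝ (dzbar k W) z := by
    intro W hW
    have a1 := (pd_contDiffAt (n := 1) (Pi.single k 1) hW).differentiableAt (by norm_num)
    have a2 := (pd_contDiffAt (n := 1) (Pi.single k Complex.I) hW).differentiableAt (by norm_num)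
    rw [dzbar_eq_pd]
    exact (a1.add (a2.const_mul _)).const_mul _
  rw [e0, dz_congr j e1]
  have d1 := dd cU
  have d2 := dd cV
  simp only [dz_eq_pd]
  rw [pd_add _ d1 (d2.const_mul _), pd_add _ d1 (d2.const_mul _), pd_cmul _ _ d2, pd_cmul _ _ d2]
  ring

theorem Hs_transform {T : Cn 2 → Cn 2} {z : Cn 2} (hT : AnalyticAt ℂ T z) (α β : ℝ)
    (hα : α = 0 ∨ z 0 ≠ 0) (hβ : β = 0 ∨ z 1 ≠ 0)
    (h : ∀ᶠ y in 𝓝 z, φ (T y) = φ y + α * Real.log ‖y 0‖ + β * Real.log ‖y 1‖) (j k : Fin 2) :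
    Hs φ z j k = ∑ a, ∑ b, fderiv ℂ T z (Pi.single j 1) a *
      conj (fderiv ℂ T z (Pi.single k 1) b) * Hs φ (T z) a b := by
  have h1 := levi_comp (U := fun y => ((φ y : ℝ) : ℂ)) (smooth_ofReal φ_smooth) hT j k
  simp only [Hs_apply]
  rw [← h1]
  have hφ : ContDiffAt ℝ 2 φ z := φ_smooth.contDiffAt.of_le (by norm_cast)
  -- remove the two logarithms one after the other
  have main : ∀ (i : Fin 2) (γ : ℝ) (W : Cn 2 → ℝ), ContDiffAt ℝ 2 W z → (γ = 0 ∨ z i ≠ 0) →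
      dz j (dzbar k fun y => ((W y + γ * Real.log ‖y i‖ : ℝ) : ℂ)) z =
      dz j (dzbar k fun y => ((W y : ℝ) : ℂ)) z ∧
      ContDiffAt ℝ 2 (fun y => W y + γ * Real.log ‖y i‖) z := by
    intro i γ W hW hγ
    rcases hγ with rfl | hi
    · simp only [zero_mul, add_zero]
      exact ⟨trivial, hW⟩
    · have hl : ContDiffAt ℝ 2 (fun y : Cn 2 => Real.log ‖y i‖) z :=
        (log_norm_coord_smooth i hi).of_le (by norm_cast)
      refine ⟨?_, hW.add (contDiffAt_const.mul hl)⟩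
      rw [dz_dzbar_lin hW hl, dz_dzbar_log i hi, mul_zero, add_zero]
  obtain ⟨m1, m2⟩ := main 0 α φ hφ hα
  obtain ⟨m3, _⟩ := main 1 β _ m2 hβ
  have e2 : dzbar k (fun y => ((φ (T y) : ℝ) : ℂ)) =ᶠ[𝓝 z]
      dzbar k (fun y => ((φ y + α * Real.log ‖y 0‖ + β * Real.log ‖y 1‖ : ℝ) : ℂ)) := by
    filter_upwards [h.eventually_nhds] with y hy
    apply dzbar_congr
    filter_upwards [hy] with x hx
    rw [hx]
  rw [dz_congr j e2, m3, m1]

/-! ### The symmetries of the potential -/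

theorem ee_swap (α β s : ℝ) : ee β α (-s) = ee α β s := by
  unfold ee; rw [neg_neg]; ring

theorem FF_swap (u v : ℂ) (s : ℝ) : FF ![v, u] s = FF ![u, v] (-s) := by
  unfold FF
  simp only [Matrix.cons_val_zero, Matrix.cons_val_one]
  rw [← ee_swap 1 1 s, ← ee_swap (Complex.normSq v) 1 s, ← ee_swap 1 (Complex.normSq u) s]
  ring

theorem φ_of_FF {z z' : Cn 2} {c : ℝ} (τ : ℝ → ℝ) (τ' : ℝ → ℝ) (h : ∀ s, FF z' s = FF z (τ s) + c)
    (h' : ∀ s, FF z s = FF z' (τ' s) - c) : φ z' = φ z + c := by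
  have h1 : φ z ≤ φ z' - c := by
    have := φ_le z (τ (ss z'))
    have h2 := h (ss z')
    unfold φ at *
    linarith
  have h2 : φ z' ≤ φ z + c := by
    have := φ_le z' (τ' (ss z))
    have h2 := h' (ss z)
    unfold φ at *
    linarith
  linarith

theorem φ_swap (u v : ℂ) : φ ![v, u] = φ ![u, v] := by
  have := φ_of_FF (z := ![u, v]) (z' := ![v, u]) (c := 0) (fun s => -s) (fun s => -s)
    (fun s => by rw [FF_swap]; ring) (fun s => by rw [FF_swap]; ring)
  rw [this, add_zero]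

theorem ee_exp {α β s r : ℝ} (hr : 0 < r) :
    ee α β (Real.log r - s) = (α * r ^ 2 * Real.exp (-s) + β * Real.exp s) / r := by
  unfold ee
  have e1 : Real.exp (Real.log r - s) = r * Real.exp (-s) := by
    rw [sub_eq_add_neg, Real.exp_add, Real.exp_log hr]
  have e2 : Real.exp (-(Real.log r - s)) = Real.exp s / r := by
    rw [neg_sub, Real.exp_sub, Real.exp_log hr]
  rw [e1, e2]
  field_simp

theorem FF_T1 (u : ℂ) {v : ℂ} (hv : v ≠ 0) (s : ℝ) :
    FF ![v⁻¹, u * v] s = FF ![u, v] (Real.log ‖v‖ - s) + -Real.log ‖v‖ := by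
  have hn : 0 < ‖v‖ := norm_pos_iff.2 hv
  have hp1 := pos_a ![v⁻¹, u * v] s
  have hp2 := pos_b s
  have hp3 := pos_c ![v⁻¹, u * v] s
  simp only [Matrix.cons_val_zero, Matrix.cons_val_one] at hp1 hp3
  unfold FF
  simp only [Matrix.cons_val_zero, Matrix.cons_val_one]
  rw [ee_exp hn, ee_exp hn, ee_exp hn]
  have a1 : (Complex.normSq u * ‖v‖ ^ 2 * Real.exp (-s) + 1 * Real.exp s) =
      ee 1 (Complex.normSq (u * v)) s := by
    unfold ee; rw [Complex.normSq_mul, Complex.normSq_eq_norm_sq v]; ring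
  have a2 : (1 * ‖v‖ ^ 2 * Real.exp (-s) + 1 * Real.exp s) =
      ee (Complex.normSq v⁻¹) 1 s * ‖v‖ ^ 2 := by
    unfold ee; rw [Complex.normSq_inv, Complex.normSq_eq_norm_sq v]; field_simp; ring
  have a3 : (1 * ‖v‖ ^ 2 * Real.exp (-s) + Complex.normSq v * Real.exp s) =
      ee 1 1 s * ‖v‖ ^ 2 := by
    unfold ee; rw [Complex.normSq_eq_norm_sq v]; ring
  rw [a1, a2, a3, Real.log_div hp3.ne' hn.ne', Real.log_div (by positivity) hn.ne',
    Real.log_div (by positivity) hn.ne', Real.log_mul hp1.ne' (by positivity),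
    Real.log_mul hp2.ne' (by positivity), Real.log_pow]
  push_cast
  ring

theorem φ_T1 (u : ℂ) {v : ℂ} (hv : v ≠ 0) : φ ![v⁻¹, u * v] = φ ![u, v] + -Real.log ‖v‖ := by
  refine φ_of_FF (fun s => Real.log ‖v‖ - s) (fun s => Real.log ‖v‖ - s)
    (fun s => FF_T1 u hv s) (fun s => ?_)
  rw [FF_T1 u hv, sub_sub_cancel]
  ring

theorem φ_T5 {u : ℂ} (v : ℂ) (hu : u ≠ 0) : φ ![u * v, u⁻¹] = φ ![u, v] + -Real.log ‖u‖ := by
  rw [← φ_swap (u * v), mul_comm u v, φ_T1 v hu, φ_swap]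

theorem φ_T2 {u v : ℂ} (hu : u ≠ 0) (hv : v ≠ 0) :
    φ ![(u * v)⁻¹, u] = φ ![u, v] + -Real.log ‖u‖ + -(2 * Real.log ‖v‖) := by
  have h1 := φ_T1 v⁻¹ (mul_ne_zero hu hv)
  have e : v⁻¹ * (u * v) = u := by field_simp
  rw [e, φ_T1 u hv, norm_mul, Real.log_mul (norm_ne_zero_iff.2 hu) (norm_ne_zero_iff.2 hv)] at h1
  rw [h1]; ring

theorem φ_T3 {u v : ℂ} (hu : u ≠ 0) (hv : v ≠ 0) :
    φ ![u⁻¹, v⁻¹] = φ ![u, v] + -(2 * Real.log ‖u‖) + -(2 * Real.log ‖v‖) := by
  have h1 := φ_T1 (u * v)⁻¹ hu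
  have e : (u * v)⁻¹ * u = v⁻¹ := by field_simp
  rw [e, φ_T2 hu hv] at h1
  rw [h1]; ring

theorem φ_T4 {u v : ℂ} (hu : u ≠ 0) (hv : v ≠ 0) :
    φ ![v, (u * v)⁻¹] = φ ![u, v] + -(2 * Real.log ‖u‖) + -Real.log ‖v‖ := by
  have h1 := φ_T1 u⁻¹ (inv_ne_zero hv)
  have e : u⁻¹ * v⁻¹ = (u * v)⁻¹ := by field_simp
  rw [e, inv_inv, φ_T3 hu hv, norm_inv, Real.log_inv] at h1
  rw [h1]; ring

end Pool.Agent.K3h78.HS
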