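import Pool.Agent.K3h78.HS.BiLap
import Pool.Agent.W549.CYDefs

/-! # Wirtinger calculus along holomorphic discs -/

set_option autoImplicit false

open Filter Topology
open scoped ContDiff ComplexConjugate

namespace Pool.Agent.K3h78.HS

open Pool.Agent.W549.CY (Cn dz dzbar)

/-- `∂u/∂t` -/
noncomputable def dt (u : ℂ → ℂ) (t : ℂ) : ℂ := (1 / 2) * (pd 1 u t - Complex.I * pd Complex.I u t)

/-- `∂u/∂t̄` -/
noncomputable def dtb (u : ℂ → ℂ) (t : ℂ) : ℂ :=
  (1 / 2) * (pd 1 u t + Complex.I * pd Complex.I u t)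

theorem dt_congr {u v : ℂ → ℂ} {t : ℂ} (h : u =ᶠ[𝓝 t] v) : dt u t = dt v t := by
  unfold dt; rw [pd_congr 1 h, pd_congr Complex.I h]

theorem dtb_congr {u v : ℂ → ℂ} {t : ℂ} (h : u =ᶠ[𝓝 t] v) : dtb u t = dtb v t := by
  unfold dtb; rw [pd_congr 1 h, pd_congr Complex.I h]

/-- a real-linear map on `ℂ^n` -/
theorem lin_apply {n : ℕ} (A : Cn n →L[ℝ] ℂ) (x : Cn n) :
    A x = ∑ j, ((x j).re * A (Pi.single j 1) + (x j).im * A (Pi.single j Complex.I)) := by
  have hx : x = ∑ j, ((x j).re • (Pi.single j 1 : Cn n) + (x j).im • (Pi.single j Complex.I : Cn n)) := by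
    funext i
    rw [Finset.sum_apply]
    rw [Finset.sum_eq_single i]
    · simp only [Pi.add_apply, Pi.smul_apply, Pi.single_eq_same, Complex.real_smul, mul_one]
      rw [Complex.re_add_im]
    · intro b _ hb
      simp [Pi.single_eq_of_ne (Ne.symm hb)]
    · simp
  conv_lhs => rw [hx]
  rw [map_sum]
  apply Finset.sum_congr rfl
  intro j _
  rw [map_add, map_smul, map_smul, Complex.real_smul, Complex.real_smul]

theorem lin_dz {n : ℕ} (A : Cn n →L[ℝ] ℂ) (x : Cn n) :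
    (1 / 2) * (A x - Complex.I * A (Complex.I • x)) =
      ∑ j, x j * ((1 / 2) * (A (Pi.single j 1) - Complex.I * A (Pi.single j Complex.I))) := by
  rw [lin_apply A x, lin_apply A (Complex.I • x), Finset.mul_sum, ← Finset.sum_sub_distrib,
    Finset.mul_sum]
  apply Finset.sum_congr rfl
  intro j _
  simp only [Pi.smul_apply, smul_eq_mul, Complex.mul_re, Complex.I_re, zero_mul, Complex.I_im,
    one_mul, zero_sub, Complex.mul_im, zero_add, Complex.ofReal_neg]
  conv_rhs => rw [← Complex.re_add_im (x j)]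
  linear_combination (1 / 2 * ((x j).im : ℂ) * A (Pi.single j Complex.I)) * Complex.I_sq

theorem lin_dzbar {n : ℕ} (A : Cn n →L[ℝ] ℂ) (x : Cn n) :
    (1 / 2) * (A x + Complex.I * A (Complex.I • x)) =
      ∑ j, conj (x j) * ((1 / 2) * (A (Pi.single j 1) + Complex.I * A (Pi.single j Complex.I))) := by
  rw [lin_apply A x, lin_apply A (Complex.I • x), Finset.mul_sum, ← Finset.sum_add_distrib,
    Finset.mul_sum]
  apply Finset.sum_congr rfl
  intro j _
  simp only [Pi.smul_apply, smul_eq_mul, Complex.mul_re, Complex.I_re, zero_mul, Complex.I_im,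
    one_mul, zero_sub, Complex.mul_im, zero_add, Complex.ofReal_neg]
  have hc : conj (x j) = (x j).re - (x j).im * Complex.I := by
    apply Complex.ext <;> simp
  rw [hc]
  linear_combination (1 / 2 * ((x j).im : ℂ) * A (Pi.single j Complex.I)) * Complex.I_sq

section chain

variable {n m : ℕ}

theorem real_of_complex {T : Cn n → Cn m} {T' : Cn n →L[ℂ] Cn m} {z : Cn n}
    (hT : HasFDerivAt T T' z) : HasFDerivAt T (T'.restrictScalars ℝ) z := hT.restrictScalars ℝ

/-- chain rule for `∂/∂z_j` and holomorphic inner maps -/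
theorem dz_comp {U : Cn m → ℂ} {T : Cn n → Cn m} {T' : Cn n →L[ℂ] Cn m} {z : Cn n}
    (hU : DifferentiableAt ℝ U (T z)) (hT : HasFDerivAt T T' z) (j : Fin n) :
    dz j (fun w => U (T w)) z = ∑ a, T' (Pi.single j 1) a * dz a U (T z) := by
  have h := hU.hasFDerivAt.comp z (hT.restrictScalars ℝ)
  have h' : fderiv ℝ (fun w => U (T w)) z = (fderiv ℝ U (T z)).comp (T'.restrictScalars ℝ) :=
    h.fderiv
  unfold dz
  rw [h']
  simp only [ContinuousLinearMap.comp_apply, ContinuousLinearMap.coe_restrictScalars']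
  have hI : (Pi.single j Complex.I : Cn n) = Complex.I • (Pi.single j 1 : Cn n) := by
    rw [← Pi.single_smul, smul_eq_mul, mul_one]
  rw [hI, map_smul, lin_dz]

theorem dzbar_comp {U : Cn m → ℂ} {T : Cn n → Cn m} {T' : Cn n →L[ℂ] Cn m} {z : Cn n}
    (hU : DifferentiableAt ℝ U (T z)) (hT : HasFDerivAt T T' z) (j : Fin n) :
    dzbar j (fun w => U (T w)) z = ∑ a, conj (T' (Pi.single j 1) a) * dzbar a U (T z) := by
  have h := hU.hasFDerivAt.comp z (hT.restrictScalars ℝ)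
  have h' : fderiv ℝ (fun w => U (T w)) z = (fderiv ℝ U (T z)).comp (T'.restrictScalars ℝ) :=
    h.fderiv
  unfold dzbar
  rw [h']
  simp only [ContinuousLinearMap.comp_apply, ContinuousLinearMap.coe_restrictScalars']
  have hI : (Pi.single j Complex.I : Cn n) = Complex.I • (Pi.single j 1 : Cn n) := by
    rw [← Pi.single_smul, smul_eq_mul, mul_one]
  rw [hI, map_smul, lin_dzbar]

theorem pd_disc {U : Cn n → ℂ} {f : ℂ → Cn n} {f' : Cn n} {t : ℂ}
    (hU : DifferentiableAt ℝ U (f t)) (hf : HasDerivAt f f' t) (e : ℂ) :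
    pd e (fun s => U (f s)) t = fderiv ℝ U (f t) (e • f') := by
  have h := hU.hasFDerivAt.comp t (hf.hasFDerivAt.restrictScalars ℝ)
  have h' : fderiv ℝ (fun s => U (f s)) t = _ := h.fderiv
  unfold pd
  rw [h']
  simp

theorem dt_disc {U : Cn n → ℂ} {f : ℂ → Cn n} {f' : Cn n} {t : ℂ}
    (hU : DifferentiableAt ℝ U (f t)) (hf : HasDerivAt f f' t) :
    dt (fun s => U (f s)) t = ∑ j, f' j * dz j U (f t) := by
  unfold dt
  rw [pd_disc hU hf, pd_disc hU hf, one_smul, lin_dz]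
  rfl

theorem dtb_disc {U : Cn n → ℂ} {f : ℂ → Cn n} {f' : Cn n} {t : ℂ}
    (hU : DifferentiableAt ℝ U (f t)) (hf : HasDerivAt f f' t) :
    dtb (fun s => U (f s)) t = ∑ j, conj (f' j) * dzbar j U (f t) := by
  unfold dtb
  rw [pd_disc hU hf, pd_disc hU hf, one_smul, lin_dzbar]
  rfl

end chain

/-! ### Product rules -/

theorem pd_mul {u v : ℂ → ℂ} {t : ℂ} (e : ℂ) (hu : DifferentiableAt ℝ u t)
    (hv : DifferentiableAt ℝ v t) :
    pd e (fun s => u s * v s) t = pd e u t * v t + u t * pd e v t := by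
  unfold pd
  rw [fderiv_fun_mul hu hv]
  simp [smul_eq_mul]
  ring

theorem dt_mul {u v : ℂ → ℂ} {t : ℂ} (hu : DifferentiableAt ℝ u t)
    (hv : DifferentiableAt ℝ v t) :
    dt (fun s => u s * v s) t = dt u t * v t + u t * dt v t := by
  unfold dt
  rw [pd_mul _ hu hv, pd_mul _ hu hv]
  ring

theorem dtb_mul {u v : ℂ → ℂ} {t : ℂ} (hu : DifferentiableAt ℝ u t)
    (hv : DifferentiableAt ℝ v t) :
    dtb (fun s => u s * v s) t = dtb u t * v t + u t * dtb v t := by
  unfold dtb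
  rw [pd_mul _ hu hv, pd_mul _ hu hv]
  ring

theorem pd_holo {h : ℂ → ℂ} {h' t : ℂ} (e : ℂ) (hh : HasDerivAt h h' t) :
    pd e h t = e * h' := by
  unfold pd
  rw [(hh.hasFDerivAt.restrictScalars ℝ).fderiv]
  simp

theorem dt_holo {h : ℂ → ℂ} {h' t : ℂ} (hh : HasDerivAt h h' t) : dt h t = h' := by
  unfold dt
  rw [pd_holo _ hh, pd_holo _ hh]
  linear_combination (-(1 / 2) * h') * Complex.I_sq

theorem dtb_holo {h : ℂ → ℂ} {h' t : ℂ} (hh : HasDerivAt h h' t) : dtb h t = 0 := by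
  unfold dtb
  rw [pd_holo _ hh, pd_holo _ hh]
  linear_combination ((1 / 2) * h') * Complex.I_sq

theorem pd_conj {h : ℂ → ℂ} {h' t : ℂ} (e : ℂ) (hh : HasDerivAt h h' t) :
    pd e (fun s => conj (h s)) t = conj e * conj h' := by
  unfold pd
  have h1 := (Complex.conjCLE.toContinuousLinearMap.hasFDerivAt (x := h t)).comp t
    (hh.hasFDerivAt.restrictScalars ℝ)
  have h2 : fderiv ℝ (fun s => conj (h s)) t = _ := h1.fderiv
  rw [h2]
  simp

theorem dt_conj {h : ℂ → ℂ} {h' t : ℂ} (hh : HasDerivAt h h' t) :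
    dt (fun s => conj (h s)) t = 0 := by
  unfold dt
  rw [pd_conj _ hh, pd_conj _ hh, map_one, Complex.conj_I]
  linear_combination ((1 / 2) * conj h') * Complex.I_sq

theorem dtb_conj {h : ℂ → ℂ} {h' t : ℂ} (hh : HasDerivAt h h' t) :
    dtb (fun s => conj (h s)) t = conj h' := by
  unfold dtb
  rw [pd_conj _ hh, pd_conj _ hh, map_one, Complex.conj_I]
  linear_combination (-(1 / 2) * conj h') * Complex.I_sq

theorem pd_sum {ι : Type*} (s : Finset ι) {u : ι → ℂ → ℂ} {t : ℂ} (e : ℂ)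
    (hu : ∀ i ∈ s, DifferentiableAt ℝ (u i) t) :
    pd e (fun x => ∑ i ∈ s, u i x) t = ∑ i ∈ s, pd e (u i) t := by
  unfold pd
  rw [fderiv_fun_sum hu]
  simp

theorem dt_sum {ι : Type*} (s : Finset ι) {u : ι → ℂ → ℂ} {t : ℂ}
    (hu : ∀ i ∈ s, DifferentiableAt ℝ (u i) t) :
    dt (fun x => ∑ i ∈ s, u i x) t = ∑ i ∈ s, dt (u i) t := by
  unfold dt
  rw [pd_sum s _ hu, pd_sum s _ hu, Finset.mul_sum, ← Finset.sum_sub_distrib, Finset.mul_sum]

theorem dtb_sum {ι : Type*} (s : Finset ι) {u : ι → ℂ → ℂ} {t : ℂ}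
    (hu : ∀ i ∈ s, DifferentiableAt ℝ (u i) t) :
    dtb (fun x => ∑ i ∈ s, u i x) t = ∑ i ∈ s, dtb (u i) t := by
  unfold dtb
  rw [pd_sum s _ hu, pd_sum s _ hu, Finset.mul_sum, ← Finset.sum_add_distrib, Finset.mul_sum]

end Pool.Agent.K3h78.HS
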